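import Pool.Agent.Lib.MP_688fd0_co.SQ5.H49.BaseZ
import Pool.Agent.Lib.MP_688fd0_co.SQ5.H53.HConn
import Pool.Agent.Lib.MP_688fd0_co.SQ5.H76.DegF
import Pool.Agent.Lib.MP_688fd0_co.SQ5.H48.LamE
import Pool.Agent.Lib.MP_688fd0_co.SQ5.H24.LayB

/-!
FT, row BASEZ (helper49): the connectivity of the two windows next to the wide strip `r + w`: the walls `r + 1 .. r + w`
(labels `r + 2 .. r + w + 1`) and `r + w + 1 .. r + 2 w` (labels `r + w + 2 .. r + 2 w + 1`), from helper53's `conn_win`.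
-/

set_option autoImplicit false

namespace Pool.Agent.Lib.MP_688fd0_co.SQ5.H49.BaseZ

open Function Pool.Agent.Lib.MP_688fd0_co.OSF
open Pool.Agent.Lib.MP_688fd0_co.SQ5.H64 Pool.Agent.Lib.MP_688fd0_co.SQ5.H76 Pool.Agent.Lib.MP_688fd0_co.SQ5.H95
open Pool.Agent.Lib.MP_688fd0_co.SQ5.FT Pool.Agent.Lib.MP_688fd0_co.SQ5.H53

universe u v

variable {L : AddSubgroup (ℤ × ℤ)} {M R : ℕ} {dc : ℕ → ℤ} {spc : ℕ → Prop} {Gr : ℤ} {g : Geo L M R dc spc Gr} {m0 : ℕ}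
  {hw : ℤ → ℕ} (H : Geo.Mn g m0 hw)

variable {Q : Type} [Group Q] [Finite Q] {B : Lb.{0, v} Q} {l : L3 → B.L} (c : Cov B l L) (hi : ∀ i, B.inv (l i) = l i)
  (hq : Injective (qq B l)) (hii : ∀ x, B.inv (B.inv x) = x) {κ0 κ1 : ℤ}

/-- The half widths around the two windows. -/
structure Two (hw : ℤ → ℕ) (r w : ℤ) : Prop where
  r0 : 0 ≤ r
  w5 : 5 ≤ w
  lo : hw r = 3
  up : hw (r + 2 * w) = 3
  mid : hw (r + w) % 2 = 1
  m0 : ∀ K, r < K → K < r + w → hw K = 2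
  m1 : ∀ K, r + w < K → K < r + 2 * w → hw K = 2

theorem conn_T {r w : ℤ} (T : Two hw r w) (h0 : 2 ≤ κ0) (h1 : κ1 ≤ m0) {p : ℕ} (hp : 2 ≤ p)
    (hN : ∀ z : Zr g, p ≤ g.rE z) (hk0 : κ0 ≤ r + 2) (hk1 : r + 2 * w + 1 ≤ κ1) {e : ℕ} {U : Q} (hU : RegC.PerU c e U)
    (he : 0 < e) (Nn : Subgroup Q) [Nn.Normal] (hNn : IsCyclic Nn) (hco : (Nat.card Nn).Coprime Nn.index)
    {e1 : ℕ} (he1 : Nn.index ∣ e1) (e10 : 0 < e1) (hw2 : (e1 : ℤ) + 2 ≤ w)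
    (hF : ∀ v y y', c.Over y v → c.Over y' v → y⁻¹ * y' ∈ H48.K0 (qq B l .a * qq B l .t) (qq B l .a * qq B l .b))
    {z1 : ℤ} (hz1 : 0 ≤ z1) (hz4 : z1 + 3 < g.w.Et) (hrp : ∀ z, z1 ≤ z → z ≤ z1 + 3 → g.rp z % 8 = 0)
    (hrE : ∀ z, z1 ≤ z → z ≤ z1 + 2 → ∃ n : ℕ, (g.rE z : ℤ) + 1 = 8 * e1 * n + 3)
    (hex : ∀ (z : Zr g) (κ : ℤ), ∃ y : Q, c.Over y ((H.bd z).st κ (g.rs z) 0)) :
    ∀ u : Unit, Cls (PAdj (inst H c hi hq hii κ0 κ1 h0 h1 p hp hN) (VV c H κ0 κ1 (r + 2) (r + 2 * w + 1))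
      (Lam2 H c κ0 κ1 (r + 2) (r + w + 1) (r + 2 * w + 1))) {r | (fun _ : Zr g => ()) r.1 = u} := by
  have hr0 := T.r0
  have hw5 := T.w5
  refine conn2 H c hi hq hii hex h0 h1 p hp hN hk0 hk1 (by omega) (by omega) (by omega) ?_ ?_
  · intro z z' s s' a0 a1 a2 a3
    exact HConn.conn_win H c hi hq hii h0 h1 hp hN (Lam2 H c κ0 κ1 (r + 2) (r + w + 1) (r + 2 * w + 1)) (v0 := r + 2)
      (v1 := r + w + 1) le_rfl (by omega) (fun z s s' h => ⟨Or.inl ⟨h.1.2, h.2.1.2⟩, h.2.2⟩) hk0 (by omega) hU he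
      (by omega) Nn hNn hco he1 e10 hr0 (by omega) hw2 (by omega) T.m0 (by rw [T.lo]) T.mid (Or.inl T.lo) hF hz1 hz4 hrp hrE rfl rfl
      z z' s s' a0 a1 a2 a3
  · intro z z' s s' a0 a1 a2 a3
    exact HConn.conn_win H c hi hq hii h0 h1 hp hN (Lam2 H c κ0 κ1 (r + 2) (r + w + 1) (r + 2 * w + 1))
      (v0 := r + w + 1 + 1) (v1 := r + 2 * w + 1) (by omega) le_rfl
      (fun z s s' h => ⟨Or.inr ⟨by have := h.1.1; omega, by have := h.2.1.1; omega⟩, h.2.2⟩) (by omega) hk1 hU he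
      (by omega) Nn hNn hco he1 e10 (r0 := r + w) (by omega) (by omega) hw2 (by omega)
      (fun K a b => T.m1 K a (by omega)) T.mid (by rw [show r + w + w = r + 2 * w by ring, T.up])
      (Or.inr (by rw [show r + w + w = r + 2 * w by ring, T.up])) hF hz1 hz4 hrp hrE (by ring) (by ring)
      z z' s s' a0 a1 a2 a3

section fin

open Pool.Agent.Lib.MP_688fd0_co.SQ3 Pool.Agent.Lib.MP_688fd0_co.SQ5.H58

variable {Q : Type} [Group Q] [Fintype Q] {N C : Subgroup Q} {eps : Q →* ℤˣ} {k P : ℕ} {x : Fin 3 → Q} (Hx : Inv3 eps x)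
  {B : Lb.{0, v} Q} {l : L3 → B.L} {t a b : Fin 3} (hta : t ≠ a) (htb : t ≠ b) (hab : a ≠ b) (ht : B.q (l .t) = x t)
  (ha : B.q (l .a) = x a) (hb : B.q (l .b) = x b)

/-- THE BASE of the threads; of the rows only the windows (`hp3`) are a hypothesis. -/
theorem baseT_T {cS : ℕ} {A : Set Q} (gn : GN N C eps k P) (hk0 : 0 < k)
    (hi : ∀ i, B.inv (l i) = l i) (hq : Injective (qq B l))
    (hii : ∀ x, B.inv (B.inv x) = x) {e : ℕ} (he : k * Nat.card C ∣ e) (he0 : 1 ≤ e)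
    (hne : B.q (l .t) * (B.q (l .a) * B.q (l .b)) ^ 2 * B.q (l .t) ≠ ((B.q (l .a) * B.q (l .b)) ^ 2)⁻¹)
    {M R : ℕ} {dc : ℕ → ℤ} {spc : ℕ → Prop} {Gr : ℤ}
    {g : Geo (Ltc (ct eps (x a * x t)) (ct eps (x b * x t))) M R dc spc Gr} {m0 : ℕ} {hw : ℤ → ℕ}
    (H : Geo.Mn g m0 hw) {r w : ℕ} (hwk : k + 2 ≤ w) (hw5 : 5 ≤ w) (hm0 : 2 * r + 2 * w + 1 ≤ m0)
    (T : Two hw r w) {kq nh m TT : ℤ} {ks : ℕ} (hL : H24.Lay g kq nh m TT ks) (hkq : (k : ℤ) ∣ kq) (hkq1 : 1 ≤ kq) (hnh : 4 ≤ nh)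
    (hc : H66.Chg g) (hG : 64 ≤ Gr) (hdl : ∀ k, k + 1 < R → spc k → g.dl k + 20 ≤ Gr)
    (hsea : ∀ K : ℤ, K % R = R - 1 → ∀ s, (g.P K s - g.P (K + 1) s) % 8 = 0 ∨ (g.P K s - g.P (K + 1) s) % 8 = 3)
    {mm K gap : ℕ} (hmm : 0 < mm) (hK : 2 * w * Nat.card (K0 eps) ≤ K)
    (hgap : (K + 2) * (((cS * K ^ 2 + 1) * mm) * (8 * e)) ≤ gap) (hlen : ∀ z : Zr g, gap + 8 * e ≤ g.rE z)
    (h0 : (2 : ℤ) ≤ r + 1) (h1 : (r : ℤ) + 2 * w + 2 ≤ m0) (hp : 2 ≤ 8 * e) (hN : ∀ z : Zr g, 8 * e ≤ g.rE z)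
    [∀ z : Zr g, DecidableEq (SS (Hx.co hta htb hab ht ha hb).cov H (r + 1) (r + 2 * w + 2) z)]
    (hp3 : ∀ c0 : ℤ, (c0 = r ∨ c0 = r + w) → ∀ (z : Zr g)
      (s y y' : VV (Hx.co hta htb hab ht ha hb).cov H (r + 1) (r + 2 * w + 2) (c0 + 2) (c0 + w + 1) z),
      (LamV H (Hx.co hta htb hab ht ha hb).cov (r + 1) (r + 2 * w + 2) (c0 + 2) (c0 + w + 1) z).Adj s y →
      (LamV H (Hx.co hta htb hab ht ha hb).cov (r + 1) (r + 2 * w + 2) (c0 + 2) (c0 + w + 1) z).Adj s y' → y ≠ y' →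
      StkT ((inst H (Hx.co hta htb hab ht ha hb).cov hi hq hii (r + 1) (r + 2 * w + 2) h0 h1 (8 * e) hp hN).D0 A z) mm
        (p3 s.1 y.1 y'.1)) :
    ∃ U : Q, (∀ y, eps y = 1 → y * U = U * y) ∧
      BaseT A cS (inst H (Hx.co hta htb hab ht ha hb).cov hi hq hii (r + 1) (r + 2 * w + 2) h0 h1 (8 * e) hp hN)
        (VV (Hx.co hta htb hab ht ha hb).cov H (r + 1) (r + 2 * w + 2) (r + 2) (r + 2 * w + 1))
        (W2 H (Hx.co hta htb hab ht ha hb).cov (r + 1) (r + 2 * w + 2) (r + w + 1))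
        (Lam2 H (Hx.co hta htb hab ht ha hb).cov (r + 1) (r + 2 * w + 2) (r + 2) (r + w + 1) (r + 2 * w + 1)) (fun _ => U)
        (fun _ => (cS * K ^ 2 + 1) * mm) (fun _ => mm) (fun _ => gap) (fun _ => ()) := by
  obtain ⟨U, hU1, hU2, hU3, hper⟩ := inst_per Hx hta htb hab ht ha hb gn hi hq hii he he0
  have hNn := gn.Nn
  obtain ⟨ρ, ty, hreg⟩ := hL.reg
  obtain ⟨z1, a1, a2, a3, a4⟩ := H48.stretch_lam hreg (by have := g.c0_nonneg; exact this) hkq1 hnh hkq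
  have hPU := RegC.perU_of Hx hta htb hab ht ha hb hU2 hU3
  have hex : ∀ (z : Zr g) (κ : ℤ), ∃ y : Q, (Hx.co hta htb hab ht ha hb).cov.Over y ((H.bd z).st κ (g.rs z) 0) := by
    intro z κ
    obtain ⟨i, j, hs⟩ := (H.bd z).st_zero κ (g.rs z)
    rw [hs]
    exact exists_over Hx hta htb hab ht ha hb i j
  have hidx : N.index = k := gn.idx
  have hconn := conn_T H (Hx.co hta htb hab ht ha hb).cov hi hq hii (κ0 := r + 1) (κ1 := r + 2 * w + 2) T h0 h1 hp hN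
    (by omega) (by omega) hPU (by omega) N gn.Nc (by rw [hidx]; exact gn.cop) (e1 := k) (by rw [hidx]) hk0 (by exact_mod_cast hwk)
    (HConn.hF_cov Hx hta htb hab ht ha hb) a1 a2 a3 a4 hex
  have w0 : ∀ K : ℤ, (r : ℤ) + 2 - 1 ≤ K → K ≤ (r : ℤ) + w + 1 - 2 → hw K = 2 := fun K b0 b1 => T.m0 K (by omega) (by omega)
  have w1 : ∀ K : ℤ, (r : ℤ) + w + 1 + 1 - 1 ≤ K → K ≤ (r : ℤ) + 2 * w + 1 - 2 → hw K = 2 := fun K b0 b1 =>
    T.m1 K (by omega) (by omega)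
  refine ⟨U, hU2, baseT_of_rows Hx hta htb hab ht ha hb hi hq hii he0 H h0 h1 hp hN hc hG hdl hsea (c1 := r + 1)
    (c2 := r + w) (by omega) (by omega) (by omega) (by omega) (by push_cast; omega) (by push_cast; omega) (by omega) (by omega) hmm
    ?_ hgap hlen (hper H h0 h1 hp hN) ?_ ?_ ?_ ?_ ?_ ?_ hconn⟩
  · refine le_trans (Nat.mul_le_mul_right _ ?_) hK
    omega
  · exact fun z s => H76.Deg.lamV_hiso H _ hi (by omega) (by omega) (by omega) w0 hne z s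
  · exact fun z s => H76.Deg.lamV_hiso H _ hi (by omega) (by omega) (by omega) w1 hne z s
  · exact fun z s y h => H76.Deg.lamV_h4 H _ hi (by omega) (by omega) (by omega) w0 hne z s y h
  · exact fun z s y h => H76.Deg.lamV_h4 H _ hi (by omega) (by omega) (by omega) w1 hne z s y h
  · exact fun z s y y' h h' hyy => hp3 r (Or.inl rfl) z s y y' h h' hyy
  · have h3 := hp3 (r + w) (Or.inr rfl)
    have e1 : (r : ℤ) + w + 2 = r + w + 1 + 1 := by ring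
    have e2 : (r : ℤ) + w + w + 1 = r + 2 * w + 1 := by ring
    rw [e1, e2] at h3
    exact fun z s y y' h h' hyy => h3 z s y y' h h' hyy

end fin

end Pool.Agent.Lib.MP_688fd0_co.SQ5.H49.BaseZ
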