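import Pool.Agent.Lib.MP_688fd0_co.SQ5.H12.Traj
import Pool.Agent.Lib.MP_688fd0_co.SQ5.H14.Omega
import Pool.Agent.Lib.MP_688fd0_co.SQ5.H23.C2All

/-!
THREADS, the trajectory (helper49): instances of helper12's `Per` from helper14's walk.

* `exists_per`: `N` cyclic normal in the finite group `Q`, `S` a generating set, no element of `S` in `H`.
* `steps_gen`: for reflections `a, t, b` and an arbitrary set `A` of reflections the steps `u g⁻¹` (`u = a, b, a t⁻¹ a`, `g` a
  letter outside of `⟨a, t, b⟩`) generate `ker eps`.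
* `exists_per_inv`: both together for `SQD.Inv`.
* `places`: choice of the representatives of the cosets.
-/

set_option autoImplicit false

namespace Pool.Agent.Lib.MP_688fd0_co.SQ5.H49

open Pool.Agent.Lib.MP_688fd0_co.OSF Pool.Agent.Lib.MP_688fd0_co.SQ3
open Pool.Agent.Lib.MP_688fd0_co.SQD
open Subgroup

/-- A subgroup of a cyclic normal subgroup is normal. -/
theorem normal_of_le {Q : Type*} [Group Q] [Finite Q] {N N0 : Subgroup Q} (hN : N.Normal) (hc : IsCyclic N)
    (h : N0 ≤ N) : N0.Normal := by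
  refine ⟨fun x hx g => ?_⟩
  have h1 := (SQ2.H41.zpowers_normal N hN hc (h hx)).conj_mem x (mem_zpowers x) g
  exact (zpowers_le.2 hx) h1

/-- The trajectory of a generating set. -/
theorem exists_per {Q : Type*} [Group Q] [Finite Q] (H N : Subgroup Q) (hN : N.Normal) (hc : IsCyclic N) (S : Set Q)
    (hne : S.Nonempty) (hS : closure S = ⊤) (hSH : ∀ s ∈ S, s ∉ H) (Om : ℕ)
    (hOm : (Nat.card N).primeFactors.card ≤ Om) (hbig : ∀ p ∈ (Nat.card N).primeFactors, Om < p) :
    ∃ P : H12.Per H N (N ⊓ H), (∀ t, P.s t ∈ S) ∧ P.q ∣ Nat.card N ∧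
      P.n ≤ (N.index + 1) * N.index + 1 + Om * (Om * (2 * N.index + 1)) := by
  classical
  have hN0 : (N ⊓ H).Normal := normal_of_le hN hc inf_le_left
  have hcyc : IsCyclic (N ⧸ (N ⊓ H).subgroupOf N) :=
    isCyclic_of_surjective (QuotientGroup.mk' ((N ⊓ H).subgroupOf N)) (QuotientGroup.mk'_surjective _)
  have hdvd : (N ⊓ H).relIndex N ∣ Nat.card N := Subgroup.index_dvd_card _
  have hpf : ((N ⊓ H).relIndex N).primeFactors ⊆ (Nat.card N).primeFactors :=
    Nat.primeFactors_mono hdvd Nat.card_pos.ne'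
  have hSf : S.Finite := Set.toFinite S
  obtain ⟨w, h1, h2, h3, h4, h5, h6⟩ := H14.omega_finite N (N ⊓ H) inf_le_left hSf.toFinset
    (by rwa [Set.Finite.toFinset_nonempty]) (by rwa [Set.Finite.coe_toFinset]) Om
    ((Finset.card_le_card hpf).trans hOm) (fun p hp => hbig p (hpf hp))
  have hwne : w ≠ [] := by
    rintro rfl
    simp at h2
  have hw : H12.pre (H12.ofList w) w.length = w.prod := by
    rw [H12.pre_ofList w w.length le_rfl, List.take_length]
  have hmem : ∀ t, H12.ofList w t ∈ S := fun t => by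
    have := h1 _ (H12.ofList_mem hwne t)
    rwa [Set.Finite.mem_toFinset] at this
  let y : Q ⧸ (N ⊓ H) := QuotientGroup.mk' (N ⊓ H) w.prod
  have hord : ∀ m : ℤ, w.prod ^ m ∈ N ⊓ H ↔ (orderOf y : ℤ) ∣ m := by
    intro m
    rw [orderOf_dvd_iff_zpow_eq_one, ← map_zpow]
    exact (QuotientGroup.eq_one_iff (N := N ⊓ H) (w.prod ^ m)).symm
  refine ⟨⟨w.length, orderOf y, h2, orderOf_pos y, H12.ofList w, H12.ofList_per w, fun t => hSH _ (hmem t), hN, hN0,
    fun x => Subgroup.mem_inf, ?_, ?_, ?_, ?_⟩, hmem, ?_, h3⟩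
  · rw [hw]; exact h4
  · intro m
    rw [hw]
    exact hord m
  · intro x
    obtain ⟨i, hi, hx⟩ := h5 x
    have hx' : (H12.pre (H12.ofList w) i)⁻¹ * x ∈ N := by
      rw [H12.pre_ofList w i hi]
      have := N.inv_mem hx
      rwa [mul_inv_rev, inv_inv] at this
    rcases hi.lt_or_eq with hlt | heq
    · exact ⟨i, hlt, hx'⟩
    · refine ⟨0, h2, ?_⟩
      rw [H12.pre_zero, inv_one, one_mul]
      rw [heq, hw] at hx'
      have := N.mul_mem h4 hx'
      rwa [mul_inv_cancel_left] at this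
  · intro x hx
    obtain ⟨m, hm⟩ := h6 x hx
    exact ⟨m, by rw [hw]; exact hm⟩
  · show orderOf y ∣ Nat.card N
    have h7 : orderOf y ∣ orderOf w.prod := orderOf_map_dvd _ _
    exact h7.trans (N.orderOf_dvd_natCard h4)

/-- Subgroups normalised by an involution which contain `a s` for all letters. -/
theorem gen_aux {G : Type*} [Group G] {eps : G →* ℤˣ} {M : Subgroup G} {a : G} (ha : a * a = 1)
    (hM : ∀ x ∈ M, a * x * a ∈ M) {T : Set G} (hT : ∀ s ∈ T, s * s = 1 ∧ eps s = -1 ∧ a * s ∈ M) :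
    ∀ x ∈ closure T, (eps x = 1 → x ∈ M) ∧ (eps x = -1 → a * x ∈ M) := by
  have hT' : ∀ s ∈ T, s⁻¹ ∈ T := fun s hs => by
    rw [inv_eq_of_mul_eq_one_right (hT s hs).1]
    exact hs
  intro x hx
  induction hx using closure_induction_right with
  | one => exact ⟨fun _ => M.one_mem, fun h => absurd h (by rw [map_one]; decide)⟩
  | mul_right x hx s hs ih =>
    obtain ⟨h1, h2, h3⟩ := hT s hs
    have key : ∀ y : G, y ∈ M → a * y * s ∈ M := fun y hy => by
      have e : a * y * s = (a * y * a) * (a * s) := by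
        rw [mul_assoc (a * y) a (a * s), ← mul_assoc a a s, ha, one_mul]
      rw [e]
      exact M.mul_mem (hM y hy) h3
    constructor
    · intro h
      rw [map_mul, h2] at h
      have h4 : eps x = -1 := by
        rcases Int.units_eq_one_or (eps x) with h5 | h5
        · rw [h5] at h; exact absurd h (by decide)
        · exact h5
      have h5 := key _ (ih.2 h4)
      rwa [← mul_assoc, ha, one_mul] at h5
    · intro h
      rw [map_mul, h2] at h
      have h4 : eps x = 1 := by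
        rcases Int.units_eq_one_or (eps x) with h5 | h5
        · exact h5
        · rw [h5] at h; exact absurd h (by decide)
      have h5 := key _ (ih.1 h4)
      rwa [mul_assoc] at h5
  | mul_inv_cancel x hx s hs ih =>
    have hs' := hT' s hs
    obtain ⟨h1, h2, h3⟩ := hT _ hs'
    have key : ∀ y : G, y ∈ M → a * y * s⁻¹ ∈ M := fun y hy => by
      have e : a * y * s⁻¹ = (a * y * a) * (a * s⁻¹) := by
        rw [mul_assoc (a * y) a (a * s⁻¹), ← mul_assoc a a s⁻¹, ha, one_mul]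
      rw [e]
      exact M.mul_mem (hM y hy) h3
    constructor
    · intro h
      rw [map_mul, h2] at h
      have h4 : eps x = -1 := by
        rcases Int.units_eq_one_or (eps x) with h5 | h5
        · rw [h5] at h; exact absurd h (by decide)
        · exact h5
      have h5 := key _ (ih.2 h4)
      rwa [← mul_assoc, ha, one_mul] at h5
    · intro h
      rw [map_mul, h2] at h
      have h4 : eps x = 1 := by
        rcases Int.units_eq_one_or (eps x) with h5 | h5
        · exact h5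
        · rw [h5] at h; exact absurd h (by decide)
      have h5 := key _ (ih.1 h4)
      rwa [mul_assoc] at h5

/-- The steps of the thread: `u g` (`u = a, b, a t a`, `g` a letter outside of `⟨a, t, b⟩`). -/
def Stp {G : Type*} [Group G] (eps : G →* ℤˣ) (A : Set G) (a t b : G) : Set eps.ker :=
  {s | ∃ g ∈ A, g ∉ closure ({a, t, b} : Set G) ∧ ((s : G) = a * g ∨ (s : G) = b * g ∨ (s : G) = a * t * a * g)}

/-- The steps generate `ker eps`. -/
theorem steps_gen {G : Type*} [Group G] {eps : G →* ℤˣ} {A : Set G} {a t b : G} (hinv : ∀ s ∈ A, s * s = 1)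
    (hneg : ∀ s ∈ A, eps s = -1) (hgen : closure A = ⊤) (ha : a ∈ A) (ht : t ∈ A) (hb : b ∈ A) {g₀ : G} (hg₀ : g₀ ∈ A)
    (hg₀' : g₀ ∉ closure ({a, t, b} : Set G)) : closure (Stp eps A a t b) = ⊤ := by
  have haa := hinv a ha
  have htt := hinv t ht
  have hbb := hinv b hb
  have hii : ∀ s ∈ A, s⁻¹ = s := fun s hs => inv_eq_of_mul_eq_one_right (hinv s hs)
  obtain ⟨M, hMdef⟩ : ∃ M : Subgroup G, M = (closure (Stp eps A a t b)).map eps.ker.subtype := ⟨_, rfl⟩
  have hmem : ∀ (g : G), g ∈ A → g ∉ closure ({a, t, b} : Set G) → a * g ∈ M ∧ b * g ∈ M ∧ a * t * a * g ∈ M := by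
    intro g hg hg'
    have hk : ∀ u : G, eps u = -1 → u * g ∈ eps.ker := fun u hu => by
      rw [MonoidHom.mem_ker, map_mul, hu, hneg g hg]; decide
    have h0 : ∀ u : G, (hu : eps u = -1) → (u = a ∨ u = b ∨ u = a * t * a) → u * g ∈ M := by
      intro u hu hu'
      rw [hMdef]
      refine ⟨⟨u * g, hk u hu⟩, subset_closure ⟨g, hg, hg', ?_⟩, rfl⟩
      rcases hu' with rfl | rfl | rfl
      · exact Or.inl rfl
      · exact Or.inr (Or.inl rfl)
      · exact Or.inr (Or.inr rfl)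
    refine ⟨h0 a (hneg a ha) (Or.inl rfl), h0 b (hneg b hb) (Or.inr (Or.inl rfl)), h0 _ ?_ (Or.inr (Or.inr rfl))⟩
    rw [map_mul, map_mul, hneg a ha, hneg t ht]; decide
  obtain ⟨m1, m2, m3⟩ := hmem g₀ hg₀ hg₀'
  have hg₀2 := hinv g₀ hg₀
  -- `a b` and `a t`
  have hab : a * b ∈ M := by
    have h := M.mul_mem m1 (M.inv_mem m2)
    rwa [mul_inv_rev, hii b hb, hii g₀ hg₀, mul_assoc, ← mul_assoc g₀ g₀ b, hg₀2, one_mul] at h
  have hat : a * t ∈ M := by
    have h := M.mul_mem m3 (M.inv_mem m1)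
    rw [mul_inv_rev, hii a ha, hii g₀ hg₀] at h
    have e : a * t * a * g₀ * (g₀ * a) = a * t := by
      rw [mul_assoc (a * t * a) g₀ (g₀ * a), ← mul_assoc g₀ g₀ a, hg₀2, one_mul, mul_assoc (a * t) a a, haa, mul_one]
    rwa [e] at h
  -- `M` is normalised by `a`
  have hnorm : ∀ x ∈ M, a * x * a ∈ M := by
    intro x hx
    rw [hMdef] at hx
    obtain ⟨y, hy, rfl⟩ := hx
    induction hy using closure_induction with
    | mem s hs =>
      obtain ⟨g, hg, hg', hs'⟩ := hs
      obtain ⟨n1, -, -⟩ := hmem g hg hg'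
      have hga : g * a ∈ M := by
        have := M.inv_mem n1
        rwa [mul_inv_rev, hii a ha, hii g hg] at this
      show a * (s : G) * a ∈ M
      rcases hs' with h | h | h
      · rw [h, ← mul_assoc, haa, one_mul]
        exact hga
      · rw [h, ← mul_assoc, mul_assoc (a * b)]
        exact M.mul_mem hab hga
      · have e : a * (a * t * a * g) * a = t * a * (g * a) := by
          simp only [← mul_assoc]
          rw [haa, one_mul]
        rw [h, e]
        refine M.mul_mem ?_ hga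
        have := M.inv_mem hat
        rwa [mul_inv_rev, hii a ha, hii t ht] at this
    | one =>
      show a * ((1 : eps.ker) : G) * a ∈ M
      rw [Subgroup.coe_one, mul_one, haa]
      exact M.one_mem
    | mul x y _ _ hx hy =>
      have e : a * ((x * y : eps.ker) : G) * a = (a * (x : G) * a) * (a * (y : G) * a) := by
        have h1 : a * (x : G) * a * (a * (y : G) * a) = a * (x : G) * (a * a) * (y : G) * a := by
          simp only [mul_assoc]
        rw [h1, haa, mul_one, Subgroup.coe_mul]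
        simp only [mul_assoc]
      show a * ((x * y : eps.ker) : G) * a ∈ M
      rw [e]
      exact M.mul_mem hx hy
    | inv x _ hx =>
      have e : a * ((x⁻¹ : eps.ker) : G) * a = (a * (x : G) * a)⁻¹ := by
        rw [mul_inv_rev, mul_inv_rev, hii a ha, Subgroup.coe_inv, mul_assoc]
      show a * ((x⁻¹ : eps.ker) : G) * a ∈ M
      rw [e]
      exact M.inv_mem hx
  -- the group `⟨a, t, b⟩`
  have h1 : ∀ x ∈ closure ({a, t, b} : Set G), (eps x = 1 → x ∈ M) ∧ (eps x = -1 → a * x ∈ M) := by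
    refine gen_aux haa hnorm ?_
    rintro s (rfl | rfl | rfl)
    · exact ⟨haa, hneg _ ha, by rw [haa]; exact M.one_mem⟩
    · exact ⟨htt, hneg _ ht, hat⟩
    · exact ⟨hbb, hneg _ hb, hab⟩
  have h2 : ∀ x ∈ closure A, (eps x = 1 → x ∈ M) ∧ (eps x = -1 → a * x ∈ M) := by
    refine gen_aux haa hnorm ?_
    intro s hs
    refine ⟨hinv s hs, hneg s hs, ?_⟩
    by_cases hsG : s ∈ closure ({a, t, b} : Set G)
    · exact (h1 s hsG).2 (hneg s hs)
    · exact (hmem s hs hsG).1
  rw [eq_top_iff]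
  rintro ⟨x, hx⟩ -
  have h3 := (h2 x (by rw [hgen]; exact mem_top x)).1 (MonoidHom.mem_ker.1 hx)
  rw [hMdef] at h3
  obtain ⟨y, hy, hxy⟩ := h3
  have : y = ⟨x, hx⟩ := Subtype.ext hxy
  rwa [this] at hy

/-- The trajectory of the thread in the case `SQD.Inv` (a letter lies outside of `⟨a, t, b⟩`). -/
theorem exists_per_inv {G : Type} [Group G] [Finite G] {N C : Subgroup G} {eps : G →* ℤˣ} {k P : ℕ} {A : Set G}
    {c₁ c₀ : ℕ} {a t b : G} (h : Inv N C eps k P A c₁ a t b) (hM : Marg N k c₀) (hc₀ : 1 ≤ c₀)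
    (hout : ∃ g ∈ A, g ∉ closure ({a, t, b} : Set G)) :
    ∃ W : H12.Per ((closure ({a, t, b} : Set G)).subgroupOf eps.ker) (N.subgroupOf eps.ker)
        (N.subgroupOf eps.ker ⊓ (closure ({a, t, b} : Set G)).subgroupOf eps.ker),
      (∀ i, W.s i ∈ Stp eps A a t b) ∧ W.q ∣ Nat.card N ∧
        W.n ≤ (k + (Nat.card G).primeFactorsList.length + 2) ^ 4 := by
  obtain ⟨g₀, hg₀, hg₀'⟩ := hout
  have hNle : N ≤ eps.ker := fun n hn => h.gn.eN n hn
  have hN : (N.subgroupOf eps.ker).Normal := by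
    have := h.gn.Nn
    infer_instance
  have hc : IsCyclic (N.subgroupOf eps.ker) := by
    have := h.gn.Nc
    exact isCyclic_of_surjective (Subgroup.subgroupOfEquivOfLe hNle).symm (MulEquiv.surjective _)
  have hcard : Nat.card (N.subgroupOf eps.ker) = Nat.card N := Nat.card_congr (Subgroup.subgroupOfEquivOfLe hNle).toEquiv
  set Om := (Nat.card G).primeFactorsList.length with hOm
  have hpc : (Nat.card N).primeFactors.card ≤ Om := by
    have h1 : (Nat.card N).primeFactors ⊆ (Nat.card G).primeFactors :=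
      Nat.primeFactors_mono (Subgroup.card_subgroup_dvd_card N) Nat.card_pos.ne'
    refine (Finset.card_le_card h1).trans ?_
    exact List.toFinset_card_le _
  have hk : 0 < k := by
    rw [← h.gn.idx]
    exact Nat.pos_of_ne_zero N.index_ne_zero_of_finite
  have hne : (Stp eps A a t b).Nonempty := by
    have hk2 : a * g₀ ∈ eps.ker := by
      rw [MonoidHom.mem_ker, map_mul, h.neg a h.aA, h.neg g₀ hg₀]
      decide
    exact ⟨⟨a * g₀, hk2⟩, g₀, hg₀, hg₀', Or.inl rfl⟩
  have hout : ∀ s ∈ Stp eps A a t b, s ∉ (closure ({a, t, b} : Set G)).subgroupOf eps.ker := by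
    rintro s ⟨g, hg, hg', hs⟩ hsH
    have hsH' : (s : G) ∈ closure ({a, t, b} : Set G) := Subgroup.mem_subgroupOf.1 hsH
    have ha0 : a ∈ closure ({a, t, b} : Set G) := subset_closure (by simp)
    have ht0 : t ∈ closure ({a, t, b} : Set G) := subset_closure (by simp)
    have hb0 : b ∈ closure ({a, t, b} : Set G) := subset_closure (by simp)
    rcases hs with h4 | h4 | h4
    · rw [h4] at hsH'
      exact hg' ((Subgroup.mul_mem_cancel_left _ ha0).1 hsH')
    · rw [h4] at hsH'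
      exact hg' ((Subgroup.mul_mem_cancel_left _ hb0).1 hsH')
    · rw [h4] at hsH'
      exact hg' ((Subgroup.mul_mem_cancel_left _ (Subgroup.mul_mem _ (Subgroup.mul_mem _ ha0 ht0) ha0)).1 hsH')
  obtain ⟨W, h1, h2, h3⟩ := exists_per ((closure ({a, t, b} : Set G)).subgroupOf eps.ker) (N.subgroupOf eps.ker) hN hc
    (Stp eps A a t b) hne (steps_gen h.inv h.neg h.gen h.aA h.tA h.bA hg₀ hg₀') hout Om (by rw [hcard]; exact hpc) (by
      intro p hp
      rw [hcard] at hp
      refine lt_of_le_of_lt ?_ (hM p hp)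
      calc Om ≤ k + Om + 2 := by omega
        _ ≤ (k + Om + 2) ^ c₀ := Nat.le_self_pow (by omega) _)
  refine ⟨W, h1, by rwa [hcard] at h2, h3.trans ?_⟩
  have hidx : (N.subgroupOf eps.ker).index ≤ k := by
    have h4 : N.relIndex eps.ker * eps.ker.index = N.index := Subgroup.relIndex_mul_index hNle
    rw [h.gn.idx] at h4
    have h5 : eps.ker.index ≠ 0 := Subgroup.index_ne_zero_of_finite
    calc (N.subgroupOf eps.ker).index = N.relIndex eps.ker := rfl
      _ ≤ N.relIndex eps.ker * eps.ker.index := Nat.le_mul_of_pos_right _ (Nat.pos_of_ne_zero h5)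
      _ = k := h4
  set i := (N.subgroupOf eps.ker).index
  have e1 : (i + 1) * i + 1 + Om * (Om * (2 * i + 1)) ≤ (k + 1) * k + 1 + Om * (Om * (2 * k + 1)) := by
    gcongr
  refine e1.trans ?_
  obtain ⟨X, hX⟩ : ∃ X, X = k + Om + 2 := ⟨_, rfl⟩
  rw [← hX]
  have e2 : (k + 1) * k + 1 ≤ X ^ 3 := by
    have : k + 2 ≤ X := by omega
    calc (k + 1) * k + 1 ≤ (k + 2) ^ 3 := by nlinarith [sq_nonneg k, pow_pos hk 3]
      _ ≤ X ^ 3 := Nat.pow_le_pow_left this 3
  have e3 : Om * (Om * (2 * k + 1)) ≤ 2 * X ^ 3 := by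
    have h5 : Om ≤ X := by omega
    have h6 : 2 * k + 1 ≤ 2 * X := by omega
    calc Om * (Om * (2 * k + 1)) ≤ X * (X * (2 * X)) := Nat.mul_le_mul h5 (Nat.mul_le_mul h5 h6)
      _ = 2 * X ^ 3 := by ring
  have e4 : 3 ≤ X := by omega
  calc (k + 1) * k + 1 + Om * (Om * (2 * k + 1)) ≤ X ^ 3 + 2 * X ^ 3 := Nat.add_le_add e2 e3
    _ = 3 * X ^ 3 := by ring
    _ ≤ X * X ^ 3 := Nat.mul_le_mul_right _ e4
    _ = X ^ 4 := by ring

/-- PLACES: the representatives of the cosets of `H`. The position of the visit `t` in its coset is the class of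
`r⁻¹ w t` under `ct : H → T`; `Bd t` = the bad positions for the visit `t`. -/
theorem places {Q : Type*} [Group Q] {H N N0 : Subgroup Q} (W : H12.Per H N N0) {T : Type*} [AddCommGroup T]
    [Finite T] (ct : H →* Multiplicative T) (hct : Function.Surjective ct) (Bd : ℕ → Finset T) (B : ℕ)
    (hB : ∀ i, (Bd i).card ≤ B) (hT : (3 * W.n + 1) * B < Nat.card T) :
    ∃ r : Q → Q, (∀ x, (r x)⁻¹ * x ∈ H) ∧ (∀ x y, x⁻¹ * y ∈ H → r x = r y) ∧
      ∀ i ≤ 3 * (W.q * W.n), ∀ h : (r (W.w i))⁻¹ * W.w i ∈ H, Multiplicative.toAdd (ct ⟨_, h⟩) ∉ Bd i := by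
  classical
  have hfT : Fintype T := Fintype.ofFinite T
  have key : ∀ X : Q ⧸ H, ∃ r : Q, (r : Q ⧸ H) = X ∧
      ∀ i ≤ 3 * (W.q * W.n), ∀ h : r⁻¹ * W.w i ∈ H, Multiplicative.toAdd (ct ⟨_, h⟩) ∉ Bd i := by
    intro X
    obtain ⟨r₀, rfl⟩ := QuotientGroup.mk_surjective X
    obtain ⟨V, hV⟩ : ∃ V : Finset ℕ, V = insert (3 * (W.q * W.n))
      ((Finset.range (3 * (W.q * W.n))).filter fun i => (W.w i)⁻¹ * r₀ ∈ H) := ⟨_, rfl⟩
    have hVc : V.card ≤ 3 * W.n + 1 := by
      rw [hV]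
      exact (Finset.card_insert_le _ _).trans (Nat.add_le_add_right (W.few r₀) 1)
    let f : ℕ → T := fun i => if h : r₀⁻¹ * W.w i ∈ H then Multiplicative.toAdd (ct ⟨_, h⟩) else 0
    let bad : Finset T := V.biUnion fun i => (Bd i).image fun y => f i - y
    have hbad : bad.card < Fintype.card T := by
      calc bad.card ≤ ∑ i ∈ V, ((Bd i).image fun y => f i - y).card := Finset.card_biUnion_le
        _ ≤ ∑ _i ∈ V, B := Finset.sum_le_sum fun i _ => Finset.card_image_le.trans (hB i)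
        _ = V.card * B := by rw [Finset.sum_const, smul_eq_mul]
        _ ≤ (3 * W.n + 1) * B := Nat.mul_le_mul_right _ hVc
        _ < Nat.card T := hT
        _ = Fintype.card T := Nat.card_eq_fintype_card
    obtain ⟨τ, hτ⟩ : ∃ τ, τ ∉ bad := by
      by_contra hcon
      push Not at hcon
      have : bad = Finset.univ := Finset.eq_univ_iff_forall.2 hcon
      rw [this, Finset.card_univ] at hbad
      exact lt_irrefl _ hbad
    obtain ⟨g, hg⟩ := hct (Multiplicative.ofAdd τ)
    refine ⟨r₀ * g, (QuotientGroup.mk_mul_of_mem r₀ g.2), ?_⟩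
    intro i hi h hmem
    have h1 : r₀⁻¹ * W.w i ∈ H := by
      have := H.mul_mem g.2 h
      have e : (g : Q) * ((r₀ * (g : Q))⁻¹ * W.w i) = r₀⁻¹ * W.w i := by group
      rwa [e] at this
    have h2 : (W.w i)⁻¹ * r₀ ∈ H := by
      have := H.inv_mem h1
      rwa [mul_inv_rev, inv_inv] at this
    have h3 : i ∈ V := by
      rw [hV, Finset.mem_insert, Finset.mem_filter, Finset.mem_range]
      rcases hi.lt_or_eq with h5 | h5
      · exact Or.inr ⟨h5, h2⟩
      · exact Or.inl h5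
    have h4 : (⟨(r₀ * (g : Q))⁻¹ * W.w i, h⟩ : H) = g⁻¹ * ⟨r₀⁻¹ * W.w i, h1⟩ := by
      apply Subtype.ext
      show (r₀ * (g : Q))⁻¹ * W.w i = ((g : Q))⁻¹ * (r₀⁻¹ * W.w i)
      group
    apply hτ
    refine Finset.mem_biUnion.2 ⟨i, h3, Finset.mem_image.2 ⟨_, hmem, ?_⟩⟩
    show f i - _ = τ
    have h5 : f i = Multiplicative.toAdd (ct ⟨_, h1⟩) := dif_pos h1
    rw [h5, h4, map_mul, map_inv, hg]
    show Multiplicative.toAdd (ct ⟨_, h1⟩) - (-τ + Multiplicative.toAdd (ct ⟨_, h1⟩)) = τ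
    abel
  choose R hR1 hR2 using key
  refine ⟨fun x => R (x : Q ⧸ H), fun x => ?_, fun x y hxy => ?_, fun i hi => hR2 _ i hi⟩
  · exact QuotientGroup.eq.1 (hR1 x)
  · show R (x : Q ⧸ H) = R (y : Q ⧸ H)
    rw [QuotientGroup.eq.2 hxy]

/-- PLACES with vertical moves: both values `F i`, `F i + 1` of the exponent of `z ∈ H` are good. -/
theorem places_two {Q : Type*} [Group Q] {H N N0 : Subgroup Q} (W : H12.Per H N N0) {T : Type*} [AddCommGroup T]
    [Finite T] (ct : H →* Multiplicative T) (hct : Function.Surjective ct) (Bd : Finset T)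
    (hT : 2 * (3 * W.n + 1) * Bd.card < Nat.card T) (z : Q) (hz : z ∈ H) (F : ℕ → ℤ) :
    ∃ r : Q → Q, (∀ x, (r x)⁻¹ * x ∈ H) ∧ (∀ x y, x⁻¹ * y ∈ H → r x = r y) ∧
      ∀ i ≤ 3 * (W.q * W.n), ∀ S : ℤ, (S = F i ∨ S = F i + 1) →
        ∀ h : (r (W.w i))⁻¹ * (W.w i * z ^ S) ∈ H, Multiplicative.toAdd (ct ⟨_, h⟩) ∉ Bd := by
  classical
  let ζ : H := ⟨z, hz⟩
  let c : T := Multiplicative.toAdd (ct ζ)
  obtain ⟨r, h1, h2, h3⟩ := places W ct hct
    (fun i => (Bd.image fun y => y - F i • c) ∪ (Bd.image fun y => y - (F i + 1) • c)) (2 * Bd.card)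
    (fun i => by
      refine (Finset.card_union_le _ _).trans ?_
      rw [two_mul]
      exact Nat.add_le_add Finset.card_image_le Finset.card_image_le)
    (by
      have : (3 * W.n + 1) * (2 * Bd.card) = 2 * (3 * W.n + 1) * Bd.card := by ring
      rw [this]
      exact hT)
  refine ⟨r, h1, h2, ?_⟩
  intro i hi S hS h hmem
  have h4 : (r (W.w i))⁻¹ * W.w i ∈ H := h1 _
  have h5 : (⟨(r (W.w i))⁻¹ * (W.w i * z ^ S), h⟩ : H) = ⟨(r (W.w i))⁻¹ * W.w i, h4⟩ * ζ ^ S := by
    apply Subtype.ext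
    show (r (W.w i))⁻¹ * (W.w i * z ^ S) = (r (W.w i))⁻¹ * W.w i * ((ζ ^ S : H) : Q)
    rw [Subgroup.coe_zpow, mul_assoc]
  have h6 : Multiplicative.toAdd (ct ⟨_, h⟩) = Multiplicative.toAdd (ct ⟨_, h4⟩) + S • c := by
    rw [h5, map_mul, map_zpow]
    rfl
  apply h3 i hi h4
  rw [h6] at hmem
  rw [Finset.mem_union, Finset.mem_image, Finset.mem_image]
  rcases hS with rfl | rfl
  · exact Or.inl ⟨_, hmem, by abel⟩
  · exact Or.inr ⟨_, hmem, by abel⟩

end Pool.Agent.Lib.MP_688fd0_co.SQ5.H49
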