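import Pool.Agent.Lib.MP_688fd0_co.SQ5.H76.Pull
import Pool.Agent.Lib.MP_688fd0_co.SQ5.H76.Block

/-!
THREADS, the zone of an aligned strip (helper49): all but few elements of `T` lie in the aligned strip between the walls `kk` and
`kk + 1`, at a distance of at least `2 μ` columns from the walls and of at least `U` levels from the events.
-/

set_option autoImplicit false

namespace Pool.Agent.Lib.MP_688fd0_co.SQ5.H49

open Pool.Agent.Lib.MP_688fd0_co.SQ5.H76 Pool.Agent.Lib.MP_688fd0_co.SQ5.H66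

variable {T : Type*} [AddCommGroup T]

/-- The events of a period. -/
theorem e_mul {l0 c0 G X : ℤ} (w : Word l0 c0 G X) (n m : ℤ) : w.e (n + m * w.Et) = w.e n + m * l0 := by
  have key : ∀ (m : ℕ) (n : ℤ), w.e (n + m * w.Et) = w.e n + m * l0 := by
    intro m
    induction m with
    | zero => intro n; simp
    | succ m ih =>
      intro n
      have e1 : n + ((m + 1 : ℕ) : ℤ) * w.Et = n + m * w.Et + w.Et := by push_cast; ring
      rw [e1, w.eEt, ih]
      push_cast
      ring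
  obtain ⟨k, rfl | rfl⟩ := m.eq_nat_or_neg
  · exact key k n
  · have h := key k (n + -(k : ℤ) * w.Et)
    have e1 : n + -(k : ℤ) * w.Et + (k : ℤ) * w.Et = n := by ring
    rw [e1] at h
    linarith

/-- The levels of one period which are close to an event. -/
theorem card_levels {l0 c0 G X : ℤ} (w : Word l0 c0 G X) (v U : ℤ) (hU : 1 ≤ U)
    [DecidablePred fun s => ∃ n, |s - (v + w.e n)| < U] :
    (((Finset.Ico 0 l0).filter fun s => ∃ n, |s - (v + w.e n)| < U).card : ℤ) ≤ w.Et * (2 * U - 1) := by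
  classical
  have hE := w.Et8
  let F : Finset ℤ := ((Finset.Ico 0 w.Et) ×ˢ (Finset.Icc (-(U - 1)) (U - 1))).image fun a => (v + w.e a.1 + a.2) % l0
  have hsub : ((Finset.Ico 0 l0).filter fun s => ∃ n, |s - (v + w.e n)| < U) ⊆ F := by
    intro s hs
    rw [Finset.mem_filter, Finset.mem_Ico] at hs
    obtain ⟨⟨h1, h2⟩, n, h3⟩ := hs
    rw [abs_lt] at h3
    refine Finset.mem_image.2 ⟨(n % w.Et, s - (v + w.e n)), ?_, ?_⟩
    · rw [Finset.mem_product, Finset.mem_Ico, Finset.mem_Icc]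
      refine ⟨⟨Int.emod_nonneg _ (by omega), Int.emod_lt_of_pos _ (by omega)⟩, ?_, ?_⟩
      · show -(U - 1) ≤ s - (v + w.e n); omega
      · show s - (v + w.e n) ≤ U - 1; omega
    · show (v + w.e (n % w.Et) + (s - (v + w.e n))) % l0 = s
      have e1 : n % w.Et + (n / w.Et) * w.Et = n := by
        have := Int.emod_add_mul_ediv n w.Et
        rw [mul_comm]; exact this
      have e2 := e_mul w (n % w.Et) (n / w.Et)
      rw [e1] at e2
      have e3 : v + w.e (n % w.Et) + (s - (v + w.e n)) = s - (n / w.Et) * l0 := by linarith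
      rw [e3, Int.sub_mul_emod_self_right]
      exact Int.emod_eq_of_lt h1 h2
  have h4 := (Finset.card_le_card hsub).trans Finset.card_image_le
  rw [Finset.card_product, Int.card_Ico, Int.card_Icc] at h4
  have h5 : ((w.Et - 0).toNat : ℤ) = w.Et := by rw [Int.toNat_of_nonneg (by omega)]; ring
  have h6 : ((U - 1 + 1 - -(U - 1)).toNat : ℤ) = 2 * U - 1 := by rw [Int.toNat_of_nonneg (by omega)]; ring
  calc (((Finset.Ico 0 l0).filter fun s => ∃ n, |s - (v + w.e n)| < U).card : ℤ) ≤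
      (((w.Et - 0).toNat * (U - 1 + 1 - -(U - 1)).toNat : ℕ) : ℤ) := by exact_mod_cast h4
    _ = w.Et * (2 * U - 1) := by rw [Nat.cast_mul, h5, h6]

variable {R : ℕ} {dc : ℕ → ℤ} {spc : ℕ → Prop} {G : ℤ}

theorem mul_le_neg_of {p l : ℤ} (hl : 0 < l) (h : p < 0) : p * l ≤ -l := by
  have h1 : p ≤ -1 := by omega
  have := mul_le_mul_of_nonneg_right h1 hl.le
  linarith

theorem le_mul_of {p l : ℤ} (hl : 0 < l) (h : 0 < p) : l ≤ p * l := by
  have h1 : 1 ≤ p := by omega
  have := mul_le_mul_of_nonneg_right h1 hl.le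
  linarith

/-- A point of the strip: `(i, j)` at least `2 μ` columns inside the strip, at least `U` levels from the events. -/
def InZone {L : AddSubgroup (ℤ × ℤ)} {M : ℕ} (g : Geo L M R dc spc G) (kk : ℕ) (μ U i j : ℤ) : Prop :=
  g.C kk (i + j) + 2 * μ ≤ i - j ∧ i - j + 2 * μ ≤ g.C (kk + 1) (i + j) ∧ ∀ n, U ≤ |i + j - (g.Lv kk + g.w.e n)|

/-- Most elements of `T` lie in the zone. -/
theorem zone [Finite T] {al be : T} (g : Geo (Ltc al be) (Nat.card T) R dc spc G) {kk : ℕ} (hkk : kk + 1 < R)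
    (hsp : ¬ spc kk) (μ U : ℤ) (hμ : 1 ≤ μ) (hU : 1 ≤ U) (hD : 4 * μ ≤ dc kk) :
    ∃ Bad : Finset T, (∀ τ, τ ∉ Bad → ∃ i j : ℤ, i • al + j • be = τ ∧ InZone g kk μ U i j) ∧
      (Bad.card : ℤ) ≤ Nat.card T - (g.i0 + g.j0 - g.w.Et * (2 * U - 1)) * (dc kk / 2 - 2 * μ + 1) := by
  classical
  have hfT : Fintype T := Fintype.ofFinite T
  have hl := g.l0_pos
  obtain ⟨nd1, nd2⟩ := g.nat_div (k := kk) (by omega)
  have hgap : ∀ s, g.C ((kk : ℤ) + 1) s = g.C kk s + dc kk := by
    intro s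
    have := g.gap_al (K := (kk : ℤ)) (by rw [nd2]; exact hkk) (by rw [nd2]; exact hsp) s
    rwa [nd2] at this
  have hev : dc kk % 2 = 0 := by
    rcases g.kind kk hkk with h | h
    · exact h.2.2.2
    · exact absurd h.1 hsp
  obtain ⟨Sg, hSg⟩ : ∃ Sg : Finset ℤ, Sg = (Finset.Ico 0 (g.i0 + g.j0)).filter fun s =>
    ¬ ∃ n, |s - (g.Lv kk + g.w.e n)| < U := ⟨_, rfl⟩
  have hSgc : (g.i0 + g.j0) - g.w.Et * (2 * U - 1) ≤ (Sg.card : ℤ) := by
    have h1 := Finset.card_filter_add_card_filter_not (s := Finset.Ico 0 (g.i0 + g.j0))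
      (fun s => ∃ n, |s - (g.Lv kk + g.w.e n)| < U)
    rw [Int.card_Ico, ← hSg] at h1
    have h2 := card_levels g.w (g.Lv kk) U hU
    have h3 : ((g.i0 + g.j0 - 0).toNat : ℤ) = g.i0 + g.j0 := by rw [Int.toNat_of_nonneg (by omega)]; ring
    have h4 : ((((Finset.Ico 0 (g.i0 + g.j0)).filter fun s => ∃ n, |s - (g.Lv kk + g.w.e n)| < U).card : ℤ)) +
        Sg.card = g.i0 + g.j0 := by
      have h4 := congrArg (Nat.cast (R := ℤ)) h1
      rw [h3, Nat.cast_add] at h4
      exact h4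
    linarith
  obtain ⟨Wd, hWd⟩ : ∃ Wd : ℕ, (Wd : ℤ) = dc kk / 2 - 2 * μ + 1 := ⟨(dc kk / 2 - 2 * μ + 1).toNat, by
    rw [Int.toNat_of_nonneg (by omega)]⟩
  let f : ℤ × ℕ → ℤ × ℤ := fun a => (g.J kk a.1 + μ + a.2, a.1 - (g.J kk a.1 + μ + a.2))
  let φ : ℤ × ℕ → T := fun a => (f a).1 • al + (f a).2 • be
  have hcol : ∀ a : ℤ × ℕ, a ∈ Sg ×ˢ Finset.range Wd →
      g.C kk ((f a).1 + (f a).2) + 2 * μ ≤ (f a).1 - (f a).2 ∧ (f a).1 - (f a).2 + 2 * μ ≤ g.C (kk + 1) ((f a).1 + (f a).2) := by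
    intro a ha
    rw [Finset.mem_product, Finset.mem_range] at ha
    have e1 : (f a).1 + (f a).2 = a.1 := by show g.J kk a.1 + μ + a.2 + (a.1 - (g.J kk a.1 + μ + a.2)) = a.1; ring
    have e2 : (f a).1 - (f a).2 = g.C kk a.1 + 2 * μ + 2 * a.2 := by
      have := g.two_J kk a.1
      show g.J kk a.1 + μ + a.2 - (a.1 - (g.J kk a.1 + μ + a.2)) = _
      linarith
    rw [e1, e2, hgap]
    have h5 : (a.2 : ℤ) + 1 ≤ Wd := by exact_mod_cast ha.2
    constructor
    · have : (0 : ℤ) ≤ a.2 := Int.natCast_nonneg _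
      linarith
    · have h6 : (a.2 : ℤ) ≤ dc kk / 2 - 2 * μ := by linarith
      omega
  have hinj : Set.InjOn φ (Sg ×ˢ Finset.range Wd : Finset (ℤ × ℕ)) := by
    intro a ha b hb hab
    have ha' := hcol a (Finset.mem_coe.1 ha)
    have hb' := hcol b (Finset.mem_coe.1 hb)
    have hL : ((f a).1 - (f b).1, (f a).2 - (f b).2) ∈ Ltc al be := by
      rw [mem_Ltc, sub_smul, sub_smul]
      have h1 : (f a).1 • al + (f a).2 • be = (f b).1 • al + (f b).2 • be := hab
      have h2 : (f a).1 • al - (f b).1 • al + ((f a).2 • be - (f b).2 • be) =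
        ((f a).1 • al + (f a).2 • be) - ((f b).1 • al + (f b).2 • be) := by abel
      rw [h2, h1, sub_self]
    obtain ⟨p, q, hp, hq⟩ := g.ker _ _ hL
    have hI := ((g.inv0.mul p).add (g.inv1.mul q)).C
    have hC : ∀ K s, g.C (K + q * R) (s + (p * g.i0 + q * g.i1 + (p * g.j0 + q * g.j1))) =
        g.C K s + (p * g.i0 + q * g.i1 - (p * g.j0 + q * g.j1)) := by
      intro K s
      have := hI K s
      rw [mul_zero, zero_add] at this
      exact this
    have c1 := hC kk ((f b).1 + (f b).2)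
    have c2 := hC (kk + 1) ((f b).1 + (f b).2)
    have e3 : (f b).1 + (f b).2 + (p * g.i0 + q * g.i1 + (p * g.j0 + q * g.j1)) = (f a).1 + (f a).2 := by linarith
    rw [e3] at c1 c2
    have hR := g.R_pos
    have mono : ∀ K K' : ℤ, K ≤ K' → ∀ s, g.C K s ≤ g.C K' s := by
      intro K K' h s
      rcases h.lt_or_eq with h | rfl
      · have := g.pat.toPat.C_lt h s
        have e : g.pat.toPat.C = g.C := rfl
        rw [e] at this
        linarith
      · exact le_rfl
    have hq0 : q = 0 := by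
      rcases lt_trichotomy q 0 with h | h | h
      · exfalso
        have h7 : (kk : ℤ) + 1 + q * R ≤ kk := by
          have h6 := mul_le_neg_of hR h
          omega
        have h8 := mono _ _ h7 ((f a).1 + (f a).2)
        linarith [ha'.1, hb'.2]
      · exact h
      · exfalso
        have h7 : (kk : ℤ) + 1 ≤ kk + q * R := by
          have h6 := le_mul_of hR h
          omega
        have h8 := mono _ _ h7 ((f a).1 + (f a).2)
        linarith [ha'.2, hb'.1]
    rw [hq0] at hp hq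
    have ha1 := Finset.mem_product.1 (Finset.mem_coe.1 ha)
    have hb1 := Finset.mem_product.1 (Finset.mem_coe.1 hb)
    rw [hSg, Finset.mem_filter, Finset.mem_Ico] at ha1 hb1
    have e1 : (f a).1 + (f a).2 = a.1 := by show g.J kk a.1 + μ + a.2 + (a.1 - (g.J kk a.1 + μ + a.2)) = a.1; ring
    have e2 : (f b).1 + (f b).2 = b.1 := by show g.J kk b.1 + μ + b.2 + (b.1 - (g.J kk b.1 + μ + b.2)) = b.1; ring
    have e4 : a.1 - b.1 = p * (g.i0 + g.j0) := by rw [← e1, ← e2]; linarith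
    have hp0 : p = 0 := by
      rcases lt_trichotomy p 0 with h | h | h
      · exfalso
        have := mul_le_neg_of hl h
        have h8 := ha1.1.1.1
        have h9 := hb1.1.1.2
        linarith
      · exact h
      · exfalso
        have := le_mul_of hl h
        have h8 := ha1.1.1.2
        have h9 := hb1.1.1.1
        linarith
    rw [hp0] at hp e4
    have e5 : a.1 = b.1 := by linarith
    have e6 : (f a).1 = (f b).1 := by linarith
    have e7 : g.J kk a.1 + μ + a.2 = g.J kk b.1 + μ + b.2 := e6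
    rw [e5] at e7
    have e8 : (a.2 : ℤ) = b.2 := by linarith
    exact Prod.ext e5 (by exact_mod_cast e8)
  obtain ⟨Gd, hGd⟩ : ∃ Gd : Finset T, Gd = (Sg ×ˢ Finset.range Wd).image φ := ⟨_, rfl⟩
  have hGc : Gd.card = Sg.card * Wd := by
    rw [hGd, Finset.card_image_of_injOn hinj, Finset.card_product, Finset.card_range]
  refine ⟨Gdᶜ, ?_, ?_⟩
  · intro τ hτ
    rw [Finset.mem_compl, not_not, hGd, Finset.mem_image] at hτ
    obtain ⟨a, ha, rfl⟩ := hτ
    refine ⟨(f a).1, (f a).2, rfl, (hcol a ha).1, (hcol a ha).2, ?_⟩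
    intro n
    have e1 : (f a).1 + (f a).2 = a.1 := by show g.J kk a.1 + μ + a.2 + (a.1 - (g.J kk a.1 + μ + a.2)) = a.1; ring
    rw [e1]
    have h1 := (Finset.mem_product.1 ha).1
    rw [hSg, Finset.mem_filter] at h1
    by_contra hcon
    exact h1.2 ⟨n, not_le.1 hcon⟩
  · have h1 := Finset.card_add_card_compl Gd
    rw [hGc] at h1
    have h2 : ((Gdᶜ.card : ℕ) : ℤ) = Nat.card T - Sg.card * Wd := by
      rw [Nat.card_eq_fintype_card, ← h1]
      push_cast
      ring
    rw [h2, hWd]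
    have h3 : (0 : ℤ) ≤ dc kk / 2 - 2 * μ + 1 := by omega
    have := mul_le_mul_of_nonneg_right hSgc h3
    linarith

end Pool.Agent.Lib.MP_688fd0_co.SQ5.H49
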