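import Pool.Agent.Lib.MP_688fd0_co.SQ5.H59.Peel

/-!
THEOREM X. All letters are involutions, `eps = -1` on the letters, `pi : G →* Q` is a homomorphism to a commutative group
whose squares are trivial, the kernel `Y` of `pi` is abelian, inside the kernel of `eps`, and all its subgroups are normal in
`G`. Then the letters have a listing sequence; more precisely, for every `e` with `eps e = -1` there is a Hamiltonian path from
`1` to the class of `e` modulo `Y`.
-/

set_option autoImplicit false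

namespace Pool.Agent.Lib.MP_688fd0_co.SQ5.H49

open Pool.Agent.Lib.MP_688fd0_co.OSF Pool.Agent.Lib.MP_688fd0_co.NC Pool.Agent.Lib.MP_688fd0_co.SQ5

universe u v

section pt

variable {G : Type u} [Group G] {A : Set G}

theorem pt_end {D : Set G} {a b : G} (h : Pt A D a b) : b ∈ D := by
  induction h with
  | one a => exact Set.mem_singleton _
  | cons _ _ _ ih => exact Set.mem_insert_of_mem _ ih

theorem pt_left {D : Set G} {a b : G} (h : Pt A D a b) (x : G) : Pt A {y | x⁻¹ * y ∈ D} (x * a) (x * b) := by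
  induction h with
  | one a =>
    refine (Pt.one (x * a)).congr ?_
    ext y
    constructor
    · intro h
      have h' : y = x * a := h
      subst h'
      show x⁻¹ * (x * a) ∈ ({a} : Set G)
      rw [inv_mul_cancel_left]
      exact Set.mem_singleton _
    · intro h
      have h' : x⁻¹ * y = a := h
      show y = x * a
      rw [← h', mul_inv_cancel_left]
  | @cons a b c D hab haD _ ih =>
    refine (Pt.cons (a := x * a) ?_ ?_ ih).congr ?_
    · have : (x * a)⁻¹ * (x * b) = a⁻¹ * b := by group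
      rw [this]; exact hab
    · intro h
      have h' : x⁻¹ * (x * a) ∈ D := h
      rw [inv_mul_cancel_left] at h'
      exact haD h'
    · ext y
      constructor
      · rintro (h | h)
        · left
          have h' : y = x * a := h
          show x⁻¹ * y = a
          rw [h', inv_mul_cancel_left]
        · exact Or.inr h
      · rintro (h | h)
        · left
          have h' : x⁻¹ * y = a := h
          show y = x * a
          rw [← h', mul_inv_cancel_left]
        · exact Or.inr h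

end pt

/-- The hypotheses. -/
structure Hyp {G : Type u} [Group G] {Q : Type v} [CommGroup Q] (A : Set G) (pi : G →* Q) (eps : G →* ℤˣ) : Prop where
  sq : ∀ g, pi g * pi g = 1
  comm : ∀ x y, pi x = 1 → pi y = 1 → x * y = y * x
  nor : ∀ y, pi y = 1 → ∀ g, g * y * g⁻¹ ∈ Subgroup.zpowers y
  e1 : ∀ y, pi y = 1 → eps y = 1
  inv : ∀ a ∈ A, a * a = 1
  neg : ∀ a ∈ A, eps a = -1

variable {G : Type u} [Group G] {Q : Type v} [CommGroup Q] {A : Set G} {pi : G →* Q} {eps : G →* ℤˣ}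

/-- Hamiltonian paths of `H` to every class outside of the kernel of `eps`. -/
def SL (A : Set G) (pi : G →* Q) (eps : G →* ℤˣ) (H : Subgroup G) : Prop :=
  ∀ e ∈ H, eps e = -1 → ∃ x, Pt A (H : Set G) 1 x ∧ pi x = pi e

theorem Hyp.nor' (hh : Hyp A pi eps) {K : Subgroup G} {y : G} (hy : y ∈ K) (hpy : pi y = 1) (g : G) :
    g * y * g⁻¹ ∈ K := by
  obtain ⟨k, hk⟩ := hh.nor y hpy g
  have hk' : y ^ k = g * y * g⁻¹ := hk
  rw [← hk']
  exact K.zpow_mem hy k

theorem Hyp.inv' (hh : Hyp A pi eps) {b : G} (hb : b ∈ A) : b⁻¹ = b := by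
  rw [inv_eq_iff_mul_eq_one]; exact hh.inv b hb

/-- One more coset. -/
theorem half (hh : Hyp A pi eps) {H : Subgroup G} (hSL : SL A pi eps H) {P : Set G} {x z b u : G} (hP : Pt A P 1 x)
    (hx : z⁻¹ * x ∈ H) (hpx : pi x = pi z) (hb : b ∈ A) (hu : u⁻¹ * (z * b) ∈ H) (he : eps (u⁻¹ * (z * b)) = 1)
    (hd : Disjoint P {y | u⁻¹ * y ∈ H}) {f : G} (hf : f ∈ H) (hef : eps f = -1) :
    ∃ x', Pt A (P ∪ {y | u⁻¹ * y ∈ H}) 1 x' ∧ (u * f)⁻¹ * x' ∈ H ∧ pi x' = pi (u * f) := by
  have hpd : pi (z⁻¹ * x) = 1 := by rw [map_mul, map_inv, hpx, inv_mul_cancel]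
  have hbd : b⁻¹ * (z⁻¹ * x) * b ∈ H := by
    have := hh.nor' hx hpd b⁻¹
    rwa [inv_inv] at this
  have h1 : u⁻¹ * (x * b) = (u⁻¹ * (z * b)) * (b⁻¹ * (z⁻¹ * x) * b) := by group
  have hH : u⁻¹ * (x * b) ∈ H := by rw [h1]; exact H.mul_mem hu hbd
  have hH1 : eps (u⁻¹ * (x * b)) = 1 := by
    rw [h1, map_mul, he, one_mul, map_mul, map_mul, hh.e1 _ hpd, mul_one, ← map_mul, inv_mul_cancel, map_one]
  obtain ⟨e', he', hpe'⟩ := hSL ((u⁻¹ * (x * b))⁻¹ * f) (H.mul_mem (H.inv_mem hH) hf)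
    (by rw [map_mul, map_inv, hH1, hef, inv_one, one_mul])
  have h2 := pt_left he' (x * b)
  rw [mul_one] at h2
  have hset : {y | (x * b)⁻¹ * y ∈ (H : Set G)} = {y | u⁻¹ * y ∈ H} := by
    ext y
    constructor
    · intro h
      have h' : (x * b)⁻¹ * y ∈ H := h
      show u⁻¹ * y ∈ H
      have h3 := H.mul_mem hH h'
      have h4 : u⁻¹ * (x * b) * ((x * b)⁻¹ * y) = u⁻¹ * y := by group
      rwa [h4] at h3
    · intro h
      have h' : u⁻¹ * y ∈ H := h
      show (x * b)⁻¹ * y ∈ H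
      have h3 := H.mul_mem (H.inv_mem hH) h'
      have h4 : (u⁻¹ * (x * b))⁻¹ * (u⁻¹ * y) = (x * b)⁻¹ * y := by group
      rwa [h4] at h3
  refine ⟨x * b * e', hP.append (h2.congr hset) hd (by rw [inv_mul_cancel_left]; exact hb), ?_, ?_⟩
  · have h3 : (u * f)⁻¹ * (x * b * e') = f⁻¹ * (u⁻¹ * (x * b)) * e' := by group
    rw [h3]
    exact H.mul_mem (H.mul_mem (H.inv_mem hf) hH) (pt_end he')
  · rw [map_mul, hpe', ← map_mul]
    congr 1
    group

/-- A walk through cosets. -/
theorem walk (hh : Hyp A pi eps) {H : Subgroup G} (hSL : SL A pi eps H) {b : G} (hb : b ∈ A) (u w : ℕ → G) (n : ℕ)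
    (h0 : u 0 = 1) (hu : ∀ k ≤ n, eps (u k) = 1)
    (hw : ∀ k < n, w k ∈ H ∧ eps (w k) = -1 ∧ (u (k + 1))⁻¹ * (u k * w k * b) ∈ H)
    (hd : ∀ i ≤ n, ∀ j ≤ n, i ≠ j → (u i)⁻¹ * u j ∉ H) :
    ∀ m ≤ n, ∀ f ∈ H, eps f = -1 →
      ∃ x, Pt A {y | ∃ i ≤ m, (u i)⁻¹ * y ∈ H} 1 x ∧ (u m * f)⁻¹ * x ∈ H ∧ pi x = pi (u m * f) := by
  intro m
  induction m with
  | zero =>
    intro _ f hf hef
    obtain ⟨x, hx, hpx⟩ := hSL f hf hef
    refine ⟨x, hx.congr ?_, ?_, ?_⟩
    · ext y
      constructor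
      · intro h
        exact ⟨0, le_rfl, by rw [h0, inv_one, one_mul]; exact h⟩
      · rintro ⟨i, hi, h⟩
        obtain rfl : i = 0 := by omega
        rw [h0, inv_one, one_mul] at h
        exact h
    · rw [h0, one_mul]; exact H.mul_mem (H.inv_mem hf) (pt_end hx)
    · rw [h0, one_mul]; exact hpx
  | succ m ih =>
    intro hm f hf hef
    obtain ⟨hw1, hw2, hw3⟩ := hw m (by omega)
    obtain ⟨x, hx, hxH, hpx⟩ := ih (by omega) (w m) hw1 hw2
    obtain ⟨x', h1, h2, h3⟩ := half hh hSL hx hxH hpx hb hw3 (by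
      rw [map_mul, map_inv, hu (m + 1) hm, map_mul, map_mul, hu m (by omega), hw2, hh.neg b hb]; decide) (by
      rw [Set.disjoint_left]
      rintro y ⟨i, hi, h1⟩ h2
      have h2' : (u (m + 1))⁻¹ * y ∈ H := h2
      have h3 := H.mul_mem h1 (H.inv_mem h2')
      have h4 : (u i)⁻¹ * y * ((u (m + 1))⁻¹ * y)⁻¹ = (u i)⁻¹ * u (m + 1) := by group
      rw [h4] at h3
      exact hd i (by omega) (m + 1) hm (by omega) h3) hf hef
    refine ⟨x', h1.congr ?_, h2, h3⟩
    ext y
    constructor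
    · rintro (⟨i, hi, h⟩ | h)
      · exact ⟨i, by omega, h⟩
      · exact ⟨m + 1, le_rfl, h⟩
    · rintro ⟨i, hi, h⟩
      rcases Nat.lt_or_ge i (m + 1) with h2 | h2
      · exact Or.inl ⟨i, by omega, h⟩
      · obtain rfl : i = m + 1 := by omega
        exact Or.inr h

/-- Case 1. -/
theorem case1 [Finite G] (hh : Hyp A pi eps) {T : Set G} {H L : Subgroup G} (hH : H = Subgroup.closure T)
    {b : G} (hL : L = Subgroup.closure (insert b T)) (hSL : SL A pi eps H) (hb : b ∈ A) {e₁ : G} (he₁ : e₁ ∈ H)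
    (hpe : pi b = pi e₁) : ∀ h ∈ H, eps h = 1 → ∃ x, Pt A (L : Set G) 1 x ∧ pi x = pi (b * h) := by
  classical
  intro h hhH heh
  have hpg : pi (e₁ * b) = 1 := by rw [map_mul, hpe]; exact hh.sq e₁
  have hee₁ : eps e₁ = -1 := by
    have h1 := hh.e1 _ hpg
    rw [map_mul, hh.neg b hb] at h1
    rcases Int.units_eq_one_or (eps e₁) with h2 | h2
    · rw [h2] at h1; exact absurd h1 (by decide)
    · exact h2
  set g := e₁ * b with hg
  have hHL : H ≤ L := by rw [hH, hL]; exact Subgroup.closure_mono (Set.subset_insert _ _)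
  have hbL : b ∈ L := by rw [hL]; exact Subgroup.subset_closure (Set.mem_insert _ _)
  have hgL : g ∈ L := L.mul_mem (hHL he₁) hbL
  have hex : ∃ d, 0 < d ∧ g ^ d ∈ H := ⟨orderOf g, orderOf_pos g, by rw [pow_orderOf_eq_one]; exact H.one_mem⟩
  set d := Nat.find hex with hd
  obtain ⟨hd0, hdH⟩ := Nat.find_spec hex
  rw [← hd] at hd0 hdH
  have hmin : ∀ i, 0 < i → i < d → g ^ i ∉ H := fun i h1 h2 h3 => Nat.find_min hex h2 ⟨h1, h3⟩
  have hdis : ∀ i ≤ d - 1, ∀ j ≤ d - 1, i ≠ j → (g ^ i)⁻¹ * g ^ j ∉ H := by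
    intro i hi j hj hij hmem
    rcases Nat.lt_or_gt_of_ne hij with h1 | h1
    · have h2 : (g ^ i)⁻¹ * g ^ j = g ^ (j - i) := by
        rw [inv_mul_eq_iff_eq_mul, ← pow_add]; congr 1; omega
      rw [h2] at hmem
      exact hmin _ (by omega) (by omega) hmem
    · have h2 : ((g ^ i)⁻¹ * g ^ j)⁻¹ = g ^ (i - j) := by
        rw [mul_inv_rev, inv_inv, inv_mul_eq_iff_eq_mul, ← pow_add]; congr 1; omega
      have h3 := H.inv_mem hmem
      rw [h2] at h3
      exact hmin _ (by omega) (by omega) h3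
  obtain ⟨x, hx, -, hpx⟩ := walk hh hSL hb (fun k => g ^ k) (fun _ => e₁) (d - 1) (pow_zero g)
    (fun k _ => by rw [map_pow, hh.e1 _ hpg, one_pow])
    (fun k _ => ⟨he₁, hee₁, by
      have h1 : (g ^ (k + 1))⁻¹ * (g ^ k * e₁ * b) = 1 := by rw [mul_assoc (g ^ k), ← hg, ← pow_succ, inv_mul_cancel]
      rw [h1]; exact H.one_mem⟩) hdis (d - 1) le_rfl (e₁ * h) (H.mul_mem he₁ hhH) (by rw [map_mul, hee₁, heh, mul_one])
  refine ⟨x, hx.congr ?_, ?_⟩
  · have hn : (Subgroup.zpowers g).Normal := ⟨fun y hy z => by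
      obtain ⟨k, rfl⟩ := hy
      exact hh.nor' (Subgroup.zpow_mem _ (Subgroup.mem_zpowers g) k) (by
        show pi (g ^ k) = 1
        rw [map_zpow, hpg, one_zpow]) z⟩
    have hle : L ≤ Subgroup.zpowers g ⊔ H := by
      rw [hL, Subgroup.closure_le]
      rintro y (hyb | hy)
      · have h1 : y = e₁⁻¹ * g := by rw [hg, inv_mul_cancel_left]; exact hyb
        rw [h1]
        exact Subgroup.mul_mem _ ((le_sup_right : H ≤ _) (H.inv_mem he₁)) ((le_sup_left : Subgroup.zpowers g ≤ _)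
          (Subgroup.mem_zpowers g))
      · exact (le_sup_right : H ≤ _) (by rw [hH]; exact Subgroup.subset_closure hy)
    ext y
    constructor
    · rintro ⟨i, -, hi⟩
      have h1 := L.mul_mem (L.pow_mem hgL i) (hHL hi)
      rw [mul_inv_cancel_left] at h1
      exact h1
    · intro hy
      have h1 : y ∈ ((Subgroup.zpowers g ⊔ H : Subgroup G) : Set G) := hle hy
      rw [Subgroup.normal_mul, Set.mem_mul] at h1
      obtain ⟨z, hz, k, hk, rfl⟩ := h1
      have hz' : z ∈ Subgroup.zpowers g := hz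
      rw [← mem_powers_iff_mem_zpowers, Submonoid.mem_powers_iff] at hz'
      obtain ⟨i, rfl⟩ := hz'
      refine ⟨i % d, by have := Nat.mod_lt i hd0; omega, ?_⟩
      have h2 : g ^ i = g ^ (i % d) * (g ^ d) ^ (i / d) := by
        rw [← pow_mul, ← pow_add, Nat.mod_add_div]
      rw [h2, mul_assoc, inv_mul_cancel_left]
      exact H.mul_mem (H.pow_mem hdH _) hk
  · rw [hpx, map_mul, map_pow, hpg, one_pow, one_mul, map_mul, map_mul, hpe]

/-- The correction of case 2. -/
def xw (e₀ b w : G) : G := e₀ * (b * w * b * w⁻¹) * e₀⁻¹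

theorem pi_xw (hh : Hyp A pi eps) (e₀ b w : G) : pi (xw e₀ b w) = 1 := by
  unfold xw
  simp only [map_mul, map_inv]
  have h1 : pi b * pi w * pi b * (pi w)⁻¹ = 1 := by
    rw [mul_right_comm (pi b) (pi w) (pi b), hh.sq b, one_mul, mul_inv_cancel]
  rw [h1, mul_one, mul_inv_cancel]

/-- Case 2. -/
theorem case2 [Finite G] (hh : Hyp A pi eps) {T : Set G} {H L : Subgroup G} (hH : H = Subgroup.closure T)
    {b : G} (hL : L = Subgroup.closure (insert b T)) (hTA : T ⊆ A) (hSL : SL A pi eps H) (hb : b ∈ A) {e₀ : G}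
    (he₀ : e₀ ∈ H) (hee₀ : eps e₀ = -1) (hpe : ∀ e ∈ H, pi b ≠ pi e) :
    ∀ h ∈ H, eps h = 1 → ∃ x, Pt A (L : Set G) 1 x ∧ pi x = pi (b * h) := by
  classical
  intro h hhH heh
  have hb2 := hh.inv b hb
  have hbi := hh.inv' hb
  have hHL : H ≤ L := by rw [hH, hL]; exact Subgroup.closure_mono (Set.subset_insert _ _)
  have hbL : b ∈ L := by rw [hL]; exact Subgroup.subset_closure (Set.mem_insert _ _)
  have hxL : ∀ w ∈ H, xw e₀ b w ∈ L := fun w hw =>
    L.mul_mem (L.mul_mem (hHL he₀) (L.mul_mem (L.mul_mem (L.mul_mem hbL (hHL hw)) hbL) (L.inv_mem (hHL hw))))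
      (L.inv_mem (hHL he₀))
  let YL : Subgroup G := L ⊓ pi.ker
  let D : Subgroup YL := (H ⊓ pi.ker).subgroupOf YL
  have hDn : D.Normal := ⟨fun y hy z => by
    have h1 : (y : G) ∈ H ⊓ pi.ker := Subgroup.mem_subgroupOf.1 hy
    have h2 : (z : G) * y * (z : G)⁻¹ ∈ H ⊓ pi.ker := hh.nor' h1 h1.2 z
    exact Subgroup.mem_subgroupOf.2 h2⟩
  have hcomm : ∀ x y : YL ⧸ D, x * y = y * x := by
    intro x y
    induction x using QuotientGroup.induction_on with
    | H x =>
      induction y using QuotientGroup.induction_on with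
      | H y =>
        rw [← QuotientGroup.mk_mul, ← QuotientGroup.mk_mul]
        congr 1
        exact Subtype.ext (hh.comm x y x.2.2 y.2.2)
  let _ : CommGroup (YL ⧸ D) := { (inferInstance : Group (YL ⧸ D)) with mul_comm := hcomm }
  have mk_eq : ∀ {x y : YL}, ((x : YL ⧸ D) = (y : YL ⧸ D)) ↔ (x : G)⁻¹ * (y : G) ∈ H := by
    intro x y
    rw [QuotientGroup.eq]
    constructor
    · intro h1
      exact (Subgroup.mem_subgroupOf.1 h1).1
    · intro h1
      refine Subgroup.mem_subgroupOf.2 ⟨h1, ?_⟩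
      exact pi.ker.mul_mem (pi.ker.inv_mem x.2.2) y.2.2
  let X : Set (YL ⧸ D) := {c | ∃ w ∈ H, eps w = -1 ∧ ∃ y : YL, (y : G) = xw e₀ b w ∧ c = (y : YL ⧸ D)}
  obtain ⟨E, v, S⟩ := H59.seq_abelian X
  -- representatives
  have hrep : ∀ k : ℕ, ∃ y : YL, ((y : YL ⧸ D) = v k) ∧ (k = 0 → y = 1) := by
    intro k
    rcases Nat.eq_zero_or_pos k with rfl | hk
    · exact ⟨1, by rw [S.zero]; rfl, fun _ => rfl⟩
    · obtain ⟨y, hy⟩ := QuotientGroup.mk_surjective (v k)
      exact ⟨y, hy, fun h1 => absurd h1 (by omega)⟩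
  choose y hy hy0 using hrep
  have hedge : ∀ k : ℕ, ∃ w : G, k < E → (w ∈ H ∧ eps w = -1 ∧ ((y (k + 1) : G))⁻¹ * ((y k : G) * xw e₀ b w) ∈ H) := by
    intro k
    by_cases hk : k < E
    · obtain ⟨w, hw, hew, z, hz, hz2⟩ := S.edge k hk
      refine ⟨w, fun _ => ⟨hw, hew, ?_⟩⟩
      rw [← hy k, ← hy (k + 1), inv_mul_eq_iff_eq_mul] at hz2
      have h1 : ((y (k + 1) : YL) : YL ⧸ D) = ((y k * z : YL) : YL ⧸ D) := hz2
      rw [mk_eq] at h1
      rw [← hz]
      exact h1
    · exact ⟨1, fun h1 => absurd h1 hk⟩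
  choose w hw using hedge
  -- the walk
  set u : ℕ → G := fun i => if i % 2 = 0 then (y (i / 2) : G) else (y (i / 2) : G) * e₀ * b with hu
  have hue : ∀ k, u (2 * k) = y k := fun k => by
    simp only [hu]
    rw [if_pos (by omega), show 2 * k / 2 = k by omega]
  have huo : ∀ k, u (2 * k + 1) = (y k : G) * e₀ * b := fun k => by
    simp only [hu]
    rw [if_neg (by omega), show (2 * k + 1) / 2 = k by omega]
  have hcase : ∀ i : ℕ, (∃ k, i = 2 * k) ∨ ∃ k, i = 2 * k + 1 := fun i => by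
    rcases Nat.even_or_odd' i with ⟨k, h1 | h1⟩
    · exact Or.inl ⟨k, h1⟩
    · exact Or.inr ⟨k, h1⟩
  have hey : ∀ k, eps (y k : G) = 1 := fun k => hh.e1 _ (y k).2.2
  have hpy : ∀ k, pi (y k : G) = 1 := fun k => (y k).2.2
  have hyy : ∀ i ≤ E, ∀ j ≤ E, ((y i : G))⁻¹ * (y j : G) ∈ H → i = j := by
    intro i hi j hj hij
    rw [← mk_eq, hy, hy] at hij
    exact S.inj i hi j hj hij
  obtain ⟨x, hx, -, hpx⟩ := walk hh hSL hb u (fun i => if i % 2 = 0 then e₀ else w (i / 2)) (2 * E + 1)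
    (by
      have h1 := hue 0
      rw [hy0 0 rfl] at h1
      exact h1)
    (by
      intro i _
      rcases hcase i with ⟨k, rfl⟩ | ⟨k, rfl⟩
      · rw [hue]; exact hey k
      · rw [huo, map_mul, map_mul, hey, hee₀, hh.neg b hb]; decide)
    (by
      intro i hi
      rcases hcase i with ⟨k, rfl⟩ | ⟨k, rfl⟩
      · have h1 : (2 * k) % 2 = 0 := by omega
        simp only [h1, if_true]
        refine ⟨he₀, hee₀, ?_⟩
        rw [huo, hue, inv_mul_cancel]
        exact H.one_mem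
      · have h1 : ¬ (2 * k + 1) % 2 = 0 := by omega
        simp only [h1, if_false]
        rw [show (2 * k + 1) / 2 = k by omega]
        obtain ⟨h2, h3, h4⟩ := hw k (by omega)
        refine ⟨h2, h3, ?_⟩
        rw [show 2 * k + 1 + 1 = 2 * (k + 1) by ring, huo, hue]
        have h5 := H.mul_mem h4 (H.mul_mem he₀ h2)
        have h6 : ((y (k + 1) : G))⁻¹ * ((y k : G) * xw e₀ b (w k)) * (e₀ * w k) =
            ((y (k + 1) : G))⁻¹ * ((y k : G) * e₀ * b * w k * b) := by
          unfold xw; group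
        rwa [h6] at h5)
    (by
      intro i hi j hj hij hmem
      have hodd : ∀ k l, (y k : G)⁻¹ * ((y l : G) * e₀ * b) ∉ H := by
        intro k l hm
        refine hpe (e₀⁻¹ * ((y k : G)⁻¹ * ((y l : G) * e₀ * b))) (H.mul_mem (H.inv_mem he₀) hm) ?_
        rw [map_mul, map_mul, map_mul, map_mul, map_inv, map_inv, hpy, hpy, inv_one, one_mul, one_mul,
          inv_mul_cancel_left]
      rcases hcase i with ⟨k, rfl⟩ | ⟨k, rfl⟩
      · rcases hcase j with ⟨l, rfl⟩ | ⟨l, rfl⟩
        · rw [hue, hue] at hmem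
          have := hyy k (by omega) l (by omega) hmem
          omega
        · rw [hue, huo] at hmem
          exact hodd k l hmem
      · rcases hcase j with ⟨l, rfl⟩ | ⟨l, rfl⟩
        · rw [hue, huo] at hmem
          have h1 := H.inv_mem hmem
          rw [mul_inv_rev, inv_inv] at h1
          exact hodd l k h1
        · rw [huo, huo] at hmem
          have h1 : ((y k : G) * e₀ * b)⁻¹ * ((y l : G) * e₀ * b) =
              (e₀ * b)⁻¹ * ((y k : G)⁻¹ * (y l : G)) * (e₀ * b) := by group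
          rw [h1] at hmem
          have h2 : pi ((e₀ * b)⁻¹ * ((y k : G)⁻¹ * (y l : G)) * (e₀ * b)) = 1 := by
            rw [map_mul, map_mul, map_mul, map_inv, map_inv, hpy, hpy, inv_one, one_mul, mul_one, inv_mul_cancel]
          have h3 := hh.nor' hmem h2 (e₀ * b)
          have h4 : e₀ * b * ((e₀ * b)⁻¹ * ((y k : G)⁻¹ * (y l : G)) * (e₀ * b)) * (e₀ * b)⁻¹ =
              (y k : G)⁻¹ * (y l : G) := by group
          rw [h4] at h3
          have := hyy k (by omega) l (by omega) h3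
          omega) (2 * E + 1) le_rfl (e₀⁻¹ * h) (H.mul_mem (H.inv_mem he₀) hhH)
        (by rw [map_mul, map_inv, hee₀, heh, mul_one]; decide)
  refine ⟨x, hx.congr ?_, ?_⟩
  · -- covering
    let Y2 : Subgroup G := ((Subgroup.closure X).comap (QuotientGroup.mk' D)).map YL.subtype
    have hY2 : ∀ z ∈ Y2, ∃ k ≤ E, ((y k : G))⁻¹ * z ∈ H := by
      rintro _ ⟨z, hz, rfl⟩
      obtain ⟨k, hk, h1⟩ := S.sur _ (show (z : YL ⧸ D) ∈ Subgroup.closure X from hz)
      refine ⟨k, hk, ?_⟩
      rw [← hy k, mk_eq] at h1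
      exact h1
    have hY2k : ∀ z ∈ Y2, pi z = 1 := by
      rintro _ ⟨z, -, rfl⟩
      exact z.2.2
    have hY2n : ∀ z ∈ Y2, ∀ g, g * z * g⁻¹ ∈ Y2 := fun z hz g => hh.nor' hz (hY2k z hz) g
    have hxY : ∀ w ∈ H, eps w = -1 → xw e₀ b w ∈ Y2 := by
      intro w hw hew
      refine ⟨⟨xw e₀ b w, hxL w hw, pi_xw hh e₀ b w⟩, ?_, rfl⟩
      exact Subgroup.subset_closure ⟨w, hw, hew, ⟨xw e₀ b w, hxL w hw, pi_xw hh e₀ b w⟩, rfl, rfl⟩
    have hbw : ∀ w ∈ H, eps w = -1 → b * w * b * w⁻¹ ∈ Y2 := by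
      intro w hw hew
      have h1 := hY2n _ (hxY w hw hew) e₀⁻¹
      have h2 : e₀⁻¹ * xw e₀ b w * e₀⁻¹⁻¹ = b * w * b * w⁻¹ := by unfold xw; group
      rwa [h2] at h1
    have hstep : ∀ s ∈ insert b T, ∀ g, (∃ z ∈ Y2, ∃ k ∈ H, g = z * k ∨ g = z * b * k) →
        ∃ z ∈ Y2, ∃ k ∈ H, s * g = z * k ∨ s * g = z * b * k := by
      rintro s hs g ⟨z, hz, k, hk, h1⟩
      rcases hs with hs | hs
      · have hs' : s = b := hs
        rw [hs']
        refine ⟨b * z * b⁻¹, hY2n z hz b, k, hk, ?_⟩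
        rcases h1 with rfl | rfl
        · right; group
        · left
          have h2 : b * (z * b * k) = b * z * b⁻¹ * (b * b) * k := by group
          rw [h2, hb2, mul_one]
      · have hsH : s ∈ H := by rw [hH]; exact Subgroup.subset_closure hs
        have hes : eps s = -1 := hh.neg s (hTA hs)
        rcases h1 with rfl | rfl
        · refine ⟨s * z * s⁻¹, hY2n z hz s, s * k, H.mul_mem hsH hk, Or.inl ?_⟩
          group
        · refine ⟨s * z * s⁻¹ * (b * s * b * s⁻¹)⁻¹, Y2.mul_mem (hY2n z hz s) (Y2.inv_mem (hbw s hsH hes)),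
            s * k, H.mul_mem hsH hk, Or.inr ?_⟩
          have h2 : s * z * s⁻¹ * (b * s * b * s⁻¹)⁻¹ * b * (s * k) = s * z * b⁻¹ * k := by group
          rw [h2, hbi]
          group
    have hcov : ∀ g ∈ L, ∃ z ∈ Y2, ∃ k ∈ H, g = z * k ∨ g = z * b * k := by
      intro g hg
      rw [hL] at hg
      induction hg using Subgroup.closure_induction_left with
      | one => exact ⟨1, Y2.one_mem, 1, H.one_mem, Or.inl (by group)⟩
      | mul_left s hs g _ ih => exact hstep s hs g ih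
      | inv_mul_cancel s hs g _ ih =>
        have h1 : s ∈ A := by
          rcases hs with hs | hs
          · have hs' : s = b := hs
            rw [hs']; exact hb
          · exact hTA hs
        rw [hh.inv' h1]
        exact hstep s hs g ih
    ext g
    constructor
    · rintro ⟨i, -, hi⟩
      have huL : u i ∈ L := by
        rcases hcase i with ⟨k, rfl⟩ | ⟨k, rfl⟩
        · rw [hue]; exact (y k).2.1
        · rw [huo]; exact L.mul_mem (L.mul_mem (y k).2.1 (hHL he₀)) hbL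
      have h1 := L.mul_mem huL (hHL hi)
      rw [mul_inv_cancel_left] at h1
      exact h1
    · intro hg
      obtain ⟨z, hz, k, hk, h1 | h1⟩ := hcov g hg
      · obtain ⟨j, hj, h2⟩ := hY2 z hz
        refine ⟨2 * j, by omega, ?_⟩
        rw [hue, h1, ← mul_assoc]
        exact H.mul_mem h2 hk
      · have hz' : z * (b * e₀ * b * e₀⁻¹) ∈ Y2 := Y2.mul_mem hz (hbw e₀ he₀ hee₀)
        obtain ⟨j, hj, h2⟩ := hY2 _ hz'
        refine ⟨2 * j + 1, by omega, ?_⟩
        have h3 : pi ((y j : G)⁻¹ * (z * (b * e₀ * b * e₀⁻¹))) = 1 := by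
          rw [map_mul, map_inv, hpy, hY2k _ hz', inv_one, one_mul]
        have h4 := hh.nor' h2 h3 (e₀ * b)⁻¹
        rw [inv_inv] at h4
        have h5 := H.mul_mem h4 (H.mul_mem (H.inv_mem he₀) hk)
        have h6 : (e₀ * b)⁻¹ * ((y j : G)⁻¹ * (z * (b * e₀ * b * e₀⁻¹))) * (e₀ * b) * (e₀⁻¹ * k) =
            ((y j : G) * e₀ * b)⁻¹ * (z * b * (e₀ * (b * b) * e₀⁻¹) * k) := by group
        rw [h6, hb2, mul_one, mul_inv_cancel, mul_one] at h5
        rw [huo, h1]
        exact h5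
  · rw [hpx, huo, map_mul, map_mul, map_mul, hpy, one_mul, map_mul, map_inv, map_mul, mul_comm (pi e₀) (pi b),
      mul_assoc, mul_inv_cancel_left]

/-- Both cases. -/
theorem step [Finite G] (hh : Hyp A pi eps) {T : Set G} {H L : Subgroup G} (hH : H = Subgroup.closure T)
    {b : G} (hL : L = Subgroup.closure (insert b T)) (hTA : T ⊆ A) (hTn : T.Nonempty) (hSL : SL A pi eps H)
    (hb : b ∈ A) : ∀ h ∈ H, eps h = 1 → ∃ x, Pt A (L : Set G) 1 x ∧ pi x = pi (b * h) := by
  obtain ⟨t, ht⟩ := hTn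
  by_cases h1 : ∃ e ∈ H, pi b = pi e
  · obtain ⟨e, he, hpe⟩ := h1
    exact case1 hh hH hL hSL hb he hpe
  · exact case2 hh hH hL hTA hSL hb (by rw [hH]; exact Subgroup.subset_closure ht) (hh.neg t (hTA ht))
      (fun e he h2 => h1 ⟨e, he, h2⟩)

theorem Hyp.eps_eq (hh : Hyp A pi eps) {x y : G} (h : pi x = pi y) : eps x = eps y := by
  have h1 : eps (x⁻¹ * y) = 1 := hh.e1 _ (by rw [map_mul, map_inv, h, inv_mul_cancel])
  rw [map_mul, map_inv] at h1
  exact (inv_mul_eq_one.1 h1)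

theorem dich (hh : Hyp A pi eps) {T : Set G} (hTA : T ⊆ A) {b : G} (hb : b ∈ A) :
    ∀ e ∈ Subgroup.closure (insert b T), ∃ h ∈ Subgroup.closure T, pi e = pi h ∨ pi e = pi (b * h) := by
  have hstep : ∀ s ∈ insert b T, ∀ g, (∃ h ∈ Subgroup.closure T, pi g = pi h ∨ pi g = pi (b * h)) →
      ∃ h ∈ Subgroup.closure T, pi (s * g) = pi h ∨ pi (s * g) = pi (b * h) := by
    rintro s hs g ⟨h, hh1, h1⟩
    rcases hs with hs | hs
    · have hs' : s = b := hs
      rw [hs']
      refine ⟨h, hh1, ?_⟩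
      rcases h1 with h1 | h1
      · right; rw [map_mul, map_mul, h1]
      · left; rw [map_mul, h1, map_mul, ← mul_assoc, hh.sq, one_mul]
    · refine ⟨s * h, Subgroup.mul_mem _ (Subgroup.subset_closure hs) hh1, ?_⟩
      rcases h1 with h1 | h1
      · left; rw [map_mul, map_mul, h1]
      · right; rw [map_mul, h1, map_mul, map_mul, map_mul, mul_left_comm]
  intro e he
  induction he using Subgroup.closure_induction_left with
  | one => exact ⟨1, Subgroup.one_mem _, Or.inl rfl⟩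
  | mul_left s hs g _ ih => exact hstep s hs g ih
  | inv_mul_cancel s hs g _ ih =>
    have h1 : s ∈ A := by
      rcases hs with hs | hs
      · have hs' : s = b := hs
        rw [hs']; exact hb
      · exact hTA hs
    rw [hh.inv' h1]
    exact hstep s hs g ih

/-- The last letter. -/
theorem last (hh : Hyp A pi eps) : ∀ (n : ℕ) (S : Set G), S.Finite → S.ncard = n → S ⊆ A →
    ∀ e ∈ Subgroup.closure S, eps e = -1 →
      ∃ b ∈ S, ∃ h ∈ Subgroup.closure (S \ {b}), eps h = 1 ∧ pi e = pi (b * h) := by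
  intro n
  induction n with
  | zero =>
    intro S hf hn _ e he hee
    have h0 : S = ∅ := by rwa [Set.ncard_eq_zero hf] at hn
    rw [h0, Subgroup.closure_empty, Subgroup.mem_bot] at he
    rw [he, map_one] at hee
    exact absurd hee (by decide)
  | succ n ih =>
    intro S hf hn hSA e he hee
    have hne : S.Nonempty := by
      rw [Set.nonempty_iff_ne_empty]
      rintro rfl
      rw [Set.ncard_empty] at hn
      omega
    obtain ⟨b, hb⟩ := hne
    have hS : insert b (S \ {b}) = S := by rw [Set.insert_sdiff_singleton, Set.insert_eq_of_mem hb]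
    have hc : (S \ {b}).ncard = n := by
      have := Set.ncard_sdiff_singleton_of_mem hb
      omega
    rw [← hS] at he
    obtain ⟨h, hhm, h1 | h1⟩ := dich hh (Set.sdiff_subset.trans hSA) (hSA hb) e he
    · obtain ⟨b', hb', h', hh', heh', hp⟩ := ih (S \ {b}) (hf.subset Set.sdiff_subset) hc (Set.sdiff_subset.trans hSA) h hhm
        (by rw [← hh.eps_eq h1, hee])
      refine ⟨b', hb'.1, h', ?_, heh', h1.trans hp⟩
      exact Subgroup.closure_mono (Set.sdiff_subset_sdiff_left Set.sdiff_subset) hh'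
    · refine ⟨b, hb, h, hhm, ?_, h1⟩
      have h2 := hh.eps_eq h1
      rw [hee, map_mul, hh.neg b (hSA hb)] at h2
      rcases Int.units_eq_one_or (eps h) with h3 | h3
      · exact h3
      · rw [h3] at h2; exact absurd h2 (by decide)

theorem single (hh : Hyp A pi eps) {b : G} (hb : b ∈ A) : Pt A (Subgroup.closure ({b} : Set G) : Set G) 1 b := by
  have h1b : (1 : G) ≠ b := by
    rintro h
    have := hh.neg b hb
    rw [← h, map_one] at this
    exact absurd this (by decide)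
  refine (Pt.cons (a := (1 : G)) (b := b) (by rw [inv_one, one_mul]; exact hb) (fun h => h1b h) (Pt.one b)).congr ?_
  ext y
  constructor
  · rintro (h | h)
    · have h' : y = 1 := h
      rw [h']; exact Subgroup.one_mem _
    · have h' : y = b := h
      rw [h']; exact Subgroup.subset_closure (Set.mem_singleton _)
  · intro h
    have h' : y ∈ Subgroup.closure ({b} : Set G) := h
    rw [Subgroup.mem_closure_singleton] at h'
    obtain ⟨k, rfl⟩ := h'
    rcases Int.even_or_odd' k with ⟨j, rfl | rfl⟩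
    · left
      show b ^ (2 * j) = 1
      rw [zpow_mul, zpow_two, hh.inv b hb, one_zpow]
    · right
      show b ^ (2 * j + 1) = b
      rw [zpow_add, zpow_mul, zpow_two, hh.inv b hb, one_zpow, one_mul, zpow_one]

/-- Hamiltonian paths to every class. -/
theorem sl [Finite G] (hh : Hyp A pi eps) : ∀ (n : ℕ) (S : Set G), S.ncard = n → S ⊆ A →
    SL A pi eps (Subgroup.closure S) := by
  intro n
  induction n with
  | zero =>
    intro S hn _ e he hee
    have h0 : S = ∅ := by rwa [Set.ncard_eq_zero (Set.toFinite S)] at hn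
    rw [h0, Subgroup.closure_empty, Subgroup.mem_bot] at he
    rw [he, map_one] at hee
    exact absurd hee (by decide)
  | succ n ih =>
    intro S hn hSA e he hee
    obtain ⟨b, hb, h, hhm, heh, hp⟩ := last hh (n + 1) S (Set.toFinite S) hn hSA e he hee
    have hS : insert b (S \ {b}) = S := by rw [Set.insert_sdiff_singleton, Set.insert_eq_of_mem hb]
    have hc : (S \ {b}).ncard = n := by
      have := Set.ncard_sdiff_singleton_of_mem hb
      omega
    have hSL := ih (S \ {b}) hc (Set.sdiff_subset.trans hSA)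
    rcases Set.eq_empty_or_nonempty (S \ {b}) with h0 | h0
    · rw [h0, Subgroup.closure_empty, Subgroup.mem_bot] at hhm
      rw [h0] at hS
      have hS' : S = {b} := by rw [← hS]; exact insert_empty_eq b
      refine ⟨b, ?_, ?_⟩
      · rw [hS']; exact single hh (hSA hb)
      · rw [hp, hhm, mul_one]
    · obtain ⟨x, hx, hpx⟩ := step hh (T := S \ {b}) (H := Subgroup.closure (S \ {b})) (L := Subgroup.closure S) rfl
        (b := b) (by rw [hS]) (Set.sdiff_subset.trans hSA) h0 hSL (hSA hb) h hhm heh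
      exact ⟨x, hx, hpx.trans hp.symm⟩

/-- THEOREM X. -/
theorem lstX [Finite G] (hh : Hyp A pi eps) (hgen : Subgroup.closure A = ⊤) (hne : A.Nonempty) : Lst A := by
  obtain ⟨a, ha⟩ := hne
  obtain ⟨x, hx, -⟩ := sl hh A.ncard A rfl le_rfl a (Subgroup.subset_closure ha) (hh.neg a ha)
  rw [hgen] at hx
  exact Pt.lst ⟨a, ha⟩ hx

section app

variable {C : Subgroup G}

/-- Conjugation of elements of a cyclic normal subgroup is a power map. -/
theorem conj_exp [C.Normal] (hcyc : IsCyclic C) (g : G) : ∃ k : ℤ, ∀ c ∈ C, g * c * g⁻¹ = c ^ k := by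
  obtain ⟨z, hz⟩ := hcyc.exists_generator
  have h1 : g * (z : G) * g⁻¹ ∈ C := Subgroup.Normal.conj_mem ‹_› _ z.2 g
  obtain ⟨k, hk⟩ := hz ⟨_, h1⟩
  have hk' : (z : G) ^ k = g * (z : G) * g⁻¹ := congrArg Subtype.val hk
  refine ⟨k, fun c hc => ?_⟩
  obtain ⟨j, hj⟩ := hz ⟨c, hc⟩
  have hj' : (z : G) ^ j = c := congrArg Subtype.val hj
  rw [← hj', ← conj_zpow, ← hk', ← zpow_mul, ← zpow_mul, mul_comm]

theorem conj_comm [C.Normal] (hcyc : IsCyclic C) (g h : G) {c : G} (hc : c ∈ C) :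
    (g * h) * c * (g * h)⁻¹ = (h * g) * c * (h * g)⁻¹ := by
  obtain ⟨k, hk⟩ := conj_exp (C := C) hcyc g
  obtain ⟨l, hl⟩ := conj_exp (C := C) hcyc h
  have h1 : (g * h) * c * (g * h)⁻¹ = g * (h * c * h⁻¹) * g⁻¹ := by group
  have h2 : (h * g) * c * (h * g)⁻¹ = h * (g * c * g⁻¹) * h⁻¹ := by group
  rw [h1, h2, hl c hc, hk c hc, hk _ (C.zpow_mem hc l), hl _ (C.zpow_mem hc k), ← zpow_mul, ← zpow_mul, mul_comm]

/-- The centraliser of `C` in the kernel of `eps`. -/
def Yc (C : Subgroup G) (eps : G →* ℤˣ) : Subgroup G := Subgroup.centralizer (C : Set G) ⊓ eps.ker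

theorem mem_Yc {y : G} : y ∈ Yc C eps ↔ (∀ c ∈ C, c * y = y * c) ∧ eps y = 1 := by
  constructor
  · rintro ⟨h1, h2⟩
    exact ⟨fun c hc => Subgroup.mem_centralizer_iff.1 h1 c hc, h2⟩
  · rintro ⟨h1, h2⟩
    exact ⟨Subgroup.mem_centralizer_iff.2 fun c hc => h1 c hc, h2⟩

theorem Yc_normal [C.Normal] : (Yc C eps).Normal := ⟨fun y hy g => by
  rw [mem_Yc] at hy ⊢
  refine ⟨fun c hc => ?_, ?_⟩
  · have h1 : g⁻¹ * c * g⁻¹⁻¹ ∈ C := Subgroup.Normal.conj_mem ‹_› _ hc g⁻¹
    rw [inv_inv] at h1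
    have h2 := hy.1 _ h1
    have h3 : c * (g * y * g⁻¹) = g * (g⁻¹ * c * g * y) * g⁻¹ := by group
    have h4 : g * y * g⁻¹ * c = g * (y * (g⁻¹ * c * g)) * g⁻¹ := by group
    rw [h3, h4, h2]
  · rw [map_mul, map_mul, hy.2, mul_one, ← map_mul, mul_inv_cancel, map_one]⟩

theorem Yc_comm [C.Normal] (hcyc : IsCyclic C) (g h : G) : (g * h)⁻¹ * (h * g) ∈ Yc C eps := by
  rw [mem_Yc]
  refine ⟨fun c hc => ?_, ?_⟩
  · have h1 := conj_comm hcyc g h hc
    have h2 : c = (g * h)⁻¹ * ((g * h) * c * (g * h)⁻¹) * (g * h) := by group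
    have h3 : c * ((g * h)⁻¹ * (h * g)) = (g * h)⁻¹ * ((g * h) * c * (g * h)⁻¹) * (h * g) := by group
    rw [h3, h1]
    group
  · rw [map_mul, map_inv, map_mul, map_mul, mul_comm (eps h), inv_mul_cancel]

/-- A letter inverts the kernel of `eps` modulo `C`. -/
theorem inv_mod [C.Normal] (hinv : ∀ a ∈ A, a * a = 1) (hneg : ∀ a ∈ A, eps a = -1)
    (hab : ∀ x y, eps x = 1 → eps y = 1 → x * y * x⁻¹ * y⁻¹ ∈ C) :
    ∀ g ∈ Subgroup.closure A, (eps g = 1 → ∀ a ∈ A, a * g * a * g ∈ C) ∧ (eps g = -1 → g * g ∈ C) := by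
  have hnc : ∀ x ∈ C, ∀ g : G, g * x * g⁻¹ ∈ C := fun x hx g => Subgroup.Normal.conj_mem ‹_› _ hx g
  -- products modulo `C`
  have hsw : ∀ x y, eps x = 1 → eps y = 1 → y * x ∈ C → x * y ∈ C := by
    intro x y hx hy h
    have h1 := C.mul_mem (hab x y hx hy) h
    have h2 : x * y * x⁻¹ * y⁻¹ * (y * x) = x * y := by group
    rwa [h2] at h1
  have hstep : ∀ s ∈ A, ∀ g, ((eps g = 1 → ∀ a ∈ A, a * g * a * g ∈ C) ∧ (eps g = -1 → g * g ∈ C)) →
      ((eps (s * g) = 1 → ∀ a ∈ A, a * (s * g) * a * (s * g) ∈ C) ∧ (eps (s * g) = -1 → s * g * (s * g) ∈ C)) := by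
    intro s hs g ih
    constructor
    · intro h1 a ha
      have hg : eps g = -1 := by
        rw [map_mul, hneg s hs] at h1
        rcases Int.units_eq_one_or (eps g) with h2 | h2
        · rw [h2] at h1; exact absurd h1 (by decide)
        · exact h2
      have h2 := ih.2 hg
      have h3 := hab (a * s) (g * a) (by rw [map_mul, hneg a ha, hneg s hs]; decide)
        (by rw [map_mul, hneg a ha, hg]; decide)
      -- a s g a s g = [a s, g a] (g a) (a s) (s g)
      have h4 : a * (s * g) * a * (s * g) = (a * s * (g * a) * (a * s)⁻¹ * (g * a)⁻¹) * (g * (a * a) * (s * s) * g) := by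
        have h5 : (a * s * (g * a) * (a * s)⁻¹ * (g * a)⁻¹) * (g * (a * a) * (s * s) * g) =
            a * s * g * a * s⁻¹ * (s * s) * g := by group
        rw [h5]; group
      rw [h4, hinv a ha, hinv s hs, mul_one, mul_one]
      exact C.mul_mem h3 h2
    · intro h1
      have hg : eps g = 1 := by
        rw [map_mul, hneg s hs] at h1
        rcases Int.units_eq_one_or (eps g) with h2 | h2
        · exact h2
        · rw [h2] at h1; exact absurd h1 (by decide)
      have h2 := ih.1 hg s hs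
      have h3 : s * g * (s * g) = s * g * s * g := by group
      rw [h3]; exact h2
  intro g hg
  induction hg using Subgroup.closure_induction_left with
  | one => exact ⟨fun _ a ha => by
      rw [mul_one, mul_one, hinv a ha]; exact C.one_mem, fun _ => by rw [mul_one]; exact C.one_mem⟩
  | mul_left s hs g _ ih => exact hstep s hs g ih
  | inv_mul_cancel s hs g _ ih =>
    have h1 : s⁻¹ = s := by rw [inv_eq_iff_mul_eq_one]; exact hinv s hs
    rw [h1]
    exact hstep s hs g ih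

/-- THEOREM X: all letters are involutions, `C` is a cyclic normal subgroup whose order is prime to its index, and the kernel
of `eps` is commutative modulo `C`. -/
theorem classX [Finite G] (A : Set G) (eps : G →* ℤˣ) (C : Subgroup G) [C.Normal] (hcyc : IsCyclic C)
    (hco : (Nat.card C).Coprime C.index) (hne : A.Nonempty) (hinv : ∀ a ∈ A, a * a = 1) (hneg : ∀ a ∈ A, eps a = -1)
    (hgen : Subgroup.closure A = ⊤) (hab : ∀ x y, eps x = 1 → eps y = 1 → x * y * x⁻¹ * y⁻¹ ∈ C) : Lst A := by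
  classical
  have hYn : (Yc C eps).Normal := Yc_normal
  have hcomm : ∀ x y : G ⧸ Yc C eps, x * y = y * x := by
    intro x y
    induction x using QuotientGroup.induction_on with
    | H x =>
      induction y using QuotientGroup.induction_on with
      | H y =>
        rw [← QuotientGroup.mk_mul, ← QuotientGroup.mk_mul, QuotientGroup.eq]
        exact Yc_comm hcyc x y
  let _ : CommGroup (G ⧸ Yc C eps) := { (inferInstance : Group (G ⧸ Yc C eps)) with mul_comm := hcomm }
  have hker : ∀ y : G, QuotientGroup.mk' (Yc C eps) y = 1 ↔ y ∈ Yc C eps := fun y =>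
    QuotientGroup.eq_one_iff y
  -- an element of `C` whose `index`-th power is trivial
  have htriv : ∀ c ∈ C, c ^ C.index = 1 → c = 1 := by
    intro c hc h1
    have h2 : c ^ Nat.card C = 1 := by
      have h3 : (⟨c, hc⟩ : C) ^ Nat.card C = 1 := pow_card_eq_one'
      exact congrArg Subtype.val h3
    have h4 := orderOf_dvd_of_pow_eq_one h1
    have h5 := orderOf_dvd_of_pow_eq_one h2
    have h6 : orderOf c ∣ 1 := by
      rw [← hco]
      exact Nat.dvd_gcd h5 h4
    exact orderOf_eq_one_iff.1 (Nat.dvd_one.1 h6)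
  have hpi : ∀ y : G, y ^ C.index ∈ C := fun y => Subgroup.pow_index_mem C y
  have hYab : ∀ x ∈ Yc C eps, ∀ y ∈ Yc C eps, x * y = y * x := by
    intro x hx y hy
    rw [mem_Yc] at hx hy
    set c := x * y * x⁻¹ * y⁻¹ with hc
    have hcC : c ∈ C := hab x y hx.2 hy.2
    have h1 : y * x * y⁻¹ = c⁻¹ * x := by rw [hc]; group
    have hcx : Commute c⁻¹ x := (hx.1 _ (C.inv_mem hcC))
    have h2 : (y * x * y⁻¹) ^ C.index = (c⁻¹) ^ C.index * x ^ C.index := by rw [h1, hcx.mul_pow]
    have h3 : (y * x * y⁻¹) ^ C.index = x ^ C.index := by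
      rw [_root_.conj_pow, ← hy.1 _ (hpi x), mul_inv_cancel_right]
    rw [h3] at h2
    have h4 : (c⁻¹) ^ C.index = 1 := by
      have := mul_right_cancel ((one_mul _).trans h2)
      exact this.symm
    have h5 := htriv _ (C.inv_mem hcC) h4
    rw [inv_eq_one] at h5
    rw [hc, mul_inv_eq_one, mul_inv_eq_iff_eq_mul] at h5
    exact h5
  have hYinv := inv_mod (C := C) hinv hneg hab
  have hletter : ∀ a ∈ A, ∀ y ∈ Yc C eps, a * y * a⁻¹ ∈ Subgroup.zpowers y := by
    intro a ha y hy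
    have hy' := mem_Yc.1 hy
    -- the part in `C`
    obtain ⟨k, hk⟩ := conj_exp (C := C) hcyc a
    have h1 : a * y ^ C.index * a⁻¹ ∈ Subgroup.zpowers y := by
      rw [hk _ (hpi y)]
      exact Subgroup.zpow_mem _ (Subgroup.pow_mem _ (Subgroup.mem_zpowers y) _) _
    -- the part prime to `C`
    set z := y ^ Nat.card C with hz
    have hzY : z ∈ Yc C eps := Subgroup.pow_mem _ hy _
    have hz' := mem_Yc.1 hzY
    have hzm : z ^ C.index = 1 := by
      rw [hz, ← pow_mul, mul_comm, pow_mul]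
      have h3 : (⟨y ^ C.index, hpi y⟩ : C) ^ Nat.card C = 1 := pow_card_eq_one'
      exact congrArg Subtype.val h3
    have hai : a⁻¹ = a := by rw [inv_eq_iff_mul_eq_one]; exact hinv a ha
    have hc : a * z * a⁻¹ * z ∈ C := by
      rw [hai]
      exact (hYinv z (by rw [hgen]; trivial)).1 hz'.2 a ha
    have hcm : (a * z * a⁻¹ * z) ^ C.index = 1 := by
      have h4 : Commute (a * z * a⁻¹) z := hYab _ (hYn.conj_mem z hzY a) z hzY
      rw [h4.mul_pow, _root_.conj_pow, hzm, mul_one, mul_one, mul_inv_cancel]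
    have h5 : a * z * a⁻¹ = z⁻¹ := by
      have := htriv _ hc hcm
      exact eq_inv_of_mul_eq_one_left this
    have h6 : a * z * a⁻¹ ∈ Subgroup.zpowers y := by
      rw [h5]
      exact Subgroup.inv_mem _ (Subgroup.pow_mem _ (Subgroup.mem_zpowers y) _)
    -- Bezout
    have hbz := Nat.gcd_eq_gcd_ab (Nat.card C) C.index
    rw [show Nat.gcd (Nat.card C) C.index = 1 from hco] at hbz
    have h7 : y = z ^ (Nat.gcdA (Nat.card C) C.index) * (y ^ C.index) ^ (Nat.gcdB (Nat.card C) C.index) := by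
      rw [hz, ← zpow_natCast y (Nat.card C), ← zpow_natCast y C.index, ← zpow_mul, ← zpow_mul, ← zpow_add, ← hbz]
      simp
    have h8 : a * y * a⁻¹ = (a * z * a⁻¹) ^ (Nat.gcdA (Nat.card C) C.index) *
        (a * y ^ C.index * a⁻¹) ^ (Nat.gcdB (Nat.card C) C.index) := by
      conv_lhs => rw [h7]
      rw [conj_zpow, conj_zpow]
      group
    rw [h8]
    exact Subgroup.mul_mem _ (Subgroup.zpow_mem _ h6 _) (Subgroup.zpow_mem _ h1 _)
  refine lstX (pi := QuotientGroup.mk' (Yc C eps)) (eps := eps) ⟨?_, ?_, ?_, ?_, hinv, hneg⟩ hgen hne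
  · intro g
    have hg : g ∈ Subgroup.closure A := by rw [hgen]; trivial
    induction hg using Subgroup.closure_induction with
    | mem x hx => rw [← map_mul, hinv x hx, map_one]
    | one => rw [map_one, mul_one]
    | mul x y _ _ hx hy =>
      rw [map_mul, mul_mul_mul_comm, hx, hy, mul_one]
    | inv x _ hx =>
      rw [map_inv, ← mul_inv, hx, inv_one]
  · intro x y hx hy
    exact hYab x ((hker x).1 hx) y ((hker y).1 hy)
  · intro y hy g
    have hg : g ∈ Subgroup.closure A := by rw [hgen]; trivial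
    have hy' := (hker y).1 hy
    have hst : ∀ s ∈ A, ∀ g, g * y * g⁻¹ ∈ Subgroup.zpowers y → (s * g) * y * (s * g)⁻¹ ∈ Subgroup.zpowers y := by
      intro s hs g ih
      have h1 : (s * g) * y * (s * g)⁻¹ = s * (g * y * g⁻¹) * s⁻¹ := by group
      rw [h1]
      obtain ⟨k, hk⟩ := ih
      have hk' : y ^ k = g * y * g⁻¹ := hk
      rw [← hk', ← conj_zpow]
      exact Subgroup.zpow_mem _ (hletter s hs y hy') k
    induction hg using Subgroup.closure_induction_left with
    | one => rw [one_mul, inv_one, mul_one]; exact Subgroup.mem_zpowers y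
    | mul_left s hs g _ ih => exact hst s hs g ih
    | inv_mul_cancel s hs g _ ih =>
      have h1 : s⁻¹ = s := by rw [inv_eq_iff_mul_eq_one]; exact hinv s hs
      rw [h1]
      exact hst s hs g ih
  · intro y hy
    exact (mem_Yc.1 ((hker y).1 hy)).2

end app

end Pool.Agent.Lib.MP_688fd0_co.SQ5.H49
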