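import Pool.Agent.Lib.MP_688fd0_co.SQ5.H49.BaseW
import Pool.Agent.Lib.MP_688fd0_co.SQ5.H95.WinP
import Pool.Agent.Lib.MP_688fd0_co.SQ5.H95.DIdd
import Pool.Agent.Lib.MP_688fd0_co.SQ5.H87.P4
import Pool.Agent.Lib.MP_688fd0_co.SQ5.H66.NumF

/-!
FT, row BASEZ (helper49): the P3's of a window (`p3_win`: any base group, from helper87's loops and helper95's windows) and the base of
the threads without any row as hypothesis: `baseT_full`.
-/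

set_option autoImplicit false

namespace Pool.Agent.Lib.MP_688fd0_co.SQ5.H49.BaseZ

open Function Pool.Agent.Lib.MP_688fd0_co.OSF
open Pool.Agent.Lib.MP_688fd0_co.SQ5.H64 Pool.Agent.Lib.MP_688fd0_co.SQ5.H76 Pool.Agent.Lib.MP_688fd0_co.SQ5.H95
open Pool.Agent.Lib.MP_688fd0_co.SQ5.FT
open Pool.Agent.Lib.MP_688fd0_co.SQ3 Pool.Agent.Lib.MP_688fd0_co.SQ5.H58

universe u v

section wd

variable {G : Type u} [Group G] {a t b : G}

/-- The sea words of the half widths 2 and 3. -/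
theorem ne_of_t (ht : t * t = 1) (h : t * (a * b) ^ 2 * t ≠ ((a * b) ^ 2)⁻¹) {n : ℕ} (hn : n = 2 ∨ n = 3) :
    ((a * b) ^ (n - 1) * t) ^ 2 ≠ 1 := by
  intro h1
  apply h
  have key : ∀ u : G, (u * t) ^ 2 = 1 → t * u * t = u⁻¹ := by
    intro u hu
    rw [pow_two] at hu
    have h2 : u * (t * u * t) = 1 := by
      rw [← hu]
      group
    exact (inv_eq_of_mul_eq_one_right h2).symm
  rcases hn with rfl | rfl
  · have h2 := key _ h1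
    rw [show 2 - 1 = 1 from rfl, pow_one] at h2
    calc t * (a * b) ^ 2 * t = (t * (a * b) * t) * (t * (a * b) * t) := by
          rw [pow_two, show (t * (a * b) * t) * (t * (a * b) * t) = t * (a * b) * (t * t) * (a * b) * t by group, ht]
          group
      _ = ((a * b) ^ 2)⁻¹ := by rw [h2, pow_two, mul_inv_rev (a * b) (a * b)]
  · have h2 := key _ h1
    rw [show 3 - 1 = 2 from rfl] at h2
    exact h2

/-- `a t` does not commute with `(a b) ^ 2`. -/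
theorem nc_of_t (ha : a * a = 1) (hb : b * b = 1) (ht : t * t = 1) (h : t * (a * b) ^ 2 * t ≠ ((a * b) ^ 2)⁻¹) :
    ¬ Commute (a * t) ((a * b) ^ 2) := by
  intro hc
  apply h
  have ha' : a⁻¹ = a := inv_eq_of_mul_eq_one_right ha
  have hb' : b⁻¹ = b := inv_eq_of_mul_eq_one_right hb
  have hS : a * (a * b) ^ 2 * a = ((a * b) ^ 2)⁻¹ := by
    have e : a * (a * b) * a = (a * b)⁻¹ := by
      rw [mul_inv_rev, ha', hb', ← mul_assoc, ha, one_mul]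
    calc a * (a * b) ^ 2 * a = (a * (a * b) * a) * (a * (a * b) * a) := by
          rw [pow_two, show (a * (a * b) * a) * (a * (a * b) * a) = a * (a * b) * (a * a) * (a * b) * a by group, ha]
          group
      _ = ((a * b) ^ 2)⁻¹ := by rw [e, pow_two, mul_inv_rev (a * b) (a * b)]
  have h1 : a * (t * (a * b) ^ 2 * t) * a = (a * b) ^ 2 := by
    have h2 := hc.eq
    calc a * (t * (a * b) ^ 2 * t) * a = (a * t * (a * b) ^ 2) * (t * a) := by group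
      _ = ((a * b) ^ 2) * (a * (t * t) * a) := by rw [h2]; group
      _ = (a * b) ^ 2 := by rw [ht, mul_one, ha, mul_one]
  calc t * (a * b) ^ 2 * t = (a * a) * (t * (a * b) ^ 2 * t) * (a * a) := by rw [ha, one_mul, mul_one]
    _ = a * (a * (t * (a * b) ^ 2 * t) * a) * a := by group
    _ = a * (a * b) ^ 2 * a := by rw [h1]
    _ = ((a * b) ^ 2)⁻¹ := hS

end wd

section win

variable {Q : Type} [Group Q] [Finite Q] {N C : Subgroup Q} {eps : Q →* ℤˣ} {k P : ℕ} {x : Fin 3 → Q} (Hx : Inv3 eps x)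
  {B : Lb.{0, v} Q} {l : L3 → B.L} {t a b : Fin 3} (hta : t ≠ a) (htb : t ≠ b) (hab : a ≠ b) (ht : B.q (l .t) = x t)
  (ha : B.q (l .a) = x a) (hb : B.q (l .b) = x b)

/-- layers of a P3 -/
def mmT (k : ℕ) : ℕ := Nat.factorial (144 * k * (8 * k + 1)) * (48 * k)

theorem mmT_pos {k : ℕ} (hk : 0 < k) : 0 < mmT k := Nat.mul_pos (Nat.factorial_pos _) (by omega)

theorem mmT_le {k : ℕ} (hk : 4 ≤ k) : mmT k ≤ 2 ^ (k ^ 17) := by
  have h4 : 4 ^ 2 ≤ k ^ 2 := Nat.pow_le_pow_left hk 2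
  have h5 : 4 ^ 5 ≤ k ^ 5 := Nat.pow_le_pow_left hk 5
  have h1 : 144 * k * (8 * k + 1) ≤ k ^ 8 := by
    calc 144 * k * (8 * k + 1) ≤ 144 * k * (9 * k) := Nat.mul_le_mul_left _ (by omega)
      _ = 1296 * k ^ 2 := by ring
      _ ≤ (4 ^ 5 * 4) * k ^ 2 := Nat.mul_le_mul_right _ (by norm_num)
      _ ≤ (k ^ 5 * k) * k ^ 2 := Nat.mul_le_mul_right _ (Nat.mul_le_mul h5 hk)
      _ = k ^ 8 := by ring
  have h2 : 2 * (24 * k) ≤ k ^ 8 := by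
    refine le_trans ?_ h1
    calc 2 * (24 * k) = 48 * k * 1 := by ring
      _ ≤ 144 * k * (8 * k + 1) := Nat.mul_le_mul (Nat.mul_le_mul_right _ (by norm_num)) (by omega)
  have h3 := H66.fac_le (c := 72 * k * (8 * k + 1)) (n := 24 * k) (d := 8) hk
    (by rw [show 2 * (72 * k * (8 * k + 1)) = 144 * k * (8 * k + 1) by ring]; exact h1) h2
  unfold mmT
  rw [show 48 * k = 2 * (24 * k) by ring, show 144 * k * (8 * k + 1) = 2 * (72 * k * (8 * k + 1)) by ring]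
  exact h3

include Hx hta htb hab ht ha hb in
/-- THE P3's OF A WINDOW. -/
theorem p3_win (gn : GN N C eps k P) (hk : 0 < k) (hi : ∀ i, B.inv (l i) = l i) (hq : Injective (qq B l))
    (hii : ∀ x, B.inv (B.inv x) = x) {M R : ℕ} {dc : ℕ → ℤ} {spc : ℕ → Prop} {Gr : ℤ}
    {g : Geo (Ltc (ct eps (x a * x t)) (ct eps (x b * x t))) M R dc spc Gr} {m0 : ℕ} {hw : ℤ → ℕ} (H : Geo.Mn g m0 hw)
    {κ0 κ1 : ℤ} (h0 : 2 ≤ κ0) (h1 : κ1 ≤ m0) {p : ℕ} (hp : 2 ≤ p) (hN : ∀ z : Zr g, p ≤ g.rE z)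
    (hP : 3 * (8 * (k * Nat.card C)) ≤ p)
    {A : Set Q} (hA : ∀ i, B.q (l i) ∈ A) (hw2 : ∀ K, 2 ≤ hw K)
    (hne : ∀ K : ℤ, ((B.q (l .a) * B.q (l .b)) ^ (hw K - 1) * B.q (l .t)) ^ 2 ≠ 1)
    (n2 : ¬ Commute (B.q (l .a) * B.q (l .t)) ((B.q (l .a) * B.q (l .b)) ^ 2)) {c0 : ℤ} {w : ℕ} (w3 : 3 ≤ w)
    (hM : ∀ K, c0 < K → K < c0 + w → hw K = 2) (k0 : κ0 ≤ c0 + 1) (k1 : c0 + w + 2 ≤ κ1)
    [∀ z : Zr g, DecidableEq (SS (Hx.co hta htb hab ht ha hb).cov H κ0 κ1 z)] (z : Zr g)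
    (s y y' : VV (Hx.co hta htb hab ht ha hb).cov H κ0 κ1 (c0 + 2) (c0 + w + 1) z)
    (h2 : (LamV H (Hx.co hta htb hab ht ha hb).cov κ0 κ1 (c0 + 2) (c0 + w + 1) z).Adj s y)
    (h3 : (LamV H (Hx.co hta htb hab ht ha hb).cov κ0 κ1 (c0 + 2) (c0 + w + 1) z).Adj s y') (hy : y ≠ y') :
    StkT ((inst H (Hx.co hta htb hab ht ha hb).cov hi hq hii κ0 κ1 h0 h1 p hp hN).D0 A z) (mmT k)
      (p3 s.1 y.1 y'.1) := by
  have hC : 0 < Nat.card C := Nat.card_pos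
  have hk0 : 0 < k * Nat.card C := Nat.mul_pos hk hC
  have hkk : k ≤ k * Nat.card C := Nat.le_mul_of_pos_right _ hC
  have : N.Normal := gn.Nn
  obtain ⟨U, -, -, hU⟩ := pu_bd Hx hta htb hab ht ha hb gn hi (dvd_refl (k * Nat.card C))
  obtain ⟨hU1, hU2⟩ := hU H z
  have hA' : ∀ d : (ff (Hx.co hta htb hab ht ha hb).cov hi hq hii g).X, B.q d.1.2 ∈ A := ff_A _ _ _ _ hA
  have : Finite (SS (Hx.co hta htb hab ht ha hb).cov H κ0 κ1 z) :=
    instFiniteSd (Hx.co hta htb hab ht ha hb).cov (H.bd z) (g.rs z) κ0 κ1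
  have hrun : H20.RunD (H.bd z) (g.rs z) (g.rp z) c0 w :=
    ⟨bd_b H z, bd_cs H z, hw2 _, hw2 _, hM, w3⟩
  have hD0 := Rgs.D0_pair (inst H (Hx.co hta htb hab ht ha hb).cov hi hq hii κ0 κ1 h0 h1 p hp hN) (A := A) z
  have hid := Rgs.idd_D0 (inst H (Hx.co hta htb hab ht ha hb).cov hi hq hii κ0 κ1 h0 h1 p hp hN) hA' z
  have e1 : mmT k = Nat.factorial (3 * (8 * k * (3 * (8 * k + 1))) + 3 * (8 * k * (3 * (8 * k + 1)))) *
      (3 * (8 * k * 1) + 3 * (8 * k * 1)) := by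
    unfold mmT
    rw [show 3 * (8 * k * (3 * (8 * k + 1))) + 3 * (8 * k * (3 * (8 * k + 1))) = 144 * k * (8 * k + 1) by ring,
      show 3 * (8 * k * 1) + 3 * (8 * k * 1) = 48 * k by ring]
  rw [e1]
  refine hp3_of_loops hD0 hid (Λ := H20.Lam (Hx.co hta htb hab ht ha hb).cov (H.bd z) (g.rs z) κ0 κ1 (c0 + 2) (c0 + w + 1))
    ?_ h2 h3 fun h => hy (Subtype.ext h)
  intro s s' hs
  refine ⟨_, _, le_rfl, le_rfl, H87.P4.loops N gn.Nc (by rw [gn.idx]; exact gn.cop) (e := k) (by rw [gn.idx]) hk hi hrun k0 k1 n2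
    (closed_DI hD0 hid) (fun n => idd_DI n) ?_ hs⟩
  intro J y hW m hm i hclo hmin hi8
  exact WC_DI (wc_clow H (Hx.co hta htb hab ht ha hb).cov hi hq hii h0 h1 hp hN z hA hw2 hne hU1 (fun s => hU2 s)
    (by push_cast; exact dvd_mul_right _ _) (by omega) (by omega) hW hm hclo hmin hi8 (by omega))

end win

section fin

variable {Q : Type} [Group Q] [Fintype Q] {N C : Subgroup Q} {eps : Q →* ℤˣ} {k P : ℕ} {x : Fin 3 → Q} (Hx : Inv3 eps x)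
  {B : Lb.{0, v} Q} {l : L3 → B.L} {t a b : Fin 3} (hta : t ≠ a) (htb : t ≠ b) (hab : a ≠ b) (ht : B.q (l .t) = x t)
  (ha : B.q (l .a) = x a) (hb : B.q (l .b) = x b)

/-- THE BASE of the threads. -/
theorem baseT_full {cS : ℕ} {A : Set Q} (gn : GN N C eps k P) (hk0 : 0 < k)
    (hi : ∀ i, B.inv (l i) = l i) (hq : Injective (qq B l))
    (hii : ∀ x, B.inv (B.inv x) = x) (hA : ∀ i, B.q (l i) ∈ A) {e : ℕ} (he : k * Nat.card C ∣ e)
    (he3 : 3 * (k * Nat.card C) ≤ e)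
    (hne : B.q (l .t) * (B.q (l .a) * B.q (l .b)) ^ 2 * B.q (l .t) ≠ ((B.q (l .a) * B.q (l .b)) ^ 2)⁻¹)
    {M R : ℕ} {dc : ℕ → ℤ} {spc : ℕ → Prop} {Gr : ℤ}
    {g : Geo (Ltc (ct eps (x a * x t)) (ct eps (x b * x t))) M R dc spc Gr} {m0 : ℕ} {hw : ℤ → ℕ}
    (H : Geo.Mn g m0 hw) {r w : ℕ} (hwk : k + 2 ≤ w) (hw5 : 5 ≤ w) (hm0 : 2 * r + 2 * w + 1 ≤ m0)
    (T : Two hw r w) (hw2 : ∀ K, 2 ≤ hw K)
    (hwd : ∀ K, hw K = 2 ∨ hw K = 3 ∨ ((B.q (l .a) * B.q (l .b)) ^ (hw K - 1) * B.q (l .t)) ^ 2 ≠ 1)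
    {kq nh m TT : ℤ} {ks : ℕ} (hL : H24.Lay g kq nh m TT ks) (hkq : (k : ℤ) ∣ kq) (hkq1 : 1 ≤ kq) (hnh : 4 ≤ nh)
    (hc : H66.Chg g) (hG : 64 ≤ Gr) (hdl : ∀ k, k + 1 < R → spc k → g.dl k + 20 ≤ Gr)
    (hsea : ∀ K : ℤ, K % R = R - 1 → ∀ s, (g.P K s - g.P (K + 1) s) % 8 = 0 ∨ (g.P K s - g.P (K + 1) s) % 8 = 3)
    {K gap : ℕ} (hK : 2 * w * Nat.card (K0 eps) ≤ K)
    (hgap : (K + 2) * (((cS * K ^ 2 + 1) * mmT k) * (8 * e)) ≤ gap) (hlen : ∀ z : Zr g, gap + 8 * e ≤ g.rE z)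
    (h0 : (2 : ℤ) ≤ r + 1) (h1 : (r : ℤ) + 2 * w + 2 ≤ m0) (hp : 2 ≤ 8 * e) (hN : ∀ z : Zr g, 8 * e ≤ g.rE z)
    [∀ z : Zr g, DecidableEq (SS (Hx.co hta htb hab ht ha hb).cov H (r + 1) (r + 2 * w + 2) z)] :
    ∃ U : Q, (∀ y, eps y = 1 → y * U = U * y) ∧
      BaseT A cS (inst H (Hx.co hta htb hab ht ha hb).cov hi hq hii (r + 1) (r + 2 * w + 2) h0 h1 (8 * e) hp hN)
        (VV (Hx.co hta htb hab ht ha hb).cov H (r + 1) (r + 2 * w + 2) (r + 2) (r + 2 * w + 1))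
        (W2 H (Hx.co hta htb hab ht ha hb).cov (r + 1) (r + 2 * w + 2) (r + w + 1))
        (Lam2 H (Hx.co hta htb hab ht ha hb).cov (r + 1) (r + 2 * w + 2) (r + 2) (r + w + 1) (r + 2 * w + 1)) (fun _ => U)
        (fun _ => (cS * K ^ 2 + 1) * mmT k) (fun _ => mmT k) (fun _ => gap) (fun _ => ()) := by
  have hC : 0 < Nat.card C := Nat.card_pos
  have hkC : 0 < k * Nat.card C := Nat.mul_pos hk0 hC
  have hta2 : B.q (l .t) * B.q (l .t) = 1 := by rw [ht]; exact Hx.inv t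
  have haa2 : B.q (l .a) * B.q (l .a) = 1 := by rw [ha]; exact Hx.inv a
  have hbb2 : B.q (l .b) * B.q (l .b) = 1 := by rw [hb]; exact Hx.inv b
  refine baseT_T Hx hta htb hab ht ha hb gn hk0 hi hq hii he (by omega) hne H hwk hw5 hm0 T hL hkq hkq1 hnh hc hG hdl hsea
    (mmT_pos hk0) hK hgap hlen h0 h1 hp hN ?_
  intro c0 hc0 z s y y' h2 h3 hy
  have hw5' : (5 : ℤ) ≤ w := by exact_mod_cast hw5
  refine p3_win Hx hta htb hab ht ha hb gn hk0 hi hq hii H h0 h1 hp hN (by omega) hA hw2 ?_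
    (nc_of_t haa2 hbb2 hta2 hne) (by omega) ?_ ?_ ?_ z s y y' h2 h3 hy
  · intro K
    rcases hwd K with h | h | h
    · exact ne_of_t hta2 hne (Or.inl h)
    · exact ne_of_t hta2 hne (Or.inr h)
    · exact h
  · intro K b0 b1
    rcases hc0 with rfl | rfl
    · exact T.m0 K b0 b1
    · exact T.m1 K b0 (by linarith)
  · rcases hc0 with rfl | rfl <;> omega
  · rcases hc0 with rfl | rfl <;> omega

end fin

end Pool.Agent.Lib.MP_688fd0_co.SQ5.H49.BaseZ
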