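import Pool.Agent.Lib.MP_688fd0_co.SQ5.H49.ClsR
import Pool.Agent.Lib.MP_688fd0_co.SQ5.H95.FarB
import Pool.Agent.Lib.MP_688fd0_co.SQ5.H53.RegL
import Pool.Agent.Lib.MP_688fd0_co.SQ5.H67.EvArc

/-!
FT, row BASEZ (helper49): the base of the threads, two windows of labels `[v0, vm]` and `[vm + 1, v1]` in one chart per run.
`Lam2` = the rung graph inside of the two windows, `W2` = the strands of the two walls between them.
-/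

set_option autoImplicit false

namespace Pool.Agent.Lib.MP_688fd0_co.SQ5.H49.BaseZ

open Function Pool.Agent.Lib.MP_688fd0_co.OSF
open Pool.Agent.Lib.MP_688fd0_co.SQ5.H64 Pool.Agent.Lib.MP_688fd0_co.SQ5.H76 Pool.Agent.Lib.MP_688fd0_co.SQ5.H95
open Pool.Agent.Lib.MP_688fd0_co.SQ5.FT
open Pool.Agent.Lib.MP_688fd0_co.SQ3 Pool.Agent.Lib.MP_688fd0_co.SQ5.H58

universe u v

section graph

variable {L : AddSubgroup (ℤ × ℤ)} {M R : ℕ} {dc : ℕ → ℤ} {spc : ℕ → Prop} {Gr : ℤ} {g : Geo L M R dc spc Gr} {m0 : ℕ}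
  {hw : ℤ → ℕ} (H : Geo.Mn g m0 hw)

variable {Q : Type u} [Group Q] {B : Lb.{u, v} Q} {l : L3 → B.L} (c : Cov B l L)

/-- The rung graph inside of two windows. -/
def Lam2 (κ0 κ1 v0 vm v1 : ℤ) (z : Zr g) : SimpleGraph (VV c H κ0 κ1 v0 v1 z) where
  Adj s s' := ((s.1.1.1 ≤ vm ∧ s'.1.1.1 ≤ vm) ∨ (vm < s.1.1.1 ∧ vm < s'.1.1.1)) ∧
    ∃ m : ℤ, H20.Rung m s.1 s'.1 ∨ H20.Rung m s'.1 s.1
  symm := ⟨fun _ _ h => ⟨h.1.imp (fun h => ⟨h.2, h.1⟩) (fun h => ⟨h.2, h.1⟩), h.2.imp fun _ h => h.symm⟩⟩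
  loopless := ⟨fun s h => by
    obtain ⟨-, m, h | h⟩ := h
    · have h1 := h.1
      have h2 := H20.df_ne ((H.bd z).b (g.rs z + m))
      omega
    · have h1 := h.1
      have h2 := H20.df_ne ((H.bd z).b (g.rs z + m))
      omega⟩

/-- The strands of the two walls between the windows. -/
def W2 (κ0 κ1 vm : ℤ) (z : Zr g) : Set (SS c H κ0 κ1 z) := {s | s.1.1 = vm ∨ s.1.1 = vm + 1}

variable {H c} {κ0 κ1 v0 vm v1 : ℤ} {z : Zr g}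

/-- The lower window. -/
def inl (h : vm ≤ v1) (s : VV c H κ0 κ1 v0 vm z) : VV c H κ0 κ1 v0 v1 z := ⟨s.1, s.2.1, s.2.2.trans h⟩

/-- The upper window. -/
def inr (h : v0 ≤ vm + 1) (s : VV c H κ0 κ1 (vm + 1) v1 z) : VV c H κ0 κ1 v0 v1 z := ⟨s.1, h.trans s.2.1, s.2.2⟩

theorem inl_inj (h : vm ≤ v1) : Injective (inl (H := H) (c := c) (κ0 := κ0) (κ1 := κ1) (v0 := v0) (z := z) h) := by
  intro s s' e
  have h1 : (inl h s).1 = (inl h s').1 := by rw [e]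
  exact Subtype.ext h1

theorem inr_inj (h : v0 ≤ vm + 1) : Injective (inr (H := H) (c := c) (κ0 := κ0) (κ1 := κ1) (v1 := v1) (z := z) h) := by
  intro s s' e
  have h1 : (inr h s).1 = (inr h s').1 := by rw [e]
  exact Subtype.ext h1

theorem inl_adj (h : vm ≤ v1) {s s' : VV c H κ0 κ1 v0 vm z} :
    (Lam2 H c κ0 κ1 v0 vm v1 z).Adj (inl h s) (inl h s') ↔ (LamV H c κ0 κ1 v0 vm z).Adj s s' := by
  rw [LamV_adj]
  exact ⟨fun h1 => h1.2, fun h1 => ⟨Or.inl ⟨s.2.2, s'.2.2⟩, h1⟩⟩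

theorem inr_adj (h : v0 ≤ vm + 1) {s s' : VV c H κ0 κ1 (vm + 1) v1 z} :
    (Lam2 H c κ0 κ1 v0 vm v1 z).Adj (inr h s) (inr h s') ↔ (LamV H c κ0 κ1 (vm + 1) v1 z).Adj s s' := by
  rw [LamV_adj]
  refine ⟨fun h1 => h1.2, fun h1 => ⟨Or.inr ⟨?_, ?_⟩, h1⟩⟩
  · have := s.2.1
    show vm < s.1.1.1
    omega
  · have := s'.2.1
    show vm < s'.1.1.1
    omega

theorem four_inl (h : vm ≤ v1) {s : VV c H κ0 κ1 v0 vm z} (h4 : Four (LamV H c κ0 κ1 v0 vm z) s) :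
    Four (Lam2 H c κ0 κ1 v0 vm v1 z) (inl h s) := by
  obtain ⟨f, hf, ha⟩ := h4
  exact ⟨fun i => inl h (f i), (inl_inj h).comp hf, fun i => (inl_adj h).2 (ha i)⟩

theorem four_inr (h : v0 ≤ vm + 1) {s : VV c H κ0 κ1 (vm + 1) v1 z} (h4 : Four (LamV H c κ0 κ1 (vm + 1) v1 z) s) :
    Four (Lam2 H c κ0 κ1 v0 vm v1 z) (inr h s) := by
  obtain ⟨f, hf, ha⟩ := h4
  exact ⟨fun i => inr h (f i), (inr_inj h).comp hf, fun i => (inr_adj h).2 (ha i)⟩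

theorem reach_inl (h : vm ≤ v1) {s s' : VV c H κ0 κ1 v0 vm z} (hr : (LamV H c κ0 κ1 v0 vm z).Reachable s s') :
    (Lam2 H c κ0 κ1 v0 vm v1 z).Reachable (inl h s) (inl h s') := by
  rw [SimpleGraph.reachable_iff_reflTransGen] at hr ⊢
  induction hr with
  | refl => exact Relation.ReflTransGen.refl
  | tail _ h1 ih => exact ih.tail ((inl_adj h).2 h1)

theorem reach_inr (h : v0 ≤ vm + 1) {s s' : VV c H κ0 κ1 (vm + 1) v1 z}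
    (hr : (LamV H c κ0 κ1 (vm + 1) v1 z).Reachable s s') :
    (Lam2 H c κ0 κ1 v0 vm v1 z).Reachable (inr h s) (inr h s') := by
  rw [SimpleGraph.reachable_iff_reflTransGen] at hr ⊢
  induction hr with
  | refl => exact Relation.ReflTransGen.refl
  | tail _ h1 ih => exact ih.tail ((inr_adj h).2 h1)

/-- Every strand is in one of the windows. -/
theorem window (h : vm ≤ v1) (h' : v0 ≤ vm + 1) (s : VV c H κ0 κ1 v0 v1 z) :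
    (s.1.1.1 ≤ vm ∧ ∃ s', inl h s' = s) ∨ (vm < s.1.1.1 ∧ ∃ s', inr h' s' = s) := by
  rcases le_or_gt s.1.1.1 vm with h1 | h1
  · exact Or.inl ⟨h1, ⟨s.1, s.2.1, h1⟩, rfl⟩
  · exact Or.inr ⟨h1, ⟨s.1, by omega, s.2.2⟩, rfl⟩

/-- The neighbours are in the same window. -/
theorem adj_inl (h : vm ≤ v1) {s : VV c H κ0 κ1 v0 vm z} {t : VV c H κ0 κ1 v0 v1 z}
    (ha : (Lam2 H c κ0 κ1 v0 vm v1 z).Adj (inl h s) t) : ∃ t', inl h t' = t := by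
  have hs : s.1.1.1 ≤ vm := s.2.2
  rcases ha.1 with h1 | h1
  · exact ⟨⟨t.1, t.2.1, h1.2⟩, rfl⟩
  · have h2 : vm < s.1.1.1 := h1.1
    omega

theorem adj_inr (h : v0 ≤ vm + 1) {s : VV c H κ0 κ1 (vm + 1) v1 z} {t : VV c H κ0 κ1 v0 v1 z}
    (ha : (Lam2 H c κ0 κ1 v0 vm v1 z).Adj (inr h s) t) : ∃ t', inr h t' = t := by
  have hs : vm + 1 ≤ s.1.1.1 := s.2.1
  rcases ha.1 with h1 | h1
  · have h2 : s.1.1.1 ≤ vm := h1.1
    omega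
  · exact ⟨⟨t.1, by have := h1.2; omega, t.2.2⟩, rfl⟩

/-- ROWS: in every component of a window there is a strand with any label of the window. -/
theorem row_node (hi : ∀ i, B.inv (l i) = l i) (hk0 : κ0 ≤ v0) (hk1 : v1 ≤ κ1) (s : VV c H κ0 κ1 v0 v1 z) {κ : ℤ}
    (h0 : v0 ≤ κ) (h1 : κ ≤ v1) : ∃ s' : VV c H κ0 κ1 v0 v1 z, s'.1.1.1 = κ ∧ (LamV H c κ0 κ1 v0 v1 z).Reachable s s' := by
  have hg := H53.RegC.grf_lam c (H.bd z) (g.rs z) hk0 hk1 (fun _ => True)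
  have h2 := H53.RegC.nod_mk c hi (H.bd z) (m := 0) (hg.nod s) h0 h1
  obtain ⟨s', hs'⟩ := hg.exists_node h2
  refine ⟨s', by rw [hs']; rfl, hg.reach ?_⟩
  rw [hs']
  exact H53.RegC.row_conn c hi trivial (hg.nod s) h2 (H53.RegC.row_mk _ _ _ _ _ _).symm

end graph

/-! ### The two windows are a cluster -/

section cross

variable {L : AddSubgroup (ℤ × ℤ)} {M R : ℕ} {dc : ℕ → ℤ} {spc : ℕ → Prop} {Gr : ℤ} {g : Geo L M R dc spc Gr} {m0 : ℕ}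
  {hw : ℤ → ℕ} (H : Geo.Mn g m0 hw)

variable {Q : Type} [Group Q] [Finite Q] {B : Lb.{0, v} Q} {l : L3 → B.L} (c : Cov B l L) (hi : ∀ i, B.inv (l i) = l i)
  (hq : Injective (qq B l)) (hii : ∀ x, B.inv (B.inv x) = x) {κ0 κ1 v0 vm v1 : ℤ}

omit [Finite Q] in
/-- Reachable strands are in the same window. -/
theorem win_reach {z : Zr g} {s s' : VV c H κ0 κ1 v0 v1 z} (h : (Lam2 H c κ0 κ1 v0 vm v1 z).Reachable s s') :
    s.1.1.1 ≤ vm ↔ s'.1.1.1 ≤ vm := by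
  rw [SimpleGraph.reachable_iff_reflTransGen] at h
  induction h with
  | refl => rfl
  | tail _ h1 ih =>
    rw [ih]
    rcases h1.1 with h2 | h2
    · exact ⟨fun _ => h2.2, fun _ => h2.1⟩
    · exact ⟨fun h3 => absurd h2.1 (not_lt.2 h3), fun h3 => absurd h2.2 (not_lt.2 h3)⟩

/-- The regions of a window. -/
def WinS (κ0 κ1 v0 vm v1 u0 u1 : ℤ) : Set (Σ z, Rgs.KC (VV c H κ0 κ1 v0 v1) (Lam2 H c κ0 κ1 v0 vm v1) z) :=
  {r | ∃ s : VV c H κ0 κ1 v0 v1 r.1, u0 ≤ s.1.1.1 ∧ s.1.1.1 ≤ u1 ∧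
    Rgs.cpC (VV c H κ0 κ1 v0 v1) (Lam2 H c κ0 κ1 v0 vm v1) r.1 s = r.2}

variable (hex : ∀ (z : Zr g) (κ : ℤ), ∃ y : Q, c.Over y ((H.bd z).st κ (g.rs z) 0))

omit [Finite Q] in
include hex in
/-- The arc across the strip between the windows at one event. -/
theorem cross (h0 : 2 ≤ κ0) (h1 : κ1 ≤ m0) (p : ℕ) (hp : 2 ≤ p) (hN : ∀ z : Zr g, p ≤ g.rE z) (hk0 : κ0 ≤ v0)
    (hk1 : v1 ≤ κ1) (hv0 : v0 ≤ vm) (hv1 : vm + 1 ≤ v1) {z z' : Zr g} (hz : (z : ℤ) + 1 = z') :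
    ∃ p1 p2 : Σ z, VV c H κ0 κ1 v0 v1 z × Bool, p1.2.1.1.1.1 = vm ∧ p2.2.1.1.1.1 = vm + 1 ∧
      ((p1.1 = z ∧ p1.2.2 = true) ∨ (p1.1 = z' ∧ p1.2.2 = false)) ∧
      H22.Cn (ff c hi hq hii g).Ed {y | ¬ (inst H c hi hq hii κ0 κ1 h0 h1 p hp hN).ActR (VV c H κ0 κ1 v0 v1) y}
        ((inst H c hi hq hii κ0 κ1 h0 h1 p hp hN).ev p1.1 (p1.2.1.1, p1.2.2))
        ((inst H c hi hq hii κ0 κ1 h0 h1 p hp hN).ev p2.1 (p2.2.1.1, p2.2.2)) := by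
  have ev := H53.RegC.evt H (z := z) (z' := z') (x := 0) (by rw [hz]; ring)
  have key : ∀ κ : ℤ, v0 ≤ κ → κ ≤ v1 → v0 ≤ κ + H53.RegC.dle g z → κ + H53.RegC.dle g z ≤ v1 →
      ∃ (s : VV c H κ0 κ1 v0 v1 z) (s' : VV c H κ0 κ1 v0 v1 z'), s.1.1.1 = κ ∧ s'.1.1.1 = κ + H53.RegC.dle g z ∧
        H22.Cn (ff c hi hq hii g).Ed {y | ¬ (inst H c hi hq hii κ0 κ1 h0 h1 p hp hN).ActR (VV c H κ0 κ1 v0 v1) y}
          ((inst H c hi hq hii κ0 κ1 h0 h1 p hp hN).ev z (s.1, true))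
          ((inst H c hi hq hii κ0 κ1 h0 h1 p hp hN).ev z' (s'.1, false)) := by
    intro κ a0 a1 a2 a3
    obtain ⟨y, hy⟩ := hex z κ
    have hn : H53.RegC.Nod c (H.bd z) (g.rs z) κ0 κ1 (κ, y) := ⟨hk0.trans a0, a1.trans hk1, hy⟩
    have hn' : H53.RegC.Nod c (H.bd z') (g.rs z') κ0 κ1
        (H53.RegC.pass (qq B l) (H.bd z) (g.rs z) (g.rE z) (H53.RegC.dle g z) (κ, y)) :=
      H53.RegC.nod_pass c hi ev hn (hk0.trans a2) (a3.trans hk1)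
    exact ⟨⟨⟨(κ, y), hn⟩, a0, a1⟩, ⟨⟨_, hn'⟩, a2, a3⟩, rfl, rfl, H67.harc H c hi hq hii h0 h1 p hp hN _ rfl⟩
  have hsy : ∀ x y, (ff c hi hq hii g).Ed x y → (ff c hi hq hii g).Ed y x := fun x y h => HF.ed_symm _ h
  rcases H53.RegC.dle_cases (g := g) z with hd | hd
  · obtain ⟨s, s', b1, b2, b3⟩ := key (vm + 1) (by omega) (by omega) (by omega) (by omega)
    exact ⟨⟨z', s', false⟩, ⟨z, s, true⟩, by rw [b2, hd]; ring, b1, Or.inr ⟨rfl, rfl⟩, b3.symm' hsy⟩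
  · obtain ⟨s, s', b1, b2, b3⟩ := key vm (by omega) (by omega) (by omega) (by omega)
    exact ⟨⟨z, s, true⟩, ⟨z', s', false⟩, b1, by rw [b2, hd], Or.inl ⟨rfl, rfl⟩, b3⟩

include hex in
/-- CONN of `BaseT`. -/
theorem conn2 (h0 : 2 ≤ κ0) (h1 : κ1 ≤ m0) (p : ℕ) (hp : 2 ≤ p) (hN : ∀ z : Zr g, p ≤ g.rE z) (hk0 : κ0 ≤ v0)
    (hk1 : v1 ≤ κ1) (hv0 : v0 ≤ vm) (hv1 : vm + 1 ≤ v1) (hEt : 4 ≤ g.w.Et)
    (hw0 : ∀ (z z' : Zr g) (s : VV c H κ0 κ1 v0 v1 z) (s' : VV c H κ0 κ1 v0 v1 z'), v0 ≤ s.1.1.1 → s.1.1.1 ≤ vm →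
      v0 ≤ s'.1.1.1 → s'.1.1.1 ≤ vm → Relation.ReflTransGen (fun r r' => r ∈ WinS H c κ0 κ1 v0 vm v1 v0 vm ∧
        r' ∈ WinS H c κ0 κ1 v0 vm v1 v0 vm ∧ (inst H c hi hq hii κ0 κ1 h0 h1 p hp hN).RAdj (VV c H κ0 κ1 v0 v1)
          (Rgs.cpC (VV c H κ0 κ1 v0 v1) (Lam2 H c κ0 κ1 v0 vm v1)) r r')
        ⟨z, Rgs.cpC (VV c H κ0 κ1 v0 v1) (Lam2 H c κ0 κ1 v0 vm v1) z s⟩
        ⟨z', Rgs.cpC (VV c H κ0 κ1 v0 v1) (Lam2 H c κ0 κ1 v0 vm v1) z' s'⟩)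
    (hw1 : ∀ (z z' : Zr g) (s : VV c H κ0 κ1 v0 v1 z) (s' : VV c H κ0 κ1 v0 v1 z'), vm + 1 ≤ s.1.1.1 → s.1.1.1 ≤ v1 →
      vm + 1 ≤ s'.1.1.1 → s'.1.1.1 ≤ v1 → Relation.ReflTransGen (fun r r' => r ∈ WinS H c κ0 κ1 v0 vm v1 (vm + 1) v1 ∧
        r' ∈ WinS H c κ0 κ1 v0 vm v1 (vm + 1) v1 ∧ (inst H c hi hq hii κ0 κ1 h0 h1 p hp hN).RAdj (VV c H κ0 κ1 v0 v1)
          (Rgs.cpC (VV c H κ0 κ1 v0 v1) (Lam2 H c κ0 κ1 v0 vm v1)) r r')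
        ⟨z, Rgs.cpC (VV c H κ0 κ1 v0 v1) (Lam2 H c κ0 κ1 v0 vm v1) z s⟩
        ⟨z', Rgs.cpC (VV c H κ0 κ1 v0 v1) (Lam2 H c κ0 κ1 v0 vm v1) z' s'⟩) :
    ∀ u : Unit, Cls (PAdj (inst H c hi hq hii κ0 κ1 h0 h1 p hp hN) (VV c H κ0 κ1 v0 v1) (Lam2 H c κ0 κ1 v0 vm v1))
      {r | (fun _ : Zr g => ()) r.1 = u} := by
  intro u
  have hZ : Finite (Zr g) := (Set.finite_Ico (0 : ℤ) g.w.Et).to_subtype
  have hK : ∀ z : Zr g, Finite (Rgs.KC (VV c H κ0 κ1 v0 v1) (Lam2 H c κ0 κ1 v0 vm v1) z) := fun z => by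
    have : Finite (VV c H κ0 κ1 v0 v1 z) := inferInstance
    exact Quot.finite _
  have hfin : Finite (Σ z, Rgs.KC (VV c H κ0 κ1 v0 v1) (Lam2 H c κ0 κ1 v0 vm v1) z) := inferInstance
  -- representatives
  have hrep : ∀ r : (Σ z, Rgs.KC (VV c H κ0 κ1 v0 v1) (Lam2 H c κ0 κ1 v0 vm v1) z), ∃ s : VV c H κ0 κ1 v0 v1 r.1,
      r = ⟨r.1, Rgs.cpC (VV c H κ0 κ1 v0 v1) (Lam2 H c κ0 κ1 v0 vm v1) r.1 s⟩ := by
    rintro ⟨z, κ⟩
    obtain ⟨s, rfl⟩ := κ.exists_rep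
    exact ⟨s, rfl⟩
  -- the arcs
  have hlt : ∀ i : Fin 3, (0 : ℤ) ≤ i.1 ∧ (i.1 : ℤ) < g.w.Et := fun i => ⟨by omega, by have := i.2; omega⟩
  have hlt' : ∀ i : Fin 3, (0 : ℤ) ≤ i.1 + 1 ∧ (i.1 : ℤ) + 1 < g.w.Et := fun i => ⟨by omega, by have := i.2; omega⟩
  choose P1 P2 c1 c2 c3 c4 using fun i : Fin 3 => cross H c hi hq hii hex h0 h1 p hp hN hk0 hk1 hv0 hv1
    (z := ⟨(i.1 : ℤ), hlt i⟩) (z' := ⟨(i.1 : ℤ) + 1, hlt' i⟩) rfl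
  obtain ⟨y0, hy0⟩ := hex ⟨0, by omega, by omega⟩ vm
  obtain ⟨y1, hy1⟩ := hex ⟨0, by omega, by omega⟩ (vm + 1)
  let z0 : Zr g := ⟨0, by omega, by omega⟩
  let s0 : VV c H κ0 κ1 v0 v1 z0 := ⟨⟨(vm, y0), by show κ0 ≤ vm; omega, by show vm ≤ κ1; omega, hy0⟩, hv0, by
    show vm ≤ v1; omega⟩
  let s1 : VV c H κ0 κ1 v0 v1 z0 := ⟨⟨(vm + 1, y1), by show κ0 ≤ vm + 1; omega, by show vm + 1 ≤ κ1; omega, hy1⟩, by
    show v0 ≤ vm + 1; omega, hv1⟩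
  have hC0 : Cls (PAdj (inst H c hi hq hii κ0 κ1 h0 h1 p hp hN) (VV c H κ0 κ1 v0 v1) (Lam2 H c κ0 κ1 v0 vm v1))
      (WinS H c κ0 κ1 v0 vm v1 v0 vm) := by
    refine cls_of_radj _ ⟨z0, Rgs.cpC (VV c H κ0 κ1 v0 v1) (Lam2 H c κ0 κ1 v0 vm v1) z0 s0⟩ ⟨s0, hv0, le_rfl, rfl⟩ ?_
    rintro ⟨z, κ⟩ ⟨s, a1, a2, a3⟩
    have a3 : Rgs.cpC (VV c H κ0 κ1 v0 v1) (Lam2 H c κ0 κ1 v0 vm v1) z s = κ := a3
    have a4 := hw0 z0 z s0 s hv0 le_rfl a1 a2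
    rw [a3] at a4
    exact a4
  have hC1 : Cls (PAdj (inst H c hi hq hii κ0 κ1 h0 h1 p hp hN) (VV c H κ0 κ1 v0 v1) (Lam2 H c κ0 κ1 v0 vm v1))
      (WinS H c κ0 κ1 v0 vm v1 (vm + 1) v1) := by
    refine cls_of_radj _ ⟨z0, Rgs.cpC (VV c H κ0 κ1 v0 v1) (Lam2 H c κ0 κ1 v0 vm v1) z0 s1⟩ ⟨s1, le_rfl, hv1, rfl⟩ ?_
    rintro ⟨z, κ⟩ ⟨s, a1, a2, a3⟩
    have a3 : Rgs.cpC (VV c H κ0 κ1 v0 v1) (Lam2 H c κ0 κ1 v0 vm v1) z s = κ := a3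
    have a4 := hw1 z0 z s1 s le_rfl hv1 a1 a2
    rw [a3] at a4
    exact a4
  have huniv : {r : (Σ z, Rgs.KC (VV c H κ0 κ1 v0 v1) (Lam2 H c κ0 κ1 v0 vm v1) z) | (fun _ : Zr g => ()) r.1 = u} =
      WinS H c κ0 κ1 v0 vm v1 v0 vm ∪ WinS H c κ0 κ1 v0 vm v1 (vm + 1) v1 := by
    ext r
    refine ⟨fun _ => ?_, fun _ => rfl⟩
    obtain ⟨s, hs⟩ := hrep r
    have hs' : Rgs.cpC (VV c H κ0 κ1 v0 v1) (Lam2 H c κ0 κ1 v0 vm v1) r.1 s = r.2 :=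
      (eq_of_heq (Sigma.mk.inj (hs.symm.trans (Sigma.eta r).symm)).2)
    rcases le_or_gt s.1.1.1 vm with h | h
    · exact Or.inl ⟨s, s.2.1, h, hs'⟩
    · exact Or.inr ⟨s, h, s.2.2, hs'⟩
  rw [huniv]
  refine Cls.join hC0 hC1 ?_ ?_
  · rw [Set.disjoint_left]
    rintro r ⟨s, -, a2, a3⟩ ⟨s', b1, -, b3⟩
    have h2 := win_reach H c (SimpleGraph.ConnectedComponent.exact (a3.trans b3.symm))
    have h3 := h2.1 a2
    omega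
  · refine tri3_of _ _ _ P1 P2 ?_ ?_ ?_ ?_ c4
    · intro i j hij
      have e1 : (P1 i).1 = (P1 j).1 := congrArg (fun p => p.1) hij
      have e2 : (P1 i).2.2 = (P1 j).2.2 := by rw [hij]
      rcases c3 i with ⟨d1, d2⟩ | ⟨d1, d2⟩ <;> rcases c3 j with ⟨d3, d4⟩ | ⟨d3, d4⟩
      · have h2 := congrArg Subtype.val (d1.symm.trans (e1.trans d3))
        have h3 : (i.1 : ℤ) = j.1 := h2
        exact Fin.ext (by omega)
      · rw [d2, d4] at e2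
        exact absurd e2 (by simp)
      · rw [d2, d4] at e2
        exact absurd e2 (by simp)
      · have h2 := congrArg Subtype.val (d1.symm.trans (e1.trans d3))
        have h3 : (i.1 : ℤ) + 1 = j.1 + 1 := h2
        exact Fin.ext (by omega)
    · intro i
      exact ⟨(P1 i).2.1, (P1 i).2.1.2.1, (c1 i).le, rfl⟩
    · intro i
      exact ⟨(P2 i).2.1, (c2 i).ge, (P2 i).2.1.2.2, rfl⟩
    · intro i hij
      have h2 := c1 i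
      have h3 := c2 i
      rw [hij, h3] at h2
      omega

end cross

section base

variable {Q : Type} [Group Q] [Fintype Q] {N C : Subgroup Q} {eps : Q →* ℤˣ} {k P : ℕ} {x : Fin 3 → Q} (Hx : Inv3 eps x)
  {B : Lb.{0, v} Q} {l : L3 → B.L} {t a b : Fin 3} (hta : t ≠ a) (htb : t ≠ b) (hab : a ≠ b) (ht : B.q (l .t) = x t)
  (ha : B.q (l .a) = x a) (hb : B.q (l .b) = x b)

/-- THE BASE of the threads from the rows of the two windows. -/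
theorem baseT_of_rows {cS : ℕ} {A : Set Q}
    (hi : ∀ i, B.inv (l i) = l i) (hq : Injective (qq B l))
    (hii : ∀ x, B.inv (B.inv x) = x) {e : ℕ} (he0 : 1 ≤ e)
    {M R : ℕ} {dc : ℕ → ℤ} {spc : ℕ → Prop} {Gr : ℤ}
    {g : Geo (Ltc (ct eps (x a * x t)) (ct eps (x b * x t))) M R dc spc Gr} {m0 : ℕ} {hw : ℤ → ℕ}
    (H : Geo.Mn g m0 hw) {κ0 κ1 v0 vm v1 : ℤ} (h0 : 2 ≤ κ0) (h1 : κ1 ≤ m0) (hp : 2 ≤ 8 * e)
    (hN : ∀ z : Zr g, 8 * e ≤ g.rE z)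
    (hc : H66.Chg g) (hG : 64 ≤ Gr) (hdl : ∀ k, k + 1 < R → spc k → g.dl k + 20 ≤ Gr)
    (hsea : ∀ K : ℤ, K % R = R - 1 → ∀ s, (g.P K s - g.P (K + 1) s) % 8 = 0 ∨ (g.P K s - g.P (K + 1) s) % 8 = 3)
    {c1 c2 : ℕ} (hc1 : c1 ≤ c2) (hc2 : c2 < m0) (hk0 : κ0 ≤ v0) (hk1 : v1 ≤ κ1)
    (hv0 : v0 ≤ c1 + 1) (hv1 : (c2 : ℤ) + 1 ≤ v1) (hw0 : v0 + 3 ≤ vm) (hw1 : vm + 4 ≤ v1)
    {mm K gap : ℕ} (hmm : 0 < mm) (hK : (v1 + 1 - v0).toNat * Nat.card (K0 eps) ≤ K)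
    (hgap : (K + 2) * (((cS * K ^ 2 + 1) * mm) * (8 * e)) ≤ gap) (hlen : ∀ z : Zr g, gap + 8 * e ≤ g.rE z)
    {U : Q} (hper : (inst H (Hx.co hta htb hab ht ha hb).cov hi hq hii κ0 κ1 h0 h1 (8 * e) hp hN).Per (fun _ => U))
    (hiso0 : ∀ z x, ∃ y, (LamV H (Hx.co hta htb hab ht ha hb).cov κ0 κ1 v0 vm z).Adj x y)
    (hiso1 : ∀ z x, ∃ y, (LamV H (Hx.co hta htb hab ht ha hb).cov κ0 κ1 (vm + 1) v1 z).Adj x y)
    (h40 : ∀ z x y, (LamV H (Hx.co hta htb hab ht ha hb).cov κ0 κ1 v0 vm z).Adj x y →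
      Four (LamV H (Hx.co hta htb hab ht ha hb).cov κ0 κ1 v0 vm z) x ∨
        Four (LamV H (Hx.co hta htb hab ht ha hb).cov κ0 κ1 v0 vm z) y)
    (h41 : ∀ z x y, (LamV H (Hx.co hta htb hab ht ha hb).cov κ0 κ1 (vm + 1) v1 z).Adj x y →
      Four (LamV H (Hx.co hta htb hab ht ha hb).cov κ0 κ1 (vm + 1) v1 z) x ∨
        Four (LamV H (Hx.co hta htb hab ht ha hb).cov κ0 κ1 (vm + 1) v1 z) y)
    [∀ z : Zr g, DecidableEq (SS (Hx.co hta htb hab ht ha hb).cov H κ0 κ1 z)]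
    (hp30 : ∀ z (x y y' : VV (Hx.co hta htb hab ht ha hb).cov H κ0 κ1 v0 vm z),
      (LamV H (Hx.co hta htb hab ht ha hb).cov κ0 κ1 v0 vm z).Adj x y →
      (LamV H (Hx.co hta htb hab ht ha hb).cov κ0 κ1 v0 vm z).Adj x y' → y ≠ y' →
      StkT ((inst H (Hx.co hta htb hab ht ha hb).cov hi hq hii κ0 κ1 h0 h1 (8 * e) hp hN).D0 A z) mm
        (p3 x.1 y.1 y'.1))
    (hp31 : ∀ z (x y y' : VV (Hx.co hta htb hab ht ha hb).cov H κ0 κ1 (vm + 1) v1 z),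
      (LamV H (Hx.co hta htb hab ht ha hb).cov κ0 κ1 (vm + 1) v1 z).Adj x y →
      (LamV H (Hx.co hta htb hab ht ha hb).cov κ0 κ1 (vm + 1) v1 z).Adj x y' → y ≠ y' →
      StkT ((inst H (Hx.co hta htb hab ht ha hb).cov hi hq hii κ0 κ1 h0 h1 (8 * e) hp hN).D0 A z) mm
        (p3 x.1 y.1 y'.1))
    (hconn : ∀ c, Cls (PAdj (inst H (Hx.co hta htb hab ht ha hb).cov hi hq hii κ0 κ1 h0 h1 (8 * e) hp hN)
      (VV (Hx.co hta htb hab ht ha hb).cov H κ0 κ1 v0 v1) (Lam2 H (Hx.co hta htb hab ht ha hb).cov κ0 κ1 v0 vm v1))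
      {r | (fun _ : Zr g => ()) r.1 = c}) :
    BaseT A cS (inst H (Hx.co hta htb hab ht ha hb).cov hi hq hii κ0 κ1 h0 h1 (8 * e) hp hN)
      (VV (Hx.co hta htb hab ht ha hb).cov H κ0 κ1 v0 v1) (W2 H (Hx.co hta htb hab ht ha hb).cov κ0 κ1 vm)
      (Lam2 H (Hx.co hta htb hab ht ha hb).cov κ0 κ1 v0 vm v1) (fun _ => U) (fun _ => (cS * K ^ 2 + 1) * mm) (fun _ => mm)
      (fun _ => gap) (fun _ => ()) := by
  have hm1 : vm ≤ v1 := by omega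
  have hm0 : v0 ≤ vm + 1 := by omega
  have hKV : ∀ z : Zr g, Nat.card (VV (Hx.co hta htb hab ht ha hb).cov H κ0 κ1 v0 v1 z) ≤ K := fun z =>
    (card_VV Hx hta htb hab ht ha hb H κ0 κ1 v0 v1 z).trans hK
  have hfin : ∀ z : Zr g, Finite (VV (Hx.co hta htb hab ht ha hb).cov H κ0 κ1 v0 v1 z) := fun z => inferInstance
  have hKC : ∀ z : Zr g, Nat.card ((Lam2 H (Hx.co hta htb hab ht ha hb).cov κ0 κ1 v0 vm v1 z).ConnectedComponent) ≤ K :=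
    fun z => (Nat.card_le_card_of_surjective _ Quot.mk_surjective).trans (hKV z)
  have e1 : 8 * e - 1 + 1 = 8 * e := by omega
  refine
    { per := hper
      far := ?_
      mpos := fun _ => hmm
      mnb := fun z => Nat.mul_le_mul_right _ (Nat.add_le_add_right (Nat.mul_le_mul_left _ (Nat.pow_le_pow_left (hKV z) 2)) 1)
      iso := ?_
      four := ?_
      p3 := ?_
      flush := ?_
      WV := ?_
      out3 := ?_
      conn := ?_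
      gapb := ?_
      len := ?_ }
  · intro z z' m s i m' s' i' hne hm hi1 hm' hi2 he
    have hm : m ≤ g.rE z / (8 * e) * (8 * e - 1 + 1) := hm
    have hm' : m' ≤ g.rE z' / (8 * e) * (8 * e - 1 + 1) := hm'
    obtain ⟨e, -⟩ := H.far (Hx.co hta htb hab ht ha hb).cov hi (z := z) (z' := z') (Zr.sub_lt z z') (Zr.sub_lt z' z) h0 h1 h0 h1
      (inst_le hp hm) (inst_le hp hm') hi1 hi2 he
    exact hne (Subtype.ext e)
  · intro z s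
    rcases window hm1 hm0 s with ⟨-, s', rfl⟩ | ⟨-, s', rfl⟩
    · obtain ⟨y, hy⟩ := hiso0 z s'
      exact ⟨_, (inl_adj hm1).2 hy⟩
    · obtain ⟨y, hy⟩ := hiso1 z s'
      exact ⟨_, (inr_adj hm0).2 hy⟩
  · intro z s y hsy
    rcases window hm1 hm0 s with ⟨-, s', rfl⟩ | ⟨-, s', rfl⟩
    · obtain ⟨y', rfl⟩ := adj_inl hm1 hsy
      exact (h40 z s' y' ((inl_adj hm1).1 hsy)).imp (four_inl hm1) (four_inl hm1)
    · obtain ⟨y', rfl⟩ := adj_inr hm0 hsy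
      exact (h41 z s' y' ((inr_adj hm0).1 hsy)).imp (four_inr hm0) (four_inr hm0)
  · intro z s y y' hy hy' hne
    rcases window hm1 hm0 s with ⟨-, s', rfl⟩ | ⟨-, s', rfl⟩
    · obtain ⟨y1, rfl⟩ := adj_inl hm1 hy
      obtain ⟨y2, rfl⟩ := adj_inl hm1 hy'
      exact hp30 z s' y1 y2 ((inl_adj hm1).1 hy) ((inl_adj hm1).1 hy') fun h => hne (by rw [h])
    · obtain ⟨y1, rfl⟩ := adj_inr hm0 hy
      obtain ⟨y2, rfl⟩ := adj_inr hm0 hy'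
      exact hp31 z s' y1 y2 ((inr_adj hm0).1 hy) ((inr_adj hm0).1 hy') fun h => hne (by rw [h])
  · intro y
    obtain ⟨z, m, b1, b2, b3, b4, b5⟩ := H66.act H (Hx.co hta htb hab ht ha hb).cov (inj_l hq) hi hii hc hG hdl hsea hc1 hc2 y
    obtain ⟨S, b6, b7, b8⟩ := b5 κ0 κ1 (hk0.trans hv0) (hv1.trans hk1)
    have hz := hN ⟨z, b1, b2⟩
    refine ⟨⟨z, b1, b2⟩, m, S, 0, ⟨hv0.trans b6, b7.trans hv1⟩, ?_, Nat.zero_le _, ?_⟩
    · show m ≤ g.rE z / (8 * e) * (8 * e - 1 + 1)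
      have h2 : 1 ≤ g.rE z / (8 * e) := Nat.div_pos hz (by omega)
      have h3 : 1 * (8 * e - 1 + 1) ≤ g.rE z / (8 * e) * (8 * e - 1 + 1) := Nat.mul_le_mul_right _ h2
      omega
    · show (ff (Hx.co hta htb hab ht ha hb).cov hi hq hii g).C y (((H.bd z).chart (Hx.co hta htb hab ht ha hb).cov (g.rs z) κ0 κ1).Z m S 0)
      rw [ff_eq]
      exact b8
  · rintro z s (h | h)
    · exact ⟨by rw [h]; omega, by rw [h]; omega⟩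
    · exact ⟨by rw [h]; omega, by rw [h]; omega⟩
  · intro z κ
    obtain ⟨s, rfl⟩ := κ.exists_rep
    rcases window hm1 hm0 s with ⟨-, s', rfl⟩ | ⟨-, s', rfl⟩
    · choose f hf1 hf2 using fun i : Fin 3 => row_node (H := H) (c := (Hx.co hta htb hab ht ha hb).cov) hi hk0 (hm1.trans hk1) s' (κ := v0 + i.1)
        (by omega) (by have := i.2; omega)
      refine ⟨fun i => inl hm1 (f i), fun i j hij => ?_, fun i => ⟨?_, ?_⟩⟩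
      · have h2 := congrArg (fun s => s.1.1.1) hij
        have h3 : (f i).1.1.1 = (f j).1.1.1 := h2
        rw [hf1, hf1] at h3
        exact Fin.ext (by omega)
      · exact SimpleGraph.ConnectedComponent.sound (reach_inl hm1 (hf2 i)).symm
      · have h2 := hf1 i
        have h3 := i.2
        rintro (h | h)
        · have h4 : (f i).1.1.1 = vm := h
          omega
        · have h4 : (f i).1.1.1 = vm + 1 := h
          omega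
    · choose f hf1 hf2 using fun i : Fin 3 => row_node (H := H) (c := (Hx.co hta htb hab ht ha hb).cov) hi ((hk0.trans hm0)) hk1 s' (κ := v1 - i.1)
        (by have := i.2; omega) (by omega)
      refine ⟨fun i => inr hm0 (f i), fun i j hij => ?_, fun i => ⟨?_, ?_⟩⟩
      · have h2 := congrArg (fun s => s.1.1.1) hij
        have h3 : (f i).1.1.1 = (f j).1.1.1 := h2
        rw [hf1, hf1] at h3
        exact Fin.ext (by omega)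
      · exact SimpleGraph.ConnectedComponent.sound (reach_inr hm0 (hf2 i)).symm
      · have h2 := hf1 i
        have h3 := i.2
        rintro (h | h)
        · have h4 : (f i).1.1.1 = vm := h
          omega
        · have h4 : (f i).1.1.1 = vm + 1 := h
          omega
  · exact hconn
  · intro z
    show (Nat.card (Rgs.KC _ _ z) + 2) * (((cS * K ^ 2 + 1) * mm) * (8 * e - 1 + 1)) ≤ gap
    rw [e1]
    exact (Nat.mul_le_mul_right _ (Nat.add_le_add_right (hKC z) 2)).trans hgap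
  · intro z
    show gap ≤ g.rE z / (8 * e) * (8 * e - 1 + 1)
    rw [e1]
    have h2 := hlen z
    have h3 := Nat.div_add_mod (g.rE z) (8 * e)
    have h4 := Nat.mod_lt (g.rE z) (show 0 < 8 * e by omega)
    have h5 : 8 * e * (g.rE z / (8 * e)) = g.rE z / (8 * e) * (8 * e) := Nat.mul_comm _ _
    omega

end base

end Pool.Agent.Lib.MP_688fd0_co.SQ5.H49.BaseZ
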