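import Pool.Agent.Lib.MP_688fd0_co.SQ5.FT.Data

/-!
FT, row BASEZ (helper49): clusters of regions of run charts. `tri3_of`: three arcs; `cls_of_radj`: regions connected by `RAdj`
are a cluster.
-/

set_option autoImplicit false

namespace Pool.Agent.Lib.MP_688fd0_co.SQ5.H49.BaseZ

open Function Pool.Agent.Lib.MP_688fd0_co.OSF
open Pool.Agent.Lib.MP_688fd0_co.SQ5.H64 Pool.Agent.Lib.MP_688fd0_co.SQ5.H95
open Pool.Agent.Lib.MP_688fd0_co.SQ5.FT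

universe v

variable {G : Type} [Group G] {B : Lb.{0, v} G} {F : HF B} {Zr : Type} {S : Zr → Type} {N : Zr → ℕ} (X : Rgs F Zr S N)
  (V : ∀ z, Set (S z)) (Λ : ∀ z, SimpleGraph (V z))

/-- The port at the end `b` of the strand `s`. -/
def po (z : Zr) (s : V z) (b : Bool) : Σ r : (Σ z, Rgs.KC V Λ z), Po V Λ r := ⟨⟨z, Rgs.cpC V Λ z s⟩, (⟨s, rfl⟩, b)⟩

/-- The strand of a port. -/
def unpo (p : Σ r : (Σ z, Rgs.KC V Λ z), Po V Λ r) : Σ z, V z × Bool := ⟨p.1.1, p.2.1.1, p.2.2⟩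

variable {V Λ}

theorem po_inj {p q : Σ z, V z × Bool} (h : po V Λ p.1 p.2.1 p.2.2 = po V Λ q.1 q.2.1 q.2.2) : p = q :=
  congrArg (unpo V Λ) h

variable (V Λ) in
/-- THREE ARCS. -/
theorem tri3_of {S₁ S₂ : Set (Σ z, Rgs.KC V Λ z)} (p q : Fin 3 → Σ z, V z × Bool) (hp : Injective p)
    (h₁ : ∀ i, (⟨(p i).1, Rgs.cpC V Λ _ (p i).2.1⟩ : Σ z, Rgs.KC V Λ z) ∈ S₁)
    (h₂ : ∀ i, (⟨(q i).1, Rgs.cpC V Λ _ (q i).2.1⟩ : Σ z, Rgs.KC V Λ z) ∈ S₂) (hne : ∀ i, p i ≠ q i)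
    (hcn : ∀ i, H22.Cn F.Ed {x | ¬ X.ActR V x} (X.ev (p i).1 ((p i).2.1.1, (p i).2.2))
      (X.ev (q i).1 ((q i).2.1.1, (q i).2.2))) : Tri3 (PAdj X V Λ) S₁ S₂ :=
  ⟨fun i => po V Λ (p i).1 (p i).2.1 (p i).2.2, fun _ _ h => hp (po_inj h), fun i => ⟨h₁ i,
    po V Λ (q i).1 (q i).2.1 (q i).2.2, h₂ i, fun h => hne i (po_inj h), hcn i⟩⟩

theorem tri3_of_radj {r r' : Σ z, Rgs.KC V Λ z} (h : X.RAdj V (Rgs.cpC V Λ) r r') : Tri3 (PAdj X V Λ) {r} {r'} := by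
  obtain ⟨p, q, hp, hpq⟩ := h
  refine tri3_of X V Λ (fun i => ⟨r.1, p i⟩) (fun i => ⟨r'.1, q i⟩) ?_ (fun i => ?_) (fun i => ?_)
    (fun i => (hpq i).2.2.1) fun i => (hpq i).2.2.2
  · intro i j h
    exact hp (eq_of_heq (Sigma.mk.inj h).2)
  · exact Sigma.ext rfl (heq_of_eq (hpq i).1)
  · exact Sigma.ext rfl (heq_of_eq (hpq i).2.1)

/-- Regions connected by `RAdj` inside of `S`. -/
theorem cls_of_radj [Finite (Σ z, Rgs.KC V Λ z)] {S : Set (Σ z, Rgs.KC V Λ z)} (r₀ : Σ z, Rgs.KC V Λ z) (hr₀ : r₀ ∈ S)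
    (h : ∀ r ∈ S, Relation.ReflTransGen (fun r r' => r ∈ S ∧ r' ∈ S ∧ X.RAdj V (Rgs.cpC V Λ) r r') r₀ r) :
    Cls (PAdj X V Λ) S :=
  Cls.of_regions r₀ hr₀ fun r hr => by
    have key : ∀ r, Relation.ReflTransGen (fun r r' => r ∈ S ∧ r' ∈ S ∧ X.RAdj V (Rgs.cpC V Λ) r r') r₀ r →
        Relation.ReflTransGen (fun r r' => r ∈ S ∧ r' ∈ S ∧ Tri3 (PAdj X V Λ) {r} {r'}) r₀ r := by
      intro r h
      induction h with
      | refl => exact Relation.ReflTransGen.refl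
      | tail _ h1 ih => exact ih.tail ⟨h1.1, h1.2.1, tri3_of_radj X h1.2.2⟩
    exact key r (h r hr)

end Pool.Agent.Lib.MP_688fd0_co.SQ5.H49.BaseZ
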