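import Pool.Agent.Lib.MP_688fd0_co.SQ5.H24.Hgt
import Pool.Agent.Lib.MP_688fd0_co.SQ5.NA.Iface

/-!
C2, LEVEL 3, near (helper49): EXTR. If all triples of letters have short relations of the heights at all primes of `N₁` then
there are two letters `a`, `b` (extreme heights) such that the height of every other letter `s` divides the segment from `a` to
`b` in a rational ratio `i / e`, `0 < i < e ≤ 2 τ ^ 3`.
-/

set_option autoImplicit false

namespace Pool.Agent.Lib.MP_688fd0_co.SQ5.H49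

open Pool.Agent.Lib.MP_688fd0_co.OSF Pool.Agent.Lib.MP_688fd0_co.SQ3
open Pool.Agent.Lib.MP_688fd0_co.SQD
open Subgroup

/-- A small integer is invertible modulo a large prime. -/
theorem int_ne_zero {p : ℕ} {x : ℤ} (hx : x ≠ 0) {B : ℕ} (h : |x| ≤ B) (hB : B < p) : ((x : ℤ) : ZMod p) ≠ 0 := by
  rw [Ne, ZMod.intCast_zmod_eq_zero_iff_dvd]
  intro hd
  refine hx (Int.eq_zero_of_abs_lt_dvd hd ?_)
  have : (B : ℤ) < p := by exact_mod_cast hB
  linarith

/-- The rational number of a relation. -/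
theorem ratio_bound {m n m' n' m'' n'' : ℤ} {τ : ℕ} (hn : |n| ≤ τ) (hn' : |n'| ≤ τ) (hn'' : |n''| ≤ τ) (hm : |m| ≤ τ)
    (hm' : |m'| ≤ τ) (hm'' : |m''| ≤ τ) :
    |(m' * n'' - m'' * n') * n| ≤ 2 * (τ : ℤ) ^ 3 ∧ |(m' * n - m * n') * n''| ≤ 2 * (τ : ℤ) ^ 3 := by
  have h0 : (0 : ℤ) ≤ τ := by positivity
  have hmul : ∀ {x y X Y : ℤ}, |x| ≤ X → |y| ≤ Y → |x * y| ≤ X * Y := by
    intro x y X Y hx hy
    rw [abs_mul]
    exact mul_le_mul hx hy (abs_nonneg _) ((abs_nonneg _).trans hx)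
  constructor
  · have h1 : |m' * n'' - m'' * n'| ≤ (τ : ℤ) * τ + τ * τ :=
      (abs_sub _ _).trans (add_le_add (hmul hm' hn'') (hmul hm'' hn'))
    have h2 := hmul h1 hn
    calc _ ≤ ((τ : ℤ) * τ + τ * τ) * τ := h2
      _ = _ := by ring
  · have h1 : |m' * n - m * n'| ≤ (τ : ℤ) * τ + τ * τ :=
      (abs_sub _ _).trans (add_le_add (hmul hm' hn) (hmul hm hn'))
    have h2 := hmul h1 hn''
    calc _ ≤ ((τ : ℤ) * τ + τ * τ) * τ := h2
      _ = _ := by ring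

/-- EXTR. -/
theorem extr {G : Type} [Group G] [Finite G] {N C : Subgroup G} {eps : G →* ℤˣ} {k P : ℕ} (h : GN N C eps k P)
    {A : Set G} (inv : ∀ s ∈ A, s * s = 1) (neg : ∀ s ∈ A, eps s = -1) {x₀ y₀ : G} (hx₀ : x₀ ∈ A) (hy₀ : y₀ ∈ A)
    (hne : x₀ ≠ y₀) {τ : ℕ} (hrel : ∀ x ∈ A, ∀ y ∈ A, ∀ z ∈ A, RelN N C x y z τ)
    (hP : ∀ x ∈ A, ∀ y ∈ A, x ≠ y → P ∣ orderOf (x * y)) (hm : ∀ p ∈ (Nat.card N).primeFactors, 2 * τ < p) :
    ∃ a ∈ A, ∃ b ∈ A, a ≠ b ∧ ∀ s ∈ A, s ≠ a → s ≠ b → ∃ i e : ℕ, 0 < i ∧ i < e ∧ e ≤ 2 * τ ^ 3 ∧ i.Coprime e ∧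
      ∀ p ∈ (Nat.card N).primeFactors, ¬ p ∣ Nat.card C → ¬ p ∣ orderOf ((a * s) ^ e * ((a * b) ^ i)⁻¹) := by
  classical
  have hii : ∀ s ∈ A, s⁻¹ = s := fun s hs => inv_eq_of_mul_eq_one_right (inv s hs)
  let Q : ℕ → Prop := fun p => p ∈ (Nat.card N).primeFactors ∧ ¬ p ∣ Nat.card C
  have hQp : ∀ p, Q p → p.Prime := fun p hp => Nat.prime_of_mem_primeFactors hp.1
  have hQN : ∀ p, Q p → p ∣ Nat.card N := fun p hp => Nat.dvd_of_mem_primeFactors hp.1
  have hQP : Q P := ⟨Nat.mem_primeFactors.2 ⟨h.prime, h.dvd, Nat.card_pos.ne'⟩, h.ndvd⟩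
  have hφ : ∀ p, Q p → ∃ φ : G → ZMod p, (∀ x y, eps x = 1 → eps y = 1 → φ (x * y) = φ x + φ y) ∧
      ∀ x, eps x = 1 → (φ x = 0 ↔ ¬ p ∣ orderOf x) :=
    fun p hp => SQD.H24.exists_phi h (hQp p hp) (hQN p hp) hp.2
  choose! φ φmul φzero using hφ
  have heven : ∀ x ∈ A, ∀ y ∈ A, eps (x * y) = 1 := fun x hx y hy => by
    rw [map_mul, neg x hx, neg y hy]; simp
  have φone : ∀ p, Q p → φ p 1 = 0 := by
    intro p hp
    have h1 := φmul p hp 1 1 (map_one eps) (map_one eps)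
    rw [mul_one] at h1
    linear_combination -h1
  have φinv : ∀ p, Q p → ∀ x, eps x = 1 → φ p x⁻¹ = - φ p x := by
    intro p hp x hx
    have h1 := φmul p hp x x⁻¹ hx (by rw [map_inv, hx, inv_one])
    rw [mul_inv_cancel, φone p hp] at h1
    linear_combination -h1
  have φpow : ∀ p, Q p → ∀ x, eps x = 1 → ∀ m : ℕ, φ p (x ^ m) = m * φ p x := by
    intro p hp x hx m
    induction m with
    | zero => simp [φone p hp]
    | succ m ih =>
      rw [pow_succ, φmul p hp _ _ (by rw [map_pow, hx, one_pow]) hx, ih]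
      push_cast
      ring
  have φzpow : ∀ p, Q p → ∀ x, eps x = 1 → ∀ n : ℤ, φ p (x ^ n) = n * φ p x := by
    intro p hp x hx n
    rcases Int.eq_nat_or_neg n with ⟨m, rfl | rfl⟩
    · rw [zpow_natCast, φpow p hp x hx]; simp
    · rw [zpow_neg, zpow_natCast, φinv p hp _ (by rw [map_pow, hx, one_pow]), φpow p hp x hx]
      push_cast
      ring
  -- the height of a letter relative to `x₀`
  have hη : ∀ p, Q p → ∀ x ∈ A, ∀ y ∈ A, φ p (x * y) = φ p (x * x₀) - φ p (y * x₀) := by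
    intro p hp x hx y hy
    have e : x * y = (x * x₀) * (y * x₀)⁻¹ := by
      rw [mul_inv_rev, hii y hy, hii x₀ hx₀]
      calc x * y = x * (x₀ * x₀) * y := by rw [inv x₀ hx₀, mul_one]
        _ = x * x₀ * (x₀ * y) := by simp only [mul_assoc]
    rw [e, φmul p hp _ _ (heven x hx x₀ hx₀) (by rw [map_inv, heven y hy x₀ hx₀, inv_one]),
      φinv p hp _ (heven y hy x₀ hx₀)]
    ring
  have hx0 : ∀ p, Q p → φ p (x₀ * x₀) = 0 := fun p hp => by rw [inv x₀ hx₀]; exact φone p hp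
  -- every letter
  have hL : ∀ f : G, ∃ m n : ℤ, f ∈ A → n ≠ 0 ∧ |m| ≤ τ ∧ |n| ≤ τ ∧
      ∀ p, Q p → (n : ZMod p) * φ p (f * x₀) = m * φ p (y₀ * x₀) := by
    intro f
    by_cases hf : f ∈ A
    · obtain ⟨m, n, h1, h2, h3, h4⟩ := hrel y₀ hy₀ x₀ hx₀ f hf
      have e1 := heven y₀ hy₀ x₀ hx₀
      have e2 := heven f hf x₀ hx₀
      have h5 : ∀ p, Q p → (m : ZMod p) * φ p (y₀ * x₀) + n * φ p (f * x₀) = 0 := by
        intro p hp
        have h6 := (φzero p hp _ (by rw [map_mul, map_zpow, map_zpow, e1, e2, one_zpow, one_zpow, one_mul])).2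
          (h4 p hp.1 hp.2)
        rwa [φmul p hp _ _ (by rw [map_zpow, e1, one_zpow]) (by rw [map_zpow, e2, one_zpow]), φzpow p hp _ e1,
          φzpow p hp _ e2] at h6
      refine ⟨-m, n, fun _ => ⟨?_, by rw [abs_neg]; exact h2, h3, fun p hp => ?_⟩⟩
      · rintro rfl
        have hm0 : m ≠ 0 := by tauto
        have hfP : Fact P.Prime := ⟨h.prime⟩
        have h6 := h5 P hQP
        rw [Int.cast_zero, zero_mul, add_zero] at h6
        rcases mul_eq_zero.1 h6 with h7 | h7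
        · exact int_ne_zero hm0 h2 (by have := hm P hQP.1; omega) h7
        · exact (φzero P hQP _ e1).1 h7 (hP y₀ hy₀ x₀ hx₀ (Ne.symm hne))
      · push_cast
        linear_combination h5 p hp
    · exact ⟨0, 1, fun hf' => absurd hf' hf⟩
  choose m n hmn using hL
  have hn0 : ∀ f ∈ A, n f ≠ 0 := fun f hf => (hmn f hf).1
  -- the rational heights
  let r : G → ℚ := fun f => (m f : ℚ) / n f
  -- different letters have different rational heights
  have hinj : ∀ f ∈ A, ∀ g ∈ A, r f = r g → f = g := by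
    intro f hf g hg hr
    by_contra hfg
    obtain ⟨f1, f2, f3, f4⟩ := hmn f hf
    obtain ⟨g1, g2, g3, g4⟩ := hmn g hg
    have hfP : Fact P.Prime := ⟨h.prime⟩
    have hPτ := hm P hQP.1
    have b1 := int_ne_zero f1 f3 (show τ < P by omega)
    have b2 := int_ne_zero g1 g3 (show τ < P by omega)
    have h1 : m f * n g = m g * n f := by
      have h2 : (m f : ℚ) / n f = (m g : ℚ) / n g := hr
      rw [div_eq_div_iff (by exact_mod_cast f1) (by exact_mod_cast g1)] at h2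
      exact_mod_cast h2
    have h2 : ((m f * n g : ℤ) : ZMod P) = ((m g * n f : ℤ) : ZMod P) := by rw [h1]
    push_cast at h2
    have h3 : ((n f : ℤ) : ZMod P) * n g * φ P (f * g) = 0 := by
      rw [hη P hQP f hf g hg]
      linear_combination (n g : ZMod P) * f4 P hQP - (n f : ZMod P) * g4 P hQP + φ P (y₀ * x₀) * h2
    rcases mul_eq_zero.1 h3 with h4 | h4
    · exact mul_ne_zero b1 b2 h4
    · exact (φzero P hQP _ (heven f hf g hg)).1 h4 (hP f hf g hg hfg)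
  -- the extreme letters
  have hfin : A.Finite := Set.toFinite A
  obtain ⟨a, haA, ha⟩ := Set.exists_min_image A r hfin ⟨x₀, hx₀⟩
  obtain ⟨b, hbA, hb⟩ := Set.exists_max_image A r hfin ⟨x₀, hx₀⟩
  have hab : a ≠ b := by
    rintro rfl
    apply hne
    have h1 : ∀ f ∈ A, r f = r a := fun f hf => le_antisymm (hb f hf) (ha f hf)
    exact hinj x₀ hx₀ y₀ hy₀ ((h1 x₀ hx₀).trans (h1 y₀ hy₀).symm)
  refine ⟨a, haA, b, hbA, hab, fun s hs hsa hsb => ?_⟩
  obtain ⟨s1, s2, s3, s4⟩ := hmn s hs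
  obtain ⟨a1, a2, a3, a4⟩ := hmn a haA
  obtain ⟨b1, b2, b3, b4⟩ := hmn b hbA
  have has : r a < r s := lt_of_le_of_ne (ha s hs) fun h1 => hsa (hinj s hs a haA h1.symm)
  have hsb' : r s < r b := lt_of_le_of_ne (hb s hs) fun h1 => hsb (hinj s hs b hbA h1)
  set ρ : ℚ := (r s - r a) / (r b - r a) with hρ
  have hba : 0 < r b - r a := by linarith
  have hρ0 : 0 < ρ := div_pos (by linarith) hba
  have hρ1 : ρ < 1 := (div_lt_one hba).2 (by linarith)
  have s1' : (n s : ℚ) ≠ 0 := by exact_mod_cast s1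
  have a1' : (n a : ℚ) ≠ 0 := by exact_mod_cast a1
  have b1' : (n b : ℚ) ≠ 0 := by exact_mod_cast b1
  set X : ℤ := (m s * n a - m a * n s) * n b with hX
  set Y : ℤ := (m b * n a - m a * n b) * n s with hY
  have e1 : r s - r a = ((m s * n a - m a * n s : ℤ) : ℚ) / (n s * n a) := by
    show (m s : ℚ) / n s - (m a : ℚ) / n a = _
    push_cast
    field_simp
  have e2 : r b - r a = ((m b * n a - m a * n b : ℤ) : ℚ) / (n b * n a) := by
    show (m b : ℚ) / n b - (m a : ℚ) / n a = _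
    push_cast
    field_simp
  have hY0 : (Y : ℚ) ≠ 0 := by
    intro h0
    have h1 : (m b * n a - m a * n b : ℤ) * n s = 0 := by exact_mod_cast h0
    rcases mul_eq_zero.1 h1 with h2 | h2
    · rw [e2, h2] at hba
      simp at hba
    · exact s1 h2
  have hρXY : ρ = (X : ℚ) / Y := by
    rw [hρ, e1, e2, hX, hY]
    have h1 : ((m b * n a - m a * n b : ℤ) : ℚ) ≠ 0 := by
      intro h0
      rw [e2, h0] at hba
      simp at hba
    push_cast at h1 ⊢
    field_simp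
  have hXY : (X : ℤ) * ρ.den = ρ.num * Y := by
    have h1 : (ρ.num : ℚ) / ρ.den = (X : ℚ) / Y := by rw [Rat.num_div_den, hρXY]
    rw [div_eq_div_iff (by exact_mod_cast ρ.den_nz) hY0] at h1
    have h2 : (ρ.num : ℚ) * Y = X * ρ.den := h1
    exact_mod_cast h2.symm
  have hnum : 0 < ρ.num := Rat.num_pos.2 hρ0
  have hlt : ρ.num < ρ.den := by
    have h1 : ρ * ρ.den = ρ.num := Rat.mul_den_eq_num ρ
    have h2 : (0 : ℚ) < ρ.den := by exact_mod_cast ρ.den_pos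
    have h3 : ρ * ρ.den < 1 * ρ.den := mul_lt_mul_of_pos_right hρ1 h2
    rw [h1, one_mul] at h3
    exact_mod_cast h3
  have hYb : |Y| ≤ 2 * (τ : ℤ) ^ 3 := (ratio_bound (m := m a) (n := n a) (m' := m b) (n' := n b) (m'' := m a)
    (n'' := n s) a3 b3 s3 a2 b2 a2).2
  refine ⟨ρ.num.toNat, ρ.den, by omega, by omega, ?_, ?_, fun p hp hpC => ?_⟩
  · -- the denominator divides `Y`
    have h1 : (ρ.den : ℤ) ∣ ρ.num * Y := ⟨X, by rw [← hXY]; ring⟩
    have h2 : IsCoprime (ρ.den : ℤ) ρ.num := by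
      rw [Int.isCoprime_iff_nat_coprime, Int.natAbs_natCast]
      exact ρ.reduced.symm
    have h3 : (ρ.den : ℤ) ∣ Y := h2.dvd_of_dvd_mul_left h1
    have h4 : Y ≠ 0 := by exact_mod_cast hY0
    have h5 : (ρ.den : ℤ) ≤ |Y| := Int.le_of_dvd (abs_pos.2 h4) ((dvd_abs _ _).2 h3)
    have h6 : (ρ.den : ℤ) ≤ 2 * (τ : ℤ) ^ 3 := h5.trans hYb
    exact_mod_cast h6
  · have h1 := ρ.reduced
    have h2 : ρ.num.natAbs = ρ.num.toNat := by omega
    rwa [h2] at h1
  · have hp' : Q p := ⟨hp, hpC⟩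
    have hfp : Fact p.Prime := ⟨hQp p hp'⟩
    have hpτ := hm p hp
    have c1 := int_ne_zero s1 s3 (show τ < p by omega)
    have c2 := int_ne_zero a1 a3 (show τ < p by omega)
    have c3 := int_ne_zero b1 b3 (show τ < p by omega)
    have ea := heven a haA s hs
    have eb := heven a haA b hbA
    refine (φzero p hp' _ (by rw [map_mul, map_inv, map_pow, map_pow, ea, eb]; simp)).1 ?_
    rw [φmul p hp' _ _ (by rw [map_pow, ea, one_pow]) (by rw [map_inv, map_pow, eb, one_pow, inv_one]),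
      φinv p hp' _ (by rw [map_pow, eb, one_pow]), φpow p hp' _ ea, φpow p hp' _ eb, hη p hp' a haA s hs,
      hη p hp' a haA b hbA]
    have e3 : ((ρ.num.toNat : ℕ) : ZMod p) = ((ρ.num : ℤ) : ZMod p) := by
      have h1 : ((ρ.num.toNat : ℕ) : ℤ) = ρ.num := by omega
      rw [← h1]
      simp
    rw [e3]
    have e4 : ((X * ρ.den : ℤ) : ZMod p) = ((ρ.num * Y : ℤ) : ZMod p) := by rw [hXY]
    rw [hX, hY] at e4
    push_cast at e4
    have e5 : ((n s : ℤ) : ZMod p) * n a * n b *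
        ((ρ.den : ZMod p) * (φ p (a * x₀) - φ p (s * x₀)) + -((ρ.num : ZMod p) * (φ p (a * x₀) - φ p (b * x₀)))) = 0 := by
      have h1 := s4 p hp'
      have h2 := a4 p hp'
      have h3 := b4 p hp'
      linear_combination (ρ.den : ZMod p) * (n s * n b) * h2 - (ρ.den : ZMod p) * (n a * n b) * h1 -
        (ρ.num : ZMod p) * (n s * n b) * h2 + (ρ.num : ZMod p) * (n s * n a) * h3 - φ p (y₀ * x₀) * e4
    exact (mul_eq_zero.1 e5).resolve_left (mul_ne_zero (mul_ne_zero c1 c2) c3)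

/-- An element of `N` whose order is prime to all primes outside of `|C|` lies in `C`. -/
theorem mem_C {G : Type} [Group G] [Finite G] {N C : Subgroup G} {eps : G →* ℤˣ} {k P : ℕ} (h : GN N C eps k P) {y : G}
    (hy : y ∈ N) (hp : ∀ p ∈ (Nat.card N).primeFactors, ¬ p ∣ Nat.card C → ¬ p ∣ orderOf y) : y ∈ C := by
  have hCn := h.Cn
  have h1 : orderOf y ∣ Nat.card N := by
    have h2 : orderOf (⟨y, hy⟩ : N) ∣ Nat.card N := orderOf_dvd_natCard _
    rwa [Subgroup.orderOf_mk] at h2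
  have hsq : Squarefree (orderOf y) := h.Nsq.squarefree_of_dvd h1
  have h2 : orderOf y ∣ Nat.card C := by
    rw [← Nat.prod_primeFactors_of_squarefree hsq]
    refine Finset.prod_primes_dvd _ (fun p hp' => (Nat.prime_of_mem_primeFactors hp').prime) fun p hp' => ?_
    by_contra h3
    have h4 := Nat.dvd_of_mem_primeFactors hp'
    exact hp p (Nat.mem_primeFactors.2 ⟨Nat.prime_of_mem_primeFactors hp', h4.trans h1, Nat.card_pos.ne'⟩) h3 h4
  have h3 : orderOf (QuotientGroup.mk' C y) ∣ orderOf y := orderOf_map_dvd _ _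
  have h4 : orderOf (QuotientGroup.mk' C y) ∣ C.index := orderOf_dvd_natCard _
  have h5 : orderOf (QuotientGroup.mk' C y) = 1 := by
    have h6 := Nat.dvd_gcd (h3.trans h2) h4
    rw [h.Ccop] at h6
    exact Nat.dvd_one.1 h6
  rw [orderOf_eq_one_iff] at h5
  exact (QuotientGroup.eq_one_iff y).1 h5

/-- The relation modulo `C`. -/
theorem rel_C {G : Type} [Group G] [Finite G] {N C : Subgroup G} {eps : G →* ℤˣ} {k P : ℕ} (h : GN N C eps k P)
    {x y : G} (hx : eps x = 1) (hy : eps y = 1) (m n : ℕ)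
    (hp : ∀ p ∈ (Nat.card N).primeFactors, ¬ p ∣ Nat.card C → ¬ p ∣ orderOf (x ^ m * (y ^ n)⁻¹)) :
    x ^ (m * k) * (y ^ (n * k))⁻¹ ∈ C := by
  have hNn := h.Nn
  have e1 : eps (x ^ m) = 1 := by rw [map_pow, hx, one_pow]
  have e2 : eps (y ^ n)⁻¹ = 1 := by rw [map_inv, map_pow, hy, one_pow, inv_one]
  have h1 := SQ5.N.pow_mod_C h _ _ e1 e2
  have h2 : x ^ (m * k) * (y ^ (n * k))⁻¹ = (x ^ m * (y ^ n)⁻¹) ^ k *
      (((x ^ m * (y ^ n)⁻¹) ^ k)⁻¹ * ((x ^ m) ^ k * ((y ^ n)⁻¹) ^ k)) := by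
    rw [mul_inv_cancel_left, pow_mul, pow_mul, inv_pow]
  have h3 : (x ^ m * (y ^ n)⁻¹) ^ k ∈ C := by
    refine mem_C h ?_ fun p hp1 hp2 h4 => hp p hp1 hp2 (h4.trans (orderOf_pow_dvd k))
    have := pow_index_mem N (x ^ m * (y ^ n)⁻¹)
    rwa [h.idx] at this
  rw [h2]
  exact C.mul_mem h3 h1

/-- EXTR. -/
theorem extrS : NA.ExtrS := by
  intro G _ _ N C eps k P A τ h gen neg inv hxy hτ hbig hrel hP
  obtain ⟨x₀, hx₀, y₀, hy₀, hne⟩ := hxy
  have hk : 0 < k := by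
    rw [← h.idx]
    exact Nat.pos_of_ne_zero N.index_ne_zero_of_finite
  have hm : ∀ p ∈ (Nat.card N).primeFactors, 2 * τ < p := by
    intro p hp
    have h1 := hbig p hp
    have h2 : τ ≤ 2 * τ ^ 3 := by
      have := Nat.le_self_pow (n := 3) (by norm_num) τ
      omega
    have h3 : 2 * τ ^ 3 ≤ (2 * τ ^ 3) ^ 9 := Nat.le_self_pow (by norm_num) _
    have h4 : 36 * (2 * τ ^ 3) ^ 9 ≤ 36 * (2 * τ ^ 3) ^ 9 * k := Nat.le_mul_of_pos_right _ hk
    omega
  obtain ⟨a, haA, b, hbA, hab, hs⟩ := extr h inv neg hx₀ hy₀ hne hrel hP hm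
  have hex : ∀ s : G, ∃ i e : ℕ, s ∈ A → s ≠ a → s ≠ b → 0 < i ∧ i < e ∧ e ≤ 2 * τ ^ 3 ∧
      (a * s) ^ (e * k) * ((a * b) ^ (i * k))⁻¹ ∈ C := by
    intro s
    by_cases hc : s ∈ A ∧ s ≠ a ∧ s ≠ b
    · obtain ⟨i, e, h1, h2, h3, -, h4⟩ := hs s hc.1 hc.2.1 hc.2.2
      refine ⟨i, e, fun _ _ _ => ⟨h1, h2, h3, rel_C h ?_ ?_ e i h4⟩⟩
      · rw [map_mul, neg a haA, neg s hc.1]; simp
      · rw [map_mul, neg a haA, neg b hbA]; simp
    · exact ⟨0, 0, fun h1 h2 h3 => absurd ⟨h1, h2, h3⟩ hc⟩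
  choose num den hnd using hex
  exact ⟨a, b, num, den, ⟨h, gen, neg, inv, haA, hbA, hab, hP a haA b hbA hab, by positivity, hbig, fun s h1 h2 h3 =>
    hnd s h1 h2 h3⟩⟩

end Pool.Agent.Lib.MP_688fd0_co.SQ5.H49

namespace Pool.Agent.Lib.MP_688fd0_co.SQ5.NA

theorem extr : ExtrS := H49.extrS

end Pool.Agent.Lib.MP_688fd0_co.SQ5.NA
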