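import Pool.Agent.Lib.MP_688fd0_co.SQ5.H49.ClassX

/-!
At most two lines: all letters are involutions, `N` is a cyclic normal subgroup whose order is prime to its index, and
`⟨w⟩ N` has index at most two in the kernel of `eps` (`w` is inverted by a letter). An application of THEOREM X.
-/

set_option autoImplicit false

namespace Pool.Agent.Lib.MP_688fd0_co.SQ5.H49

open Pool.Agent.Lib.MP_688fd0_co.OSF Pool.Agent.Lib.MP_688fd0_co.NC Pool.Agent.Lib.MP_688fd0_co.SQ5

universe u

variable {G : Type u} [Group G]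

/-- At most two lines. -/
theorem twoLines [Finite G] (A : Set G) (eps : G →* ℤˣ) (N : Subgroup G) [hNn : N.Normal] (hcyc : IsCyclic N)
    (hco : (Nat.card N).Coprime N.index) (hNe : N ≤ eps.ker) (hne : A.Nonempty) (hinv : ∀ a ∈ A, a * a = 1)
    (hneg : ∀ a ∈ A, eps a = -1) (hgen : Subgroup.closure A = ⊤) (w : G) (hwe : eps w = 1)
    (hidx : (Subgroup.zpowers w ⊔ N).relIndex eps.ker ≤ 2) {a : G} (ha : a ∈ A) (haw : a * w * a⁻¹ = w⁻¹) : Lst A := by
  classical
  -- `N` is commutative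
  have hNab : ∀ x ∈ N, ∀ y ∈ N, x * y = y * x := by
    intro x hx y hy
    obtain ⟨z, hz⟩ := hcyc.exists_generator
    obtain ⟨i, hi⟩ := hz ⟨x, hx⟩
    obtain ⟨j, hj⟩ := hz ⟨y, hy⟩
    have hi' : (z : G) ^ i = x := congrArg Subtype.val hi
    have hj' : (z : G) ^ j = y := congrArg Subtype.val hj
    rw [← hi', ← hj', ← zpow_add, ← zpow_add, add_comm]
  obtain ⟨M, hM⟩ : ∃ M, M = Subgroup.zpowers w ⊔ N := ⟨_, rfl⟩
  rw [← hM] at hidx
  have hwM : w ∈ M := by rw [hM]; exact (le_sup_left : Subgroup.zpowers w ≤ _) (Subgroup.mem_zpowers w)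
  have hNM : N ≤ M := by rw [hM]; exact le_sup_right
  have hMe : M ≤ eps.ker := by
    rw [hM]
    exact sup_le (by rw [Subgroup.zpowers_le]; exact hwe) hNe
  have hMel : ∀ y ∈ M, ∃ n ∈ N, ∃ i : ℤ, y = n * w ^ i := by
    intro y hy
    rw [hM, sup_comm] at hy
    have h1 : y ∈ ((N ⊔ Subgroup.zpowers w : Subgroup G) : Set G) := hy
    rw [Subgroup.normal_mul, Set.mem_mul] at h1
    obtain ⟨n, hn, v, ⟨i, hv⟩, rfl⟩ := h1
    exact ⟨n, hn, i, by rw [← hv]⟩
  -- the index
  have hrel : M.relIndex eps.ker = 1 ∨ M.relIndex eps.ker = 2 := by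
    have h0 : M.relIndex eps.ker ≠ 0 := Subgroup.index_ne_zero_of_finite
    omega
  have hpar : ∀ x y : G, eps x = 1 → eps y = 1 → ((x ∈ M ↔ y ∈ M) → x * y ∈ M) := by
    intro x y hx hy hxy
    rcases hrel with h1 | h1
    · have h2 : eps.ker ≤ M := Subgroup.relIndex_eq_one.1 h1
      exact M.mul_mem (h2 hx) (h2 hy)
    · have h2 : (M.subgroupOf eps.ker).index = 2 := h1
      have h3 := (Subgroup.mul_mem_iff_of_index_two h2 (a := ⟨x, hx⟩) (b := ⟨y, hy⟩))
      rw [Subgroup.mem_subgroupOf, Subgroup.mem_subgroupOf, Subgroup.mem_subgroupOf] at h3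
      exact h3.2 hxy
  have hMg : ∀ g : G, eps g = 1 → ∀ x ∈ M, g * x * g⁻¹ ∈ M := by
    intro g hg x hx
    rcases hrel with h1 | h1
    · have h2 : eps.ker ≤ M := Subgroup.relIndex_eq_one.1 h1
      exact M.mul_mem (M.mul_mem (h2 hg) hx) (M.inv_mem (h2 hg))
    · have h2 : (M.subgroupOf eps.ker).index = 2 := h1
      have h3 : (M.subgroupOf eps.ker).Normal := Subgroup.normal_of_index_eq_two h2
      have h4 := h3.conj_mem ⟨x, hMe hx⟩ (Subgroup.mem_subgroupOf.2 hx) ⟨g, hg⟩
      exact Subgroup.mem_subgroupOf.1 h4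
  have hMa : ∀ x ∈ M, a * x * a⁻¹ ∈ M := by
    intro x hx
    obtain ⟨n, hn, i, rfl⟩ := hMel x hx
    have h1 : a * (n * w ^ i) * a⁻¹ = (a * n * a⁻¹) * (a * w * a⁻¹) ^ i := by
      rw [conj_zpow]; group
    rw [h1, haw]
    exact M.mul_mem (hNM (hNn.conj_mem n hn a)) (M.zpow_mem (M.inv_mem hwM) i)
  have hea := hneg a ha
  have hai : a⁻¹ = a := by rw [inv_eq_iff_mul_eq_one]; exact hinv a ha
  have hMn : M.Normal := ⟨fun x hx g => by
    rcases Int.units_eq_one_or (eps g) with h1 | h1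
    · exact hMg g h1 x hx
    · have h2 : eps (g * a⁻¹) = 1 := by rw [map_mul, map_inv, h1, hea]; decide
      have h3 := hMg _ h2 _ (hMa x hx)
      have h4 : g * a⁻¹ * (a * x * a⁻¹) * (g * a⁻¹)⁻¹ = g * x * g⁻¹ := by group
      rwa [h4] at h3⟩
  have hMsq : ∀ g : G, g * g ∈ M := by
    intro g
    rcases Int.units_eq_one_or (eps g) with h1 | h1
    · exact hpar g g h1 h1 Iff.rfl
    · have h2 : eps (a * g) = 1 := by rw [map_mul, h1, hea]; decide
      have h3 : eps (g * a⁻¹) = 1 := by rw [map_mul, map_inv, h1, hea]; decide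
      have h4 : g * a⁻¹ ∈ M ↔ a * g ∈ M := by
        constructor
        · intro h
          have h5 := hMn.conj_mem _ h a
          have h6 : a * (g * a⁻¹) * a⁻¹ = a * g * (a * a)⁻¹ := by group
          rw [h6, hinv a ha, inv_one, mul_one] at h5
          exact h5
        · intro h
          have h5 := hMn.conj_mem _ h a⁻¹
          have h6 : a⁻¹ * (a * g) * a⁻¹⁻¹ = g * a⁻¹ * (a * a) := by group
          rw [h6, hinv a ha, mul_one] at h5
          exact h5
      have h5 := hpar _ _ h3 h2 h4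
      have h6 : g * a⁻¹ * (a * g) = g * g := by group
      rwa [h6] at h5
  -- the centraliser of `N`
  have hCn : (Yc N eps).Normal := Yc_normal
  have hcomm : ∀ x y : G ⧸ Yc N eps, x * y = y * x := by
    intro x y
    induction x using QuotientGroup.induction_on with
    | H x =>
      induction y using QuotientGroup.induction_on with
      | H y =>
        rw [← QuotientGroup.mk_mul, ← QuotientGroup.mk_mul, QuotientGroup.eq]
        exact Yc_comm hcyc x y
  have hCsq : ∀ g : G, g * g ∈ Yc N eps := by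
    intro g
    rw [← QuotientGroup.eq_one_iff, QuotientGroup.mk_mul]
    have hg : g ∈ Subgroup.closure A := by rw [hgen]; trivial
    induction hg using Subgroup.closure_induction with
    | mem x hx => rw [← QuotientGroup.mk_mul, hinv x hx]; rfl
    | one => rw [← QuotientGroup.mk_mul, mul_one]; rfl
    | mul x y _ _ hx hy =>
      rw [QuotientGroup.mk_mul]
      calc (x : G ⧸ Yc N eps) * y * (x * y) = (x * (y * x)) * y := by group
        _ = (x * (x * y)) * y := by rw [hcomm y x]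
        _ = (x * x) * (y * y) := by group
        _ = 1 := by rw [hx, hy, mul_one]
    | inv x _ hx =>
      rw [QuotientGroup.mk_inv, ← mul_inv_rev, hx, inv_one]
  -- the subgroup `Y`
  let Y : Subgroup G := Yc N eps ⊓ M
  have hYn : Y.Normal := ⟨fun x hx g => ⟨hCn.conj_mem x hx.1 g, hMn.conj_mem x hx.2 g⟩⟩
  have hYsq : ∀ g : G, g * g ∈ Y := fun g => ⟨hCsq g, hMsq g⟩
  have hYcomm : ∀ x y : G ⧸ Y, x * y = y * x := by
    have hsq : ∀ x : G ⧸ Y, x * x = 1 := by
      intro x
      induction x using QuotientGroup.induction_on with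
      | H x =>
        rw [← QuotientGroup.mk_mul]
        exact (QuotientGroup.eq_one_iff _).2 (hYsq x)
    have hinv' : ∀ x : G ⧸ Y, x⁻¹ = x := fun x => by rw [inv_eq_iff_mul_eq_one]; exact hsq x
    intro x y
    rw [← hinv' (x * y), mul_inv_rev, hinv', hinv']
  let _ : CommGroup (G ⧸ Y) := { (inferInstance : Group (G ⧸ Y)) with mul_comm := hYcomm }
  have hker : ∀ y : G, QuotientGroup.mk' Y y = 1 ↔ y ∈ Y := fun y => QuotientGroup.eq_one_iff y
  have hcen : ∀ y ∈ Y, ∀ n ∈ N, n * y = y * n := fun y hy n hn => (mem_Yc.1 hy.1).1 n hn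
  have hYab : ∀ x ∈ Y, ∀ y ∈ Y, x * y = y * x := by
    intro x hx y hy
    obtain ⟨n, hn, i, hx'⟩ := hMel x hx.2
    obtain ⟨n', hn', j, hy'⟩ := hMel y hy.2
    have h1 : ∀ m ∈ N, m * w ^ i = w ^ i * m := by
      intro m hm
      have h2 := hcen x hx m hm
      rw [hx'] at h2
      have h3 : m * w ^ i = n⁻¹ * (m * (n * w ^ i)) := by
        rw [← mul_assoc m n, hNab m hm n hn, mul_assoc n m, inv_mul_cancel_left]
      rw [h3, h2]
      group
    have h2 : ∀ m ∈ N, m * w ^ j = w ^ j * m := by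
      intro m hm
      have h2 := hcen y hy m hm
      rw [hy'] at h2
      have h3 : m * w ^ j = n'⁻¹ * (m * (n' * w ^ j)) := by
        rw [← mul_assoc m n', hNab m hm n' hn', mul_assoc n' m, inv_mul_cancel_left]
      rw [h3, h2]
      group
    rw [hx', hy']
    calc n * w ^ i * (n' * w ^ j) = n * (w ^ i * n') * w ^ j := by group
      _ = n * (n' * w ^ i) * w ^ j := by rw [h1 n' hn']
      _ = (n * n') * (w ^ j * w ^ i) := by rw [mul_assoc, mul_assoc, ← zpow_add, mul_assoc, ← zpow_add, add_comm]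
      _ = (n' * n) * (w ^ j * w ^ i) := by rw [hNab n hn n' hn']
      _ = n' * (n * w ^ j) * w ^ i := by group
      _ = n' * (w ^ j * n) * w ^ i := by rw [h2 n hn]
      _ = n' * w ^ j * (n * w ^ i) := by group
  have htriv : ∀ c ∈ N, c ^ N.index = 1 → c = 1 := by
    intro c hc h1
    have h2 : c ^ Nat.card N = 1 := by
      have h3 : (⟨c, hc⟩ : N) ^ Nat.card N = 1 := pow_card_eq_one'
      exact congrArg Subtype.val h3
    have h4 := orderOf_dvd_of_pow_eq_one h1
    have h5 := orderOf_dvd_of_pow_eq_one h2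
    have h6 : orderOf c ∣ 1 := by
      rw [← hco]
      exact Nat.dvd_gcd h5 h4
    exact orderOf_eq_one_iff.1 (Nat.dvd_one.1 h6)
  have hpi : ∀ y : G, y ^ N.index ∈ N := fun y => Subgroup.pow_index_mem N y
  -- the complement
  let Y0 : Subgroup G :=
    { carrier := {y | y ∈ Y ∧ y ^ N.index = 1}
      mul_mem' := fun {x y} hx hy => ⟨Y.mul_mem hx.1 hy.1, by
        have h1 : Commute x y := hYab x hx.1 y hy.1
        rw [h1.mul_pow, hx.2, hy.2, mul_one]⟩
      one_mem' := ⟨Y.one_mem, one_pow _⟩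
      inv_mem' := fun {x} hx => ⟨Y.inv_mem hx.1, by rw [inv_pow, hx.2, inv_one]⟩ }
  have hY0n : Y0.Normal := ⟨fun x hx g => ⟨hYn.conj_mem x hx.1 g, by rw [_root_.conj_pow, hx.2, mul_one, mul_inv_cancel]⟩⟩
  have hmkM : ∀ y ∈ M, (QuotientGroup.mk' N y) ∈ Subgroup.zpowers (QuotientGroup.mk' N w) := by
    intro y hy
    obtain ⟨n, hn, i, rfl⟩ := hMel y hy
    rw [map_mul, map_zpow, (QuotientGroup.eq_one_iff n).2 hn |> fun h => (show QuotientGroup.mk' N n = 1 from h), one_mul]
    exact Subgroup.zpow_mem _ (Subgroup.mem_zpowers _) i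
  have hY0c : IsCyclic Y0 := by
    let f : Y0 →* Subgroup.zpowers (QuotientGroup.mk' N w) :=
      ((QuotientGroup.mk' N).comp Y0.subtype).codRestrict _ fun y => hmkM y y.2.1.2
    refine isCyclic_of_injective f ?_
    rw [injective_iff_map_eq_one]
    intro y hy
    have h1 : QuotientGroup.mk' N (y : G) = 1 := congrArg Subtype.val hy
    have h2 : (y : G) ∈ N := (QuotientGroup.eq_one_iff _).1 h1
    exact Subtype.ext (htriv _ h2 y.2.2)
  refine lstX (pi := QuotientGroup.mk' Y) (eps := eps) ⟨?_, ?_, ?_, ?_, hinv, hneg⟩ hgen hne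
  · intro g
    rw [← map_mul]
    exact (hker _).2 (hYsq g)
  · intro x y hx hy
    exact hYab x ((hker x).1 hx) y ((hker y).1 hy)
  · intro y hy g
    have hyY := (hker y).1 hy
    obtain ⟨k, hk⟩ := conj_exp (C := N) hcyc g
    have h1 : g * y ^ N.index * g⁻¹ ∈ Subgroup.zpowers y := by
      rw [hk _ (hpi y)]
      exact Subgroup.zpow_mem _ (Subgroup.pow_mem _ (Subgroup.mem_zpowers y) _) _
    set z := y ^ Nat.card N with hz
    have hzm : z ^ N.index = 1 := by
      rw [hz, ← pow_mul, mul_comm, pow_mul]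
      have h3 : (⟨y ^ N.index, hpi y⟩ : N) ^ Nat.card N = 1 := pow_card_eq_one'
      exact congrArg Subtype.val h3
    have hz0 : z ∈ Y0 := ⟨Y.pow_mem hyY _, hzm⟩
    obtain ⟨l, hl⟩ := conj_exp (C := Y0) hY0c g
    have h6 : g * z * g⁻¹ ∈ Subgroup.zpowers y := by
      rw [hl z hz0]
      exact Subgroup.zpow_mem _ (Subgroup.pow_mem _ (Subgroup.mem_zpowers y) _) _
    have hbz := Nat.gcd_eq_gcd_ab (Nat.card N) N.index
    rw [show Nat.gcd (Nat.card N) N.index = 1 from hco] at hbz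
    have h7 : y = z ^ (Nat.gcdA (Nat.card N) N.index) * (y ^ N.index) ^ (Nat.gcdB (Nat.card N) N.index) := by
      rw [hz, ← zpow_natCast y (Nat.card N), ← zpow_natCast y N.index, ← zpow_mul, ← zpow_mul, ← zpow_add, ← hbz]
      simp
    have h8 : g * y * g⁻¹ = (g * z * g⁻¹) ^ (Nat.gcdA (Nat.card N) N.index) *
        (g * y ^ N.index * g⁻¹) ^ (Nat.gcdB (Nat.card N) N.index) := by
      conv_lhs => rw [h7]
      rw [conj_zpow, conj_zpow]
      group
    rw [h8]
    exact Subgroup.mul_mem _ (Subgroup.zpow_mem _ h6 _) (Subgroup.zpow_mem _ h1 _)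
  · intro y hy
    exact (mem_Yc.1 ((hker y).1 hy).1).2

end Pool.Agent.Lib.MP_688fd0_co.SQ5.H49
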